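import Pool.Agent.P.MP_78d079_nt.Newman

/-!
The prime number theorem and the sharp form of the first theorem of Mertens.
-/

namespace Pool.Agent.P.MP_78d079_nt

open Set MeasureTheory Filter Topology Chebyshev
open ArithmeticFunction (vonMangoldt vonMangoldt_nonneg)
open scoped Interval

/-- The integrand. -/
noncomputable def ee (x : ℝ) : ℝ := (psi x / x - 1) / x

theorem psi_bdd {x : ℝ} (hx : 1 ≤ x) : |psi x / x - 1| ≤ Real.log 4 + 5 := by
  have h0 : 0 < x := by linarith
  have h1 : psi x / x ≤ Real.log 4 + 4 := by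
    rw [div_le_iff₀ h0]; exact psi_le_const_mul_self h0.le
  have h2 : 0 ≤ psi x / x := div_nonneg (psi_nonneg x) h0.le
  have h3 : 0 ≤ Real.log 4 := Real.log_nonneg (by norm_num)
  rw [abs_le]; constructor <;> linarith

theorem psi_Icc (x : ℝ) : psi x = ∑ k ∈ Finset.Icc 1 ⌊x⌋₊, vonMangoldt k := by
  unfold psi
  rw [← Finset.Icc_add_one_left_eq_Ioc, zero_add]

open Complex DirichletCharacter in
theorem int_conv : ∃ c : ℝ, Tendsto (fun X : ℝ => ∫ x in (1 : ℝ)..X, ee x) atTop (𝓝 c) := by
  let Z : ℂ → ℂ := LFunctionTrivChar₁ 1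
  have hZ : Differentiable ℂ Z := differentiable_LFunctionTrivChar₁ 1
  have hT : LFunctionTrivChar 1 = riemannZeta := LFunction_modOne_eq
  have hZ1 : ∀ s : ℂ, s ≠ 1 → Z s = (s - 1) * riemannZeta s := fun s hs => by
    simp only [Z, LFunctionTrivChar₁]
    rw [Function.update_of_ne hs, hT]
  have hZ0 : ∀ s : ℂ, 1 ≤ s.re → Z s ≠ 0 := fun s hs => by
    rcases eq_or_ne s 1 with rfl | h
    · exact LFunctionTrivChar₁_apply_one_ne_zero 1
    · rw [hZ1 s h]
      exact mul_ne_zero (sub_ne_zero.2 h) (riemannZeta_ne_zero_of_one_le_re hs)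
  let g : ℂ → ℂ := fun z => (-deriv Z (z + 1) / Z (z + 1) - 1) / (z + 1)
  refine ⟨(g 0).re, newman (f := fun x => psi x / x - 1) (B := Real.log 4 + 5)
    ((psi_mono.measurable.div measurable_id).sub measurable_const) (fun x hx => psi_bdd hx)
    (fun z hz => ?_) (fun z hz => ?_)⟩
  · have h1 : AnalyticAt ℂ (fun w : ℂ => w + 1) z := by fun_prop
    have h2 : AnalyticAt ℂ (fun w : ℂ => Z (w + 1)) z :=
      AnalyticAt.comp (g := Z) (hZ.analyticAt _) h1
    have h3 : AnalyticAt ℂ (fun w : ℂ => deriv Z (w + 1)) z :=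
      AnalyticAt.comp (g := deriv Z) (hZ.analyticAt _).deriv h1
    refine ((h3.neg.div h2 (hZ0 _ (by simpa using hz))).sub analyticAt_const).div h1
      fun h0 => ?_
    have := congrArg Complex.re h0
    simp at this
    linarith
  · have hs : 1 < (z + 1).re := by simpa using hz
    have hs1 : z + 1 ≠ 1 := fun h => by rw [h] at hs; simp at hs
    have hz0 : z ≠ 0 := fun h => by rw [h] at hz; simp at hz
    have hs0 : z + 1 ≠ 0 := fun h => by rw [h] at hs; norm_num at hs
    have hζ := riemannZeta_ne_zero_of_one_le_re hs.le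
    have h1 := LSeries_eq_mul_integral_of_nonneg (fun n => vonMangoldt n) zero_le_one hs (by
      refine Asymptotics.IsBigO.of_bound (Real.log 4 + 4) (Eventually.of_forall fun n => ?_)
      have := psi_le_const_mul_self (x := n) n.cast_nonneg
      rw [psi_Icc, Nat.floor_natCast] at this
      rw [Real.norm_of_nonneg (Finset.sum_nonneg fun _ _ => vonMangoldt_nonneg), Real.rpow_one,
        Real.norm_natCast]
      exact this) fun _ => vonMangoldt_nonneg
    have h2 := ArithmeticFunction.LSeries_vonMangoldt_eq_deriv_riemannZeta_div hs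
    have h3 : deriv Z (z + 1) = z * deriv riemannZeta (z + 1) + riemannZeta (z + 1) := by
      have := deriv_LFunctionTrivChar₁_apply_of_ne_one 1 hs1
      rw [hT, add_sub_cancel_right] at this
      exact this
    have i1 := integrableOn_Ioi_cpow_of_lt (a := -(z + 1)) (by simp; linarith) zero_lt_one
    have i2 := int_Ioi (f := fun x => psi x / x - 1) (B := Real.log 4 + 5)
      ((psi_mono.measurable.div measurable_id).sub measurable_const) (fun x hx => psi_bdd hx)
      hz le_rfl
    have h4 : ∫ t in Ioi (1 : ℝ), (∑ k ∈ Finset.Icc 1 ⌊t⌋₊, ((vonMangoldt k : ℝ) : ℂ)) *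
        (t : ℂ) ^ (-(z + 1 + 1)) =
        (∫ x in Ioi (1 : ℝ), ((psi x / x - 1 : ℝ) : ℂ) * (x : ℂ) ^ (-(z + 1))) + 1 / z := by
      have h5 := integral_Ioi_cpow_of_lt (a := -(z + 1)) (by simp; linarith) zero_lt_one
      have h6 : -((1 : ℝ) : ℂ) ^ (-(z + 1) + 1) / (-(z + 1) + 1) = 1 / z := by
        rw [ofReal_one, one_cpow, show -(z + 1) + 1 = -z by ring, neg_div_neg_eq]
      rw [← h6, ← h5, ← integral_add i2 i1]
      refine setIntegral_congr_fun measurableSet_Ioi fun t ht => ?_
      have ht0 : (t : ℂ) ≠ 0 := by exact_mod_cast (zero_lt_one.trans ht).ne'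
      rw [← ofReal_sum, ← psi_Icc, show -(z + 1 + 1) = -(z + 1) - 1 by ring, cpow_sub _ _ ht0,
        cpow_one]
      push_cast
      field_simp
      ring
    rw [h4, h2] at h1
    simp only [g]
    rw [h3, hZ1 _ hs1, add_sub_cancel_right, div_eq_iff hs0]
    field_simp at h1 ⊢
    linear_combination h1

theorem ee_int {a b : ℝ} (ha : 0 < a) (hb : 0 < b) : IntervalIntegrable ee volume a b := by
  have h0 : ∀ x ∈ [[a, b]], x ≠ 0 := fun x hx => ((lt_min ha hb).trans_le hx.1).ne'
  have h1 : ContinuousOn (fun x : ℝ => x⁻¹) [[a, b]] := continuousOn_id.inv₀ h0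
  have := ((psi_mono.intervalIntegrable.mul_continuousOn h1).sub
    (intervalIntegrable_const (c := (1 : ℝ)) (μ := volume))).mul_continuousOn h1
  unfold ee
  simpa only [div_eq_mul_inv] using this

theorem int_short {a : ℝ} (ha : 0 < a) :
    Tendsto (fun x : ℝ => ∫ t in x..a * x, ee t) atTop (𝓝 0) := by
  obtain ⟨c, hc⟩ := int_conv
  have := (hc.comp (tendsto_id.const_mul_atTop ha)).sub hc
  rw [sub_self] at this
  refine this.congr' ?_
  filter_upwards [eventually_gt_atTop 0] with x hx
  exact intervalIntegral.integral_interval_sub_left (ee_int one_pos (by positivity))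
    (ee_int one_pos hx)

theorem pnt : Tendsto (fun x : ℝ => psi x / x) atTop (𝓝 1) := by
  rw [tendsto_order]
  constructor
  · intro r hr
    have hc : Tendsto (fun m : ℝ => m ^ 3) (𝓝[<] 1) (𝓝 (1 ^ 3)) :=
      ((continuous_pow 3).tendsto 1).mono_left nhdsWithin_le_nhds
    obtain ⟨m, hm1, hm2⟩ := ((hc.eventually (lt_mem_nhds (by simpa using hr))).and
      (Ioo_mem_nhdsLT (zero_lt_one' ℝ))).exists
    obtain ⟨hm0, hm⟩ := hm2
    have h1 : 0 < 1 - m := by linarith
    filter_upwards [(int_short hm0).eventually (gt_mem_nhds (show 0 < (1 - m) ^ 2 by positivity)),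
      eventually_gt_atTop 0] with x h2 hx
    rw [intervalIntegral.integral_symm] at h2
    have hmx : m * x ≤ x := by nlinarith
    have h3 : ∫ t in m * x..x, ee t ≤ ∫ _ in m * x..x, (psi x / (m * x) ^ 2 - 1 / x) := by
      refine intervalIntegral.integral_mono_on hmx (ee_int (by positivity) hx) (by simp)
        fun t ht => ?_
      have ht0 : 0 < t := lt_of_lt_of_le (by positivity) ht.1
      have : ee t = psi t / t ^ 2 - 1 / t := by unfold ee; field_simp
      rw [this]
      have := psi_nonneg x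
      have h8 := psi_mono ht.2
      gcongr
      exacts [ht.1, ht.2]
    rw [intervalIntegral.integral_const, smul_eq_mul] at h3
    have h4 : (x - m * x) * (psi x / (m * x) ^ 2 - 1 / x) =
        (1 - m) * (psi x / x / m ^ 2 - 1) := by field_simp
    have h5 : (1 - m) * (-(1 - m)) < (1 - m) * (psi x / x / m ^ 2 - 1) := by nlinarith
    have h6 := lt_of_mul_lt_mul_left h5 h1.le
    have h7 : m < psi x / x / m ^ 2 := by linarith
    rw [lt_div_iff₀ (by positivity)] at h7
    nlinarith
  · intro r hr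
    have hc : Tendsto (fun m : ℝ => m ^ 3) (𝓝[>] 1) (𝓝 (1 ^ 3)) :=
      ((continuous_pow 3).tendsto 1).mono_left nhdsWithin_le_nhds
    obtain ⟨m, hm1, hm⟩ := ((hc.eventually (gt_mem_nhds (by simpa using hr))).and
      self_mem_nhdsWithin).exists
    have hm' : 1 < m := hm
    have h1 : 0 < m - 1 := by linarith
    filter_upwards [(int_short (by linarith : 0 < m)).eventually
      (gt_mem_nhds (show 0 < (m - 1) ^ 2 by positivity)), eventually_gt_atTop 0] with x h2 hx
    have hmx : x ≤ m * x := by nlinarith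
    have h3 : ∫ _ in x..m * x, (psi x / (m * x) ^ 2 - 1 / x) ≤ ∫ t in x..m * x, ee t := by
      refine intervalIntegral.integral_mono_on hmx (by simp) (ee_int hx (by positivity))
        fun t ht => ?_
      have ht0 : 0 < t := lt_of_lt_of_le hx ht.1
      have : ee t = psi t / t ^ 2 - 1 / t := by unfold ee; field_simp
      rw [this]
      have := psi_nonneg t
      have h8 := psi_mono ht.1
      gcongr
      exacts [ht.2, ht.1]
    rw [intervalIntegral.integral_const, smul_eq_mul] at h3
    have h4 : (m * x - x) * (psi x / (m * x) ^ 2 - 1 / x) =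
        (m - 1) * (psi x / x / m ^ 2 - 1) := by field_simp
    have h5 : (m - 1) * (psi x / x / m ^ 2 - 1) < (m - 1) * (m - 1) := by nlinarith
    have h6 := lt_of_mul_lt_mul_left h5 h1.le
    have h7 : psi x / x / m ^ 2 < m := by linarith
    rw [div_lt_iff₀ (by positivity)] at h7
    nlinarith

theorem mertens_one : ∃ c : ℝ, Tendsto
    (fun N : ℕ => ∑ k ∈ Finset.range (N + 1), vonMangoldt k / k - Real.log N) atTop (𝓝 c) := by
  obtain ⟨c, hc⟩ := int_conv
  refine ⟨1 + c, ((pnt.add hc).comp tendsto_natCast_atTop_atTop).congr' ?_⟩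
  filter_upwards [eventually_ge_atTop 1] with N hN
  have hN1 : (1 : ℝ) ≤ N := by exact_mod_cast hN
  have hd : ∀ t ∈ Icc (1 : ℝ) N, t ≠ 0 := fun t ht => (zero_lt_one.trans_le ht.1).ne'
  have h1 := sum_mul_eq_sub_integral_mul₀' (fun k => vonMangoldt k) (f := fun t : ℝ => t⁻¹)
    (by simp) N (fun t ht => differentiableAt_inv (hd t ht)) (by
      rw [deriv_inv']
      exact (((continuousOn_id.pow 2).inv₀ fun t ht => pow_ne_zero 2 (hd t ht)).neg).integrableOn_Icc)
  have h2 : ∫ t in Ioc (1 : ℝ) N, deriv (fun t : ℝ => t⁻¹) t *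
      ∑ k ∈ Finset.Icc 0 ⌊t⌋₊, vonMangoldt k = -((∫ x in (1 : ℝ)..N, ee x) + Real.log N) := by
    have h3 : Real.log N = ∫ x in (1 : ℝ)..N, x⁻¹ := by
      rw [integral_inv_of_pos one_pos (by linarith), div_one]
    rw [h3, ← intervalIntegral.integral_add (ee_int one_pos (by linarith))
      (intervalIntegral.intervalIntegrable_inv (f := fun x => x) (fun x hx => by
        rw [uIcc_of_le hN1] at hx; exact hd x hx) continuousOn_id),
      ← intervalIntegral.integral_neg, intervalIntegral.integral_of_le hN1]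
    refine setIntegral_congr_fun measurableSet_Ioc fun t ht => ?_
    have := hd t (Ioc_subset_Icc_self ht)
    simp only [deriv_inv', ← psi_eq_sum_Icc, ee]
    field_simp
    ring
  have h4 : psi N = ∑ k ∈ Finset.Icc 0 N, vonMangoldt k := by
    rw [psi_eq_sum_Icc, Nat.floor_natCast]
  rw [h2, ← h4] at h1
  simp only [Function.comp]
  rw [Nat.range_succ_eq_Icc_zero]
  simp only [div_eq_inv_mul]
  linarith

theorem theta_lower {δ : ℝ} (hδ : 0 < δ) : ∀ᶠ x : ℝ in atTop, (1 - δ) * x ≤ theta x := by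
  obtain ⟨C, hC⟩ := psi_sub_theta_le_mul_sqrt
  have h1 : Tendsto (fun x : ℝ => psi x / x - C / √x) atTop (𝓝 (1 - 0)) :=
    pnt.sub (tendsto_const_nhds.div_atTop Real.tendsto_sqrt_atTop)
  filter_upwards [h1.eventually (lt_mem_nhds (show 1 - δ < 1 - 0 by linarith)),
    eventually_gt_atTop 0] with x h2 hx
  have h3 : C / √x = C * √x / x := by
    have := Real.sqrt_pos.2 hx
    field_simp
    rw [Real.sq_sqrt hx.le]
  rw [h3, ← sub_div, lt_div_iff₀ hx] at h2
  linarith [hC x]

end Pool.Agent.P.MP_78d079_nt
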