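import Mathlib

/-!
Contour estimate on a rectangle, the core of the Tauberian argument of Newman.
-/

namespace Pool.Agent.P.MP_78d079_nt

open Complex Set MeasureTheory
open scoped Interval

/-- Integral along a horizontal segment. -/
noncomputable def hor (F : ℂ → ℂ) (a b y : ℝ) : ℂ := ∫ x : ℝ in a..b, F (x + y * I)

/-- Integral along a vertical segment. -/
noncomputable def ver (F : ℂ → ℂ) (R x : ℝ) : ℂ := ∫ y : ℝ in (-R)..R, F (x + y * I)

/-- Integral along the boundary of a rectangle. -/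
noncomputable def box (F : ℂ → ℂ) (R a b : ℝ) : ℂ :=
  hor F a b (-R) - hor F a b R + I * ver F R b - I * ver F R a

/-- The closed rectangle. -/
def rect (R a b : ℝ) : Set ℂ := [[a, b]] ×ℂ [[-R, R]]

theorem mem_rect {R a b x y : ℝ} (hx : x ∈ [[a, b]]) (hy : y ∈ [[-R, R]]) :
    (x : ℂ) + y * I ∈ rect R a b := by
  unfold rect
  rw [mem_reProdIm]
  simpa using ⟨hx, hy⟩

theorem box_zero {F : ℂ → ℂ} {R a b : ℝ} (h : DifferentiableOn ℂ F (rect R a b)) :
    box F R a b = 0 := by
  have := integral_boundary_rect_eq_zero_of_differentiableOn F (a + (-R : ℝ) * I) (b + R * I)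
    (by simpa [rect] using h)
  simpa [box, hor, ver] using this

theorem int_hor {F : ℂ → ℂ} {R a b c d y : ℝ} (h : ContinuousOn F (rect R a b \ {0}))
    (hy : y ∈ [[-R, R]]) (hy0 : y ≠ 0) (hc : c ∈ [[a, b]]) (hd : d ∈ [[a, b]]) :
    IntervalIntegrable (fun x : ℝ => F (x + y * I)) volume c d := by
  refine ContinuousOn.intervalIntegrable (h.comp (by fun_prop) fun x hx => ⟨?_, ?_⟩)
  · exact mem_rect (uIcc_subset_uIcc hc hd hx) hy
  · intro h0
    have := congrArg Complex.im (mem_singleton_iff.1 h0)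
    simp at this
    exact hy0 this

theorem int_ver {F : ℂ → ℂ} {R a b x : ℝ} (h : ContinuousOn F (rect R a b \ {0}))
    (hx : x ∈ [[a, b]]) (hx0 : x ≠ 0) :
    IntervalIntegrable (fun y : ℝ => F (x + y * I)) volume (-R) R := by
  refine ContinuousOn.intervalIntegrable (h.comp (by fun_prop) fun y hy => ⟨?_, ?_⟩)
  · exact mem_rect hx hy
  · intro h0
    have := congrArg Complex.re (mem_singleton_iff.1 h0)
    simp at this
    exact hx0 this

theorem box_sub {F G : ℂ → ℂ} {R a b : ℝ} (hF : ContinuousOn F (rect R a b \ {0}))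
    (hG : ContinuousOn G (rect R a b \ {0})) (hR : R ≠ 0) (ha : a ≠ 0) (hb : b ≠ 0) (c : ℂ) :
    box (fun z => F z - c * G z) R a b = box F R a b - c * box G R a b := by
  have h1 : ∀ y ∈ [[-R, R]], y ≠ 0 → hor (fun z => F z - c * G z) a b y =
      hor F a b y - c * hor G a b y := fun y hy hy0 => by
    unfold hor
    rw [intervalIntegral.integral_sub (int_hor hF hy hy0 left_mem_uIcc right_mem_uIcc)
      ((int_hor hG hy hy0 left_mem_uIcc right_mem_uIcc).const_mul c),
      intervalIntegral.integral_const_mul]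
  have h2 : ∀ x ∈ [[a, b]], x ≠ 0 → ver (fun z => F z - c * G z) R x =
      ver F R x - c * ver G R x := fun x hx hx0 => by
    unfold ver
    rw [intervalIntegral.integral_sub (int_ver hF hx hx0) ((int_ver hG hx hx0).const_mul c),
      intervalIntegral.integral_const_mul]
  unfold box
  rw [h1 _ left_mem_uIcc (neg_ne_zero.2 hR), h1 _ right_mem_uIcc hR, h2 _ left_mem_uIcc ha,
    h2 _ right_mem_uIcc hb]
  ring

theorem box_congr {F G : ℂ → ℂ} {R a b : ℝ} (h : ∀ z, z ≠ 0 → F z = G z) (hR : R ≠ 0)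
    (ha : a ≠ 0) (hb : b ≠ 0) : box F R a b = box G R a b := by
  have h1 : ∀ y : ℝ, y ≠ 0 → hor F a b y = hor G a b y := fun y hy => by
    unfold hor
    refine intervalIntegral.integral_congr fun x _ => h _ fun h0 => hy ?_
    simpa using congrArg Complex.im h0
  have h2 : ∀ x : ℝ, x ≠ 0 → ver F R x = ver G R x := fun x hx => by
    unfold ver
    refine intervalIntegral.integral_congr fun y _ => h _ fun h0 => hx ?_
    simpa using congrArg Complex.re h0
  unfold box
  rw [h1 _ (neg_ne_zero.2 hR), h1 _ hR, h2 _ ha, h2 _ hb]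

theorem rect_mem_nhds {R a b : ℝ} (hR : 0 < R) (ha : a < 0) (hb : 0 < b) :
    rect R a b ∈ nhds (0 : ℂ) := by
  have : IsOpen (Ioo a b ×ℂ Ioo (-R) R) := isOpen_Ioo.reProdIm isOpen_Ioo
  refine Filter.mem_of_superset (this.mem_nhds ?_) fun z hz => ?_
  · rw [mem_reProdIm]; simp [ha, hb, hR]
  · rw [mem_reProdIm] at hz
    unfold rect
    rw [mem_reProdIm, uIcc_of_le (ha.trans hb).le, uIcc_of_le (by linarith)]
    exact ⟨Ioo_subset_Icc_self hz.1, Ioo_subset_Icc_self hz.2⟩

theorem cont_inv (R a b : ℝ) : ContinuousOn (fun z : ℂ => z⁻¹) (rect R a b \ {0}) :=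
  continuousOn_id.inv₀ fun _ hz => hz.2

theorem box_pole {F : ℂ → ℂ} {R a b : ℝ} (h : DifferentiableOn ℂ F (rect R a b)) (hR : 0 < R)
    (ha : a < 0) (hb : 0 < b) :
    box (fun z => F z * z⁻¹) R a b = F 0 * box (fun z => z⁻¹) R a b := by
  have h1 := box_zero ((differentiableOn_dslope (rect_mem_nhds hR ha hb)).2 h)
  have h2 := box_sub (F := fun z => F z * z⁻¹) (G := fun z => z⁻¹)
    ((h.continuousOn.mono sdiff_subset).mul (cont_inv R a b)) (cont_inv R a b) hR.ne' ha.ne
    hb.ne' (F 0)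
  rw [← sub_eq_zero, ← h2]
  refine Eq.trans (box_congr (fun z hz => ?_) hR.ne' ha.ne hb.ne') h1
  rw [dslope_of_ne _ hz, slope_def_field]
  field_simp
  ring

theorem im_hor (a b y : ℝ) (hy : y ≠ 0) :
    (hor (fun z => z⁻¹) a b y).im = ∫ x : ℝ in a..b, -y / (x ^ 2 + y ^ 2) := by
  have hi : IntervalIntegrable (fun x : ℝ => ((x : ℂ) + y * I)⁻¹) volume a b := by
    refine Continuous.intervalIntegrable (Continuous.inv₀ (by fun_prop) fun x h0 => hy ?_) _ _
    simpa using congrArg Complex.im h0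
  unfold hor
  refine (intervalIntegral.intervalIntegral_im hi).symm.trans ?_
  refine intervalIntegral.integral_congr fun x _ => ?_
  simp [normSq_apply, sq]

theorem re_ver (R x : ℝ) (hx : x ≠ 0) :
    (ver (fun z => z⁻¹) R x).re = ∫ y : ℝ in (-R)..R, x / (x ^ 2 + y ^ 2) := by
  have hi : IntervalIntegrable (fun y : ℝ => ((x : ℂ) + y * I)⁻¹) volume (-R) R := by
    refine Continuous.intervalIntegrable (Continuous.inv₀ (by fun_prop) fun y h0 => hx ?_) _ _
    simpa using congrArg Complex.re h0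
  unfold ver
  refine (intervalIntegral.intervalIntegral_re hi).symm.trans ?_
  refine intervalIntegral.integral_congr fun y _ => ?_
  simp [normSq_apply, sq]

theorem one_le_box_inv {R δ : ℝ} (hR : 0 < R) (hδ : 0 < δ) :
    1 ≤ ‖box (fun z => z⁻¹) R (-δ) R‖ := by
  refine le_trans ?_ ((le_abs_self _).trans (abs_im_le_norm _))
  have h0 : (box (fun z => z⁻¹) R (-δ) R).im = (hor (fun z => z⁻¹) (-δ) R (-R)).im -
      (hor (fun z => z⁻¹) (-δ) R R).im + (ver (fun z => z⁻¹) R R).re -
      (ver (fun z => z⁻¹) R (-δ)).re := by simp [box]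
  rw [h0, im_hor _ _ _ (neg_ne_zero.2 hR.ne'), im_hor _ _ _ hR.ne', re_ver _ _ hR.ne',
    re_ver _ _ (neg_ne_zero.2 hδ.ne')]
  have h1 : 0 ≤ ∫ x : ℝ in (-δ)..R, - -R / (x ^ 2 + (-R) ^ 2) :=
    intervalIntegral.integral_nonneg (by linarith) fun x _ => by rw [neg_neg]; positivity
  have h2 : 0 ≤ ∫ x : ℝ in (-δ)..R, -(-R / (x ^ 2 + R ^ 2)) :=
    intervalIntegral.integral_nonneg (by linarith) fun x _ => by
      rw [neg_div, neg_neg]; positivity
  have h3 : 0 ≤ ∫ y : ℝ in (-R)..R, -(-δ / ((-δ) ^ 2 + y ^ 2)) :=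
    intervalIntegral.integral_nonneg (by linarith) fun x _ => by
      rw [neg_div, neg_neg]; positivity
  rw [intervalIntegral.integral_neg] at h2 h3
  have h4 : ∫ y : ℝ in (-R)..R, 1 / (2 * R) ≤ ∫ y : ℝ in (-R)..R, R / (R ^ 2 + y ^ 2) := by
    refine intervalIntegral.integral_mono_on (by linarith) (by simp) ?_ fun y hy => ?_
    · exact Continuous.intervalIntegrable
        (continuous_const.div (by fun_prop) fun y => by positivity) _ _
    · rw [div_le_div_iff₀ (by positivity) (by positivity)]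
      nlinarith [hy.1, hy.2]
  rw [intervalIntegral.integral_const, smul_eq_mul] at h4
  have h5 : (R - -R) * (1 / (2 * R)) = 1 := by field_simp; ring
  linarith

/-- The kernel of Newman. -/
noncomputable def ker (R : ℝ) (z : ℂ) : ℂ := (1 + z ^ 2 / R ^ 2) * z⁻¹

theorem ker_hor {R x y : ℝ} (hR : 0 < R) (hy : y = R ∨ y = -R) :
    ‖ker R (x + y * I)‖ ≤ 2 * |x| / R ^ 2 := by
  have hy2 : (y : ℂ) ^ 2 = R ^ 2 := by rcases hy with rfl | rfl <;> simp
  have hy0 : y ≠ 0 := by rcases hy with rfl | rfl; exacts [hR.ne', neg_ne_zero.2 hR.ne']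
  have hz : (x : ℂ) + y * I ≠ 0 := fun h0 => hy0 (by simpa using congrArg Complex.im h0)
  have hRc : (R : ℂ) ≠ 0 := by exact_mod_cast hR.ne'
  have h1 : ker R (x + y * I) = x * (x + 2 * y * I) / (R ^ 2 * (x + y * I)) := by
    unfold ker
    field_simp
    have : I ^ 2 = -1 := I_sq
    linear_combination (y : ℂ) ^ 2 * this - hy2
  have h2 : ‖(x : ℂ) + 2 * y * I‖ ≤ 2 * ‖(x : ℂ) + y * I‖ := by
    refine (sq_le_sq₀ (norm_nonneg _) (by positivity)).1 ?_
    rw [mul_pow, Complex.sq_norm, Complex.sq_norm]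
    simp [normSq_apply]
    nlinarith [mul_self_nonneg x]
  have h3 : 0 < ‖(x : ℂ) + y * I‖ := norm_pos_iff.2 hz
  rw [h1, norm_div, norm_mul, norm_mul, norm_pow, norm_real, norm_real, Real.norm_eq_abs,
    Real.norm_eq_abs, abs_of_pos hR, div_le_div_iff₀ (by positivity) (by positivity)]
  have : 0 ≤ |x| * R ^ 2 := by positivity
  nlinarith

theorem ker_ver {R r x y : ℝ} (hR : 0 < R) (hr : 0 < r) (hx : r ≤ |x|) (hxR : |x| ≤ R)
    (hy : |y| ≤ R) : ‖ker R (x + y * I)‖ ≤ 1 / r + 2 / R := by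
  have h1 : r ≤ ‖(x : ℂ) + y * I‖ := hx.trans (by simpa using abs_re_le_norm ((x : ℂ) + y * I))
  have h2 : ‖(x : ℂ) + y * I‖ ≤ 2 * R := by
    refine (norm_add_le _ _).trans ?_
    simp only [norm_real, Real.norm_eq_abs, norm_mul, norm_I, mul_one]
    linarith
  have hz : (x : ℂ) + y * I ≠ 0 := norm_pos_iff.1 (hr.trans_le h1)
  have h3 : ker R (x + y * I) = ((x : ℂ) + y * I)⁻¹ + (x + y * I) / R ^ 2 := by
    unfold ker
    field_simp
  rw [h3]
  refine (norm_add_le _ _).trans (add_le_add ?_ ?_)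
  · rw [norm_inv, one_div]
    exact inv_anti₀ hr h1
  · rw [norm_div, norm_pow, norm_real, Real.norm_eq_abs, abs_of_pos hR,
      div_le_div_iff₀ (by positivity) hR]
    nlinarith

/-- The left part of the contour. -/
noncomputable def lft (F : ℂ → ℂ) (R δ : ℝ) : ℂ :=
  hor F (-δ) 0 (-R) - hor F (-δ) 0 R - I * ver F R (-δ)

theorem norm_three {a b c : ℂ} {A B C : ℝ} (ha : ‖a‖ ≤ A) (hb : ‖b‖ ≤ B) (hc : ‖c‖ ≤ C) :
    ‖a - b - I * c‖ ≤ A + B + C := by
  refine (norm_sub_le _ _).trans (add_le_add ((norm_sub_le _ _).trans (add_le_add ha hb)) ?_)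
  simpa using hc

theorem cont_ker (R S a b : ℝ) : ContinuousOn (ker R) (rect S a b \ {0}) :=
  ContinuousOn.mul (by fun_prop) (cont_inv S a b)

theorem abs_le_of_uIoc {R y : ℝ} (hR : 0 < R) (hy : y ∈ Ι (-R) R) : |y| ≤ R := by
  rw [uIoc_of_le (by linarith)] at hy
  exact abs_le.2 ⟨hy.1.le, hy.2⟩

theorem contour {g h : ℂ → ℂ} {R δ T B M : ℝ} (hR : 0 < R) (hδ : 0 < δ) (hδR : δ ≤ R)
    (hT : 0 < T) (hg : DifferentiableOn ℂ g (rect R (-δ) R)) (hh : Differentiable ℂ h)
    (hM : ∀ z ∈ rect R (-δ) R, ‖g z‖ ≤ M)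
    (h1 : ∀ z : ℂ, 0 < z.re → z.re * ‖(g z - h z) * exp (z * T)‖ ≤ B)
    (h2 : ∀ z : ℂ, z.re ≤ 0 → -z.re * ‖h z * exp (z * T)‖ ≤ B) :
    ‖g 0 - h 0‖ ≤ 20 * B / R + 4 * M * δ / (R ^ 2 * T) +
      2 * R * (M * Real.exp (-δ * T) * (1 / δ + 2 / R)) := by
  have hE : Differentiable ℂ fun z : ℂ => exp (z * T) := by fun_prop
  have hmL : -R ∈ [[-R, R]] := left_mem_uIcc
  have hmR : R ∈ [[-R, R]] := right_mem_uIcc
  have hR' : -R ≠ 0 := neg_ne_zero.2 hR.ne'
  have hδ' : -δ ≠ 0 := neg_ne_zero.2 hδ.ne'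
  have h0m : (0 : ℝ) ∈ [[-δ, R]] := by rw [uIcc_of_le (by linarith)]; constructor <;> linarith
  let G : ℂ → ℂ := fun z => g z * exp (z * T) * ker R z
  let H : ℂ → ℂ := fun z => h z * exp (z * T) * ker R z
  let D : ℂ → ℂ := fun z => (g z - h z) * exp (z * T) * ker R z
  have hGc : ContinuousOn G (rect R (-δ) R \ {0}) :=
    ((hg.continuousOn.mono sdiff_subset).mul hE.continuous.continuousOn).mul (cont_ker _ _ _ _)
  have hHc : ∀ a b, ContinuousOn H (rect R a b \ {0}) := fun a b =>
    (hh.continuous.continuousOn.mul hE.continuous.continuousOn).mul (cont_ker _ _ _ _)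
  have hD : ∀ z, D z = G z - H z := fun z => by simp only [D, G, H]; ring
  have hDc : ContinuousOn D (rect R (-δ) R \ {0}) :=
    (hGc.sub (hHc _ _)).congr fun z _ => hD z
  have e1 : box D R (-δ) R = (g 0 - h 0) * box (fun z => z⁻¹) R (-δ) R := by
    have := box_pole (F := fun z => (g z - h z) * exp (z * T) * (1 + z ^ 2 / R ^ 2))
      (((hg.sub hh.differentiableOn).mul hE.differentiableOn).mul (by fun_prop)) hR
      (neg_lt_zero.2 hδ) hR
    simp only [zero_mul, exp_zero, mul_one, ne_eq, OfNat.ofNat_ne_zero, not_false_eq_true,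
      zero_pow, zero_div, add_zero] at this
    rw [← this]
    congr 1
    funext z
    simp only [D, ker]; ring
  have e2 : ∀ y ∈ [[-R, R]], y ≠ 0 → hor D (-δ) R y =
      hor G (-δ) 0 y - hor H (-δ) 0 y + hor D 0 R y := fun y hy hy0 => by
    unfold hor
    rw [← intervalIntegral.integral_add_adjacent_intervals
      (int_hor hDc hy hy0 left_mem_uIcc h0m) (int_hor hDc hy hy0 h0m right_mem_uIcc),
      ← intervalIntegral.integral_sub (int_hor hGc hy hy0 left_mem_uIcc h0m)
      (int_hor (hHc _ _) hy hy0 left_mem_uIcc h0m)]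
    simp only [hD]
  have e3 : ver D R (-δ) = ver G R (-δ) - ver H R (-δ) := by
    unfold ver
    rw [← intervalIntegral.integral_sub (int_ver hGc left_mem_uIcc hδ')
      (int_ver (hHc _ R) left_mem_uIcc hδ')]
    simp only [hD]
  have e4 : box H R (-R) (-δ) = 0 := by
    refine box_zero (((hh.mul hE).differentiableOn).mul
      (DifferentiableOn.mul (by fun_prop) (differentiableOn_id.inv fun z hz h0 => ?_)))
    unfold rect at hz
    rw [mem_reProdIm, uIcc_of_le (by linarith)] at hz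
    have := hz.1.2
    rw [show z = 0 from h0] at this
    simp at this
    linarith
  have e5 : ∀ y ∈ [[-R, R]], y ≠ 0 → hor H (-R) 0 y = hor H (-R) (-δ) y + hor H (-δ) 0 y :=
    fun y hy hy0 => by
      have hm : -δ ∈ [[-R, 0]] := by rw [uIcc_of_le (by linarith)]; constructor <;> linarith
      unfold hor
      rw [intervalIntegral.integral_add_adjacent_intervals
        (int_hor (hHc (-R) 0) hy hy0 left_mem_uIcc hm)
        (int_hor (hHc (-R) 0) hy hy0 hm right_mem_uIcc)]
  have e6 : box D R (-δ) R = (hor D 0 R (-R) - hor D 0 R R - I * (-ver D R R)) + lft G R δ -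
      lft H R R := by
    unfold box at e4
    unfold box lft
    rw [e2 _ hmL hR', e2 _ hmR hR.ne', e3, e5 _ hmL hR', e5 _ hmR hR.ne']
    linear_combination e4
  have hB : 0 ≤ B := by simpa using h2 0 (by simp)
  have hM0 : 0 ≤ M := (norm_nonneg _).trans (hM _ (mem_rect left_mem_uIcc left_mem_uIcc))
  have b1 : ∀ y, y = R ∨ y = -R → ‖hor D 0 R y‖ ≤ 2 * B / R := fun y hy => by
    refine (intervalIntegral.norm_integral_le_of_norm_le_const (C := 2 * B / R ^ 2)
      fun x hx => ?_).trans (le_of_eq ?_)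
    · rw [uIoc_of_le hR.le] at hx
      have := h1 (x + y * I) (by simpa using hx.1)
      simp only [add_re, ofReal_re, mul_re, I_re, mul_zero, ofReal_im, I_im, mul_one, sub_self,
        add_zero] at this
      simp only [D]
      rw [norm_mul]
      refine (mul_le_mul_of_nonneg_left (ker_hor hR hy) (norm_nonneg _)).trans ?_
      rw [abs_of_pos hx.1, ← mul_div_assoc]
      exact div_le_div_of_nonneg_right (by linarith) (by positivity)
    · rw [sub_zero, abs_of_pos hR]; field_simp
  have b2 : ‖-ver D R R‖ ≤ 6 * B / R := by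
    rw [norm_neg]
    refine (intervalIntegral.norm_integral_le_of_norm_le_const (C := B / R * (1 / R + 2 / R))
      fun y hy => ?_).trans (le_of_eq ?_)
    · have := h1 (R + y * I) (by simpa using hR)
      simp only [add_re, ofReal_re, mul_re, I_re, mul_zero, ofReal_im, I_im, mul_one, sub_self,
        add_zero] at this
      simp only [D]
      rw [norm_mul]
      refine mul_le_mul ?_ (ker_ver hR hR (le_abs_self _) (abs_of_pos hR).le
        (abs_le_of_uIoc hR hy)) (norm_nonneg _) (by positivity)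
      rw [le_div_iff₀ hR]; linarith
    · rw [abs_of_pos (by linarith)]; field_simp; ring
  have b3 : ∀ y, y = R ∨ y = -R → ‖hor H (-R) 0 y‖ ≤ 2 * B / R := fun y hy => by
    refine (intervalIntegral.norm_integral_le_of_norm_le_const (C := 2 * B / R ^ 2)
      fun x hx => ?_).trans (le_of_eq ?_)
    · rw [uIoc_of_le (by linarith)] at hx
      have := h2 (x + y * I) (by simpa using hx.2)
      simp only [add_re, ofReal_re, mul_re, I_re, mul_zero, ofReal_im, I_im, mul_one, sub_self,
        add_zero] at this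
      simp only [H]
      rw [norm_mul]
      refine (mul_le_mul_of_nonneg_left (ker_hor hR hy) (norm_nonneg _)).trans ?_
      rw [abs_of_nonpos hx.2, ← mul_div_assoc]
      exact div_le_div_of_nonneg_right (by linarith) (by positivity)
    · rw [abs_of_pos (by linarith)]; field_simp; ring
  have b4 : ‖ver H R (-R)‖ ≤ 6 * B / R := by
    refine (intervalIntegral.norm_integral_le_of_norm_le_const (C := B / R * (1 / R + 2 / R))
      fun y hy => ?_).trans (le_of_eq ?_)
    · have := h2 ((-R : ℝ) + y * I) (by simpa using hR.le)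
      simp only [add_re, ofReal_re, mul_re, I_re, mul_zero, ofReal_im, I_im, mul_one, sub_self,
        add_zero, neg_neg] at this
      simp only [H]
      rw [norm_mul]
      refine mul_le_mul ?_ (ker_ver hR hR (by rw [abs_neg]; exact le_abs_self _)
        (by rw [abs_neg, abs_of_pos hR]) (abs_le_of_uIoc hR hy)) (norm_nonneg _) (by positivity)
      rw [le_div_iff₀ hR]; linarith
    · rw [abs_of_pos (by linarith)]; field_simp; ring
  have hex : ∀ x y : ℝ, ‖exp (((x : ℂ) + y * I) * T)‖ = Real.exp (x * T) := fun x y => by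
    rw [norm_exp]; simp
  have b5 : ∀ y, y = R ∨ y = -R → ‖hor G (-δ) 0 y‖ ≤ 2 * M * δ / (R ^ 2 * T) := fun y hy => by
    refine (intervalIntegral.norm_integral_le_of_norm_le_const (C := 2 * M / (R ^ 2 * T))
      fun x hx => ?_).trans (le_of_eq ?_)
    · rw [uIoc_of_le (by linarith)] at hx
      have hz : (x : ℂ) + y * I ∈ rect R (-δ) R := by
        refine mem_rect ?_ (by rcases hy with rfl | rfl; exacts [hmR, hmL])
        rw [uIcc_of_le (by linarith)]
        exact ⟨hx.1.le, hx.2.trans hR.le⟩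
      have h3 : Real.exp (x * T) * (-x * T) ≤ 1 := by
        have := Real.add_one_le_exp (-(x * T))
        have h4 : Real.exp (x * T) * Real.exp (-(x * T)) = 1 := by rw [← Real.exp_add]; simp
        nlinarith [Real.exp_pos (x * T)]
      simp only [G]
      rw [norm_mul, norm_mul, hex]
      calc _ ≤ M * Real.exp (x * T) * (2 * |x| / R ^ 2) := by
            gcongr
            exacts [hM _ hz, ker_hor hR hy]
        _ = 2 * M / (R ^ 2 * T) * (Real.exp (x * T) * (-x * T)) := by
            rw [abs_of_nonpos hx.2]; field_simp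
        _ ≤ _ := mul_le_of_le_one_right (by positivity) h3
    · rw [abs_of_pos (by linarith)]; field_simp; ring
  have b6 : ‖ver G R (-δ)‖ ≤ 2 * R * (M * Real.exp (-δ * T) * (1 / δ + 2 / R)) := by
    refine (intervalIntegral.norm_integral_le_of_norm_le_const
      (C := M * Real.exp (-δ * T) * (1 / δ + 2 / R)) fun y hy => ?_).trans (le_of_eq ?_)
    · simp only [G]
      rw [norm_mul, norm_mul, hex]
      gcongr
      · exact hM _ (mem_rect left_mem_uIcc (uIoc_subset_uIcc hy))
      · exact ker_ver hR hδ (by rw [abs_neg]; exact le_abs_self _)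
          (by rw [abs_neg, abs_of_pos hδ]; exact hδR) (abs_le_of_uIoc hR hy)
    · rw [abs_of_pos (by linarith)]; ring
  have c1 := norm_three (b1 _ (Or.inr rfl)) (b1 _ (Or.inl rfl)) b2
  have c2 : ‖lft G R δ‖ ≤ _ := norm_three (b5 _ (Or.inr rfl)) (b5 _ (Or.inl rfl)) b6
  have c3 : ‖lft H R R‖ ≤ _ := norm_three (b3 _ (Or.inr rfl)) (b3 _ (Or.inl rfl)) b4
  have c4 : ‖g 0 - h 0‖ ≤ ‖box D R (-δ) R‖ := by
    rw [e1, norm_mul]
    exact le_mul_of_one_le_right (norm_nonneg _) (one_le_box_inv hR hδ)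
  rw [e6] at c4
  have c5 := c4.trans ((norm_sub_le _ _).trans
    (add_le_add ((norm_add_le _ _).trans (add_le_add c1 c2)) c3))
  refine c5.trans (le_of_eq ?_)
  ring

end Pool.Agent.P.MP_78d079_nt
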