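import Pool.Agent.Lib.Sieve.Shifted

/-!
Few primes `p ≤ Y` have a prime factor of `p + 1` above `(Y + 1) / M`, and the mass inequality.
-/

namespace Pool.Agent.P.MP_78d079_nt

open Finset Real Filter
open Pool.Agent.Lib.Sieve

theorem twin_le {N m : ℕ} (hN : 2 ^ 120 ≤ N) (hm : 0 < m) :
    (((Ioc 0 N).filter (fun c => c.Prime ∧ (m * c - 1).Prime)).card : ℝ) ≤
      (25600 * exp 6 * ew m + 600) * (N / log N ^ 2) := by
  classical
  obtain ⟨y, hy8, hlog, hyN, herr⟩ := exists_level hN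
  have hl := two_le_log hy8
  have hN1 : (1 : ℝ) < N := by
    have : 1 < N := lt_of_lt_of_le (by norm_num) hN
    exact_mod_cast this
  have hlN : 0 < log N := log_pos hN1
  let Ω : ℕ → Finset ℕ := fun p => insert 0 (res ((p - 1) * m) p)
  have h1 := sieve_upper Ω (sp y) hy8 (fun p hp => mem_sp hp)
    (fun p hp => insert_subset (mem_range.2 (mem_sp hp).1.pos) (res_subset _ _))
    (fun p hp => (card_insert_le _ _).trans (Nat.succ_le_succ (card_res_le (mem_sp hp).1)))
    (N + 1)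
  have hsub : (Ioc 0 N).filter (fun c => c.Prime ∧ (m * c - 1).Prime) ⊆
      Ioc 0 (y + 1) ∪ (range (N + 1)).filter (fun n => ∀ p ∈ sp y, n % p ∉ Ω p) := by
    intro c hc
    rw [mem_filter, mem_Ioc] at hc
    by_cases hcy : c ≤ y + 1
    · exact mem_union_left _ (mem_Ioc.2 ⟨hc.1.1, hcy⟩)
    · refine mem_union_right _ (mem_filter.2 ⟨mem_range.2 (by omega), fun p hp => ?_⟩)
      obtain ⟨hpp, -, hpy⟩ := mem_sp hp
      simp only [Ω, mem_insert, mod_mem_res hpp.pos, not_or]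
      have hmc : c ≤ m * c := Nat.le_mul_of_pos_left c hm
      refine ⟨fun h => ?_, fun h => ?_⟩
      · have := (Nat.prime_dvd_prime_iff_eq hpp hc.2.1).1 (Nat.dvd_of_mod_eq_zero h)
        omega
      · have h2 : (p - 1) * m * c + 1 + (m * c - 1) = p * (m * c) := by
          obtain ⟨k, rfl⟩ : ∃ k, p = k + 1 := ⟨p - 1, by have := hpp.pos; omega⟩
          have : 1 ≤ m * c := by omega
          rw [Nat.add_sub_cancel, add_assoc, Nat.add_sub_cancel' this]; ring
        have h3 : p ∣ m * c - 1 := (Nat.dvd_add_right h).1 (h2 ▸ dvd_mul_right _ _)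
        have := (Nat.prime_dvd_prime_iff_eq hpp hc.2.2).1 h3
        omega
  have h2 : (((Ioc 0 N).filter (fun c => c.Prime ∧ (m * c - 1).Prime)).card : ℝ) ≤
      y + 1 + (((range (N + 1)).filter (fun n => ∀ p ∈ sp y, n % p ∉ Ω p)).card : ℝ) := by
    have := (card_le_card hsub).trans (card_union_le _ _)
    rw [Nat.card_Ioc, Nat.sub_zero] at this
    exact_mod_cast this
  have h3 : ∀ p ∈ sp y, 2 * (1 / (p : ℝ)) - (if p ∣ m then 1 / (p : ℝ) else 0) ≤
      ((Ω p).card : ℝ) / p := by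
    intro p hp
    obtain ⟨hpp, -, -⟩ := mem_sp hp
    have hp0 : (0 : ℝ) < p := by exact_mod_cast hpp.pos
    have h4 : (Ω p).card = (res ((p - 1) * m) p).card + 1 :=
      card_insert_of_notMem (zero_not_mem_res hpp)
    split_ifs with h
    · have : (1 : ℝ) / p ≤ ((Ω p).card : ℝ) / p := by
        gcongr; exact_mod_cast (by omega : 1 ≤ (Ω p).card)
      linarith
    · have h5 := card_pos.2 (res_nonempty (s := (p - 1) * m) hpp fun h6 => by
        rcases (Nat.Prime.dvd_mul hpp).1 h6 with h7 | h7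
        · have := Nat.le_of_dvd (by have := hpp.two_le; omega) h7
          have := hpp.pos
          omega
        · exact h h7)
      have h6 : (2 : ℝ) / p ≤ ((Ω p).card : ℝ) / p := by
        gcongr; exact_mod_cast (by omega : 2 ≤ (Ω p).card)
      have : 2 * (1 / (p : ℝ)) = 2 / p := by ring
      linarith
  have h4 := sum_le_sum h3
  rw [sum_sub_distrib, ← mul_sum] at h4
  have h5 := sum_ite_dvd_le (sp y) (fun p hp => (mem_sp hp).1) hm.ne'
  have h8 := le_sum_sp (y := y) (by omega)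
  have h9 : exp (-∑ p ∈ sp y, ((Ω p).card : ℝ) / p) ≤ exp 6 * ew m / log y ^ 2 := by
    have : log y ^ 2 = exp (2 * log (log y)) := by
      rw [show (2 : ℝ) * log (log y) = (2 : ℕ) * log (log y) by norm_num, exp_nat_mul,
        exp_log (by linarith)]
    rw [this, ew, ← exp_add, ← exp_sub]
    exact exp_le_exp.2 (by linarith)
  have hE := ew_pos m
  have h10 : 2 * ((N + 1 : ℕ) : ℝ) * exp (-∑ p ∈ sp y, ((Ω p).card : ℝ) / p) ≤
      25600 * exp 6 * ew m * (N / log N ^ 2) := by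
    have h11 : ((N + 1 : ℕ) : ℝ) ≤ 2 * N := by push_cast; linarith
    have h12 : (log N / 80) ^ 2 ≤ log y ^ 2 := by gcongr; linarith
    calc _ ≤ 2 * (2 * N) * (exp 6 * ew m / log y ^ 2) := by gcongr
      _ ≤ 2 * (2 * N) * (exp 6 * ew m / (log N / 80) ^ 2) := by gcongr
      _ = _ := by field_simp; norm_num
  have h13 : (1 : ℝ) ≤ y := by exact_mod_cast (by omega : 1 ≤ y)
  have h14 : (0 : ℝ) ≤ (y : ℝ) ^ 36 := by positivity
  linarith

/-- The primes `q` with `q * M ≤ Y + 1`. -/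
def low (Y M : ℕ) : Finset ℕ := (Nat.primesLE (Y + 1)).filter (fun q => q * M ≤ Y + 1)

/-- The primes `p ≤ Y` such that `p + 1` has a prime factor that is not low. -/
def bad (Y M : ℕ) : Finset ℕ :=
  (Nat.primesLE Y).filter (fun p => ¬ (p + 1).primeFactors ⊆ low Y M)

theorem card_bad (M : ℕ) : ∃ C : ℝ, ∀ Y : ℕ, 2 ^ 120 ≤ Y →
    ((bad Y M).card : ℝ) ≤ C * ((Y + 1 : ℕ) / log (Y + 1 : ℕ) ^ 2) := by
  refine ⟨∑ m ∈ Ioc 0 M, (25600 * exp 6 * ew m + 600), fun Y hY => ?_⟩
  have h1 : bad Y M ⊆ (Ioc 0 M).biUnion fun m =>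
      ((Ioc 0 (Y + 1)).filter (fun c => c.Prime ∧ (m * c - 1).Prime)).image fun c => m * c - 1 := by
    intro p hp
    unfold bad at hp
    rw [mem_filter, Nat.mem_primesLE, not_subset] at hp
    obtain ⟨⟨hpY, hpp⟩, q, hq, hq'⟩ := hp
    obtain ⟨hqp, ⟨m, hm⟩, -⟩ := Nat.mem_primeFactors.1 hq
    have hm0 : 0 < m := Nat.pos_of_ne_zero (by rintro rfl; omega)
    have hqY : q ≤ Y + 1 := (Nat.le_mul_of_pos_right q hm0).trans (by omega)
    have h2 : Y + 1 < q * M := by
      by_contra h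
      exact hq' (mem_filter.2 ⟨Nat.mem_primesLE.2 ⟨hqY, hqp⟩, not_lt.1 h⟩)
    have h3 : m < M := Nat.lt_of_mul_lt_mul_left (a := q) (by omega)
    have h4 : m * q - 1 = p := by rw [mul_comm]; omega
    exact mem_biUnion.2 ⟨m, mem_Ioc.2 ⟨hm0, h3.le⟩, mem_image.2
      ⟨q, mem_filter.2 ⟨mem_Ioc.2 ⟨hqp.pos, hqY⟩, hqp, h4 ▸ hpp⟩, h4⟩⟩
  have h2 := (card_le_card h1).trans (card_biUnion_le.trans (sum_le_sum fun m _ => card_image_le))
  rw [sum_mul]
  refine le_trans (by exact_mod_cast h2) (sum_le_sum fun m hm =>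
    twin_le (by omega) (mem_Ioc.1 hm).1)

/-- The logarithmic mass of `x` on the primes of `Q`. -/
noncomputable def lam (Q : Finset ℕ) (x : ℕ) : ℝ := ∑ q ∈ Q, x.factorization q * log q

theorem lam_le_add (Q : Finset ℕ) {d a b : ℕ} (ha : a ≠ 0) (hb : b ≠ 0) (h : d ∣ a * b) :
    lam Q d ≤ lam Q a + lam Q b := by
  unfold lam
  rw [← sum_add_distrib]
  refine sum_le_sum fun q _ => ?_
  have h1 := (Nat.factorization_le_iff_dvd (ne_zero_of_dvd_ne_zero (mul_ne_zero ha hb) h)
    (mul_ne_zero ha hb)).2 h q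
  rw [Nat.factorization_mul ha hb, Finsupp.add_apply] at h1
  rw [← add_mul]
  exact mul_le_mul_of_nonneg_right (by exact_mod_cast h1) (log_natCast_nonneg q)

theorem lam_primeFactors (x : ℕ) : lam x.primeFactors x = log x := by
  rw [log_nat_eq_sum_factorization]; rfl

theorem lam_mono {Q R : Finset ℕ} (h : Q ⊆ R) (x : ℕ) : lam Q x ≤ lam R x :=
  sum_le_sum_of_subset_of_nonneg h fun q _ _ =>
    mul_nonneg (Nat.cast_nonneg _) (log_natCast_nonneg q)

theorem lam_le_log (Q : Finset ℕ) (x : ℕ) : lam Q x ≤ log x := by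
  rw [← lam_primeFactors]
  refine le_trans (le_of_eq ?_) (lam_mono (inter_subset_right (s₁ := Q)) x)
  refine (sum_subset inter_subset_left fun q hq hq' => ?_).symm
  have : q ∉ x.factorization.support := fun h => hq' (mem_inter.2 ⟨hq, h⟩)
  simp [Finsupp.notMem_support_iff.1 this]

theorem mass {n u : ℕ} (hn : n ≠ 0) (hu : u ≠ 0) (h : ∑ d ∈ n.divisors, d ∣ u * n) (Y M : ℕ) :
    2 * ∑ p ∈ n.primeFactors.filter (fun p => p ≤ Y ∧ p ∉ low Y M), log p ≤
      log n + log u + (bad Y M).card * log (Y + 1 : ℕ) := by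
  set T := n.primeFactors.filter (fun p => p ≤ Y ∧ p ∉ low Y M)
  let T1 := T.filter (fun p => n.factorization p = 1)
  let T2 := T1.filter (fun p => (p + 1).primeFactors ⊆ low Y M)
  have hT : ∀ p ∈ T, p.Prime := fun p hp => Nat.prime_of_mem_primeFactors (mem_filter.1 hp).1
  have h1 : ∏ p ∈ T2, (p + 1) ∣ u * n := by
    refine dvd_trans ?_ h
    rw [Nat.sum_divisors hn]
    refine dvd_trans (dvd_of_eq (prod_congr rfl fun p hp => ?_)) (prod_dvd_prod_of_subset T2 _ _
      ((filter_subset _ _).trans ((filter_subset _ _).trans (filter_subset _ _))))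
    rw [(mem_filter.1 (mem_filter.1 hp).1).2]
    simp [sum_range_succ, add_comm]
  have h2 : log (∏ p ∈ T2, (p + 1) : ℕ) ≤ lam (low Y M) (∏ p ∈ T2, (p + 1)) := by
    rw [← lam_primeFactors]
    refine lam_mono (fun q hq => ?_) _
    obtain ⟨hq1, hq2, -⟩ := Nat.mem_primeFactors.1 hq
    obtain ⟨p, hp, hqp⟩ := (Prime.dvd_finsetProd_iff hq1.prime _).1 hq2
    exact (mem_filter.1 hp).2 (Nat.mem_primeFactors.2 ⟨hq1, hqp, by omega⟩)
  have h3 : ∑ p ∈ T2, log p ≤ log (∏ p ∈ T2, (p + 1) : ℕ) := by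
    push_cast
    rw [log_prod fun p _ => by positivity]
    refine sum_le_sum fun p hp => log_le_log ?_ (by linarith)
    exact_mod_cast (hT p (mem_filter.1 (mem_filter.1 hp).1).1).pos
  have h4 := lam_le_add (low Y M) hu hn h1
  have h5 := lam_le_log (low Y M) u
  have h6 : lam (low Y M) n + lam T n ≤ log n := by
    refine le_trans (le_of_eq ?_) (lam_le_log (low Y M ∪ T) n)
    exact (sum_union (disjoint_right.2 fun p hp => (mem_filter.1 hp).2.2)).symm
  have h7 : 2 * ∑ p ∈ T, log p ≤ lam T n + ∑ p ∈ T1, log p := by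
    unfold lam
    rw [sum_filter (s := T), mul_sum, ← sum_add_distrib]
    refine sum_le_sum fun p hp => ?_
    have h8 := log_natCast_nonneg p
    have h9 : n.factorization p ≠ 0 := Finsupp.mem_support_iff.1 (mem_filter.1 hp).1
    split_ifs with h10
    · rw [h10]; push_cast; linarith
    · have : (2 : ℝ) ≤ n.factorization p := by exact_mod_cast (by omega : 2 ≤ n.factorization p)
      nlinarith
  have h8 : ∑ p ∈ T1, log p ≤ ∑ p ∈ T2, log p + (bad Y M).card * log (Y + 1 : ℕ) := by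
    rw [← sum_filter_add_sum_filter_not T1 (fun p => (p + 1).primeFactors ⊆ low Y M)]
    gcongr
    rw [← nsmul_eq_mul]
    refine le_trans (sum_le_sum_of_subset_of_nonneg (fun p hp => ?_) fun p _ _ =>
      log_natCast_nonneg p) (sum_le_card_nsmul _ _ _ fun p hp => ?_)
    · have hp' := (mem_filter.1 (mem_filter.1 hp).1).1
      exact mem_filter.2 ⟨Nat.mem_primesLE.2 ⟨(mem_filter.1 hp').2.1, hT p hp'⟩,
        (mem_filter.1 hp).2⟩
    · have := Nat.mem_primesLE.1 (mem_filter.1 hp).1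
      exact log_le_log (by exact_mod_cast this.2.pos) (by exact_mod_cast (by omega))
  linarith

theorem abund_le {n : ℕ} (hn : n ≠ 0) : ((∑ d ∈ n.divisors, d : ℕ) : ℝ) / n ≤
    exp (∑ p ∈ n.primeFactors, -log (1 - 1 / (p : ℝ))) := by
  have hn0 : (0 : ℝ) < n := by exact_mod_cast Nat.pos_of_ne_zero hn
  have hpr : (n : ℝ) = ∏ p ∈ n.primeFactors, (p : ℝ) ^ n.factorization p := by
    exact_mod_cast (Nat.prod_factorization_pow_eq_self hn).symm
  rw [div_le_iff₀ hn0, Nat.sum_divisors hn, exp_sum, hpr, ← prod_mul_distrib]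
  push_cast
  refine prod_le_prod (fun p _ => by positivity) fun p hp => ?_
  have hp1 : (1 : ℝ) < p := by exact_mod_cast (Nat.prime_of_mem_primeFactors hp).one_lt
  have h1 : 0 < 1 - 1 / (p : ℝ) := by rw [sub_pos, div_lt_one (by linarith)]; exact hp1
  rw [exp_neg, exp_log h1, geom_sum_eq hp1.ne', div_le_iff₀ (by linarith)]
  have : (1 - 1 / (p : ℝ))⁻¹ * p ^ n.factorization p * (p - 1) = p ^ (n.factorization p + 1) := by
    have : (p : ℝ) - 1 ≠ 0 := by linarith
    field_simp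
    ring
  linarith

end Pool.Agent.P.MP_78d079_nt
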