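import Pool.Agent.P.MP_78d079_nt.Mert
import Pool.Agent.P.MP_78d079_nt.Count

/-!
The abundancy of `n` against the size of `n` divided by the root of `gcd (n, σ n)`.
-/

namespace Pool.Agent.P.MP_78d079_nt

open Finset Real Filter Topology Chebyshev

theorem neg_log_le {p : ℝ} (hp : 2 ≤ p) : -log (1 - 1 / p) ≤ 2 / p := by
  have h1 : 0 < 1 - 1 / p := by rw [sub_pos, div_lt_one (by linarith)]; linarith
  rw [← log_inv]
  refine (log_le_sub_one_of_pos (inv_pos.2 h1)).trans ?_
  have : (1 - 1 / p)⁻¹ - 1 = 1 / (p - 1) := by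
    have : p - 1 ≠ 0 := by linarith
    field_simp
    ring
  rw [this, div_le_div_iff₀ (by linarith) (by linarith)]
  linarith

theorem theta_primeFactors (n : ℕ) (S : Finset ℕ) (h : S ⊆ n.primeFactors) :
    ∑ p ∈ S, log p ≤ log n := by
  refine le_trans (sum_le_sum fun p hp => ?_) (lam_le_log S n)
  have h9 : n.factorization p ≠ 0 := Finsupp.mem_support_iff.1 (h hp)
  have : (1 : ℝ) ≤ n.factorization p := by exact_mod_cast Nat.pos_of_ne_zero h9
  exact le_mul_of_one_le_left (log_natCast_nonneg p) this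

theorem theta_low (Y : ℕ) {M : ℕ} (hM : 0 < M) :
    ∑ p ∈ low Y M, log p ≤ log 4 * ((Y + 1 : ℕ) / M) := by
  refine le_trans ?_ (theta_le_log4_mul_x (by positivity))
  rw [theta_eq_sum_primesLE, Nat.floor_div_eq_div]
  refine sum_le_sum_of_subset_of_nonneg (fun p hp => ?_) fun p _ _ => log_natCast_nonneg p
  have := mem_filter.1 hp
  exact Nat.mem_primesLE.2 ⟨(Nat.le_div_iff_mul_le hM).2 this.2, (Nat.mem_primesLE.1 this.1).2⟩

theorem core {δ : ℝ} (hδ : 0 < δ) (hδ1 : δ ≤ 1 / 8) : ∀ᶠ L : ℝ in atTop, ∀ n : ℕ, n ≠ 0 →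
    log n = L → ((∑ d ∈ n.divisors, d : ℕ) : ℝ) / n ≤ exp eulerMascheroniConstant *
      (log (L - log (Nat.gcd n (∑ d ∈ n.divisors, d)) / 2) + 8 * δ) := by
  obtain ⟨K, hK⟩ := exists_nat_ge (2 / δ)
  have hK' : 2 ≤ K * δ := (div_le_iff₀ hδ).1 hK
  have hK2 : (16 : ℝ) ≤ K := by nlinarith
  obtain ⟨M, hM⟩ := exists_nat_ge (log 4 * (K + 1) / δ + 1)
  have h40 : 0 ≤ log 4 := log_nonneg (by norm_num)
  have hM1 : (1 : ℝ) ≤ M := le_trans (le_add_of_nonneg_left (by positivity)) hM
  have hM0 : 0 < M := by exact_mod_cast (by linarith : (0 : ℝ) < M)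
  have hM' : log 4 * (K + 1) ≤ M * δ := (div_le_iff₀ hδ).1 (by linarith)
  obtain ⟨C, hC⟩ := card_bad M
  obtain ⟨x0, hx0⟩ := eventually_atTop.1 (mertens_three hδ)
  have t1 : Tendsto (fun L : ℝ => (eulerMascheroniConstant + 1) / L + log L / L) atTop
      (𝓝 (0 + 0)) :=
    (tendsto_const_nhds.div_atTop tendsto_id).add isLittleO_log_id_atTop.tendsto_div_nhds_zero
  filter_upwards [mertens_three one_pos, t1.eventually (gt_mem_nhds (by simpa using hδ)),
    eventually_ge_atTop (2 * x0), eventually_ge_atTop (2 * exp 1), eventually_ge_atTop (2 ^ 120),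
    tendsto_log_atTop.eventually_ge_atTop (|C| * (K + 1) / δ)] with L a1 a2 a3 a4 a5 a6 n hn hL
  have he : 2 ≤ exp 1 := by linarith [add_one_le_exp (1 : ℝ)]
  have hL0 : 0 < L := by linarith
  have hlL : 1 ≤ log L := (le_log_iff_exp_le hL0).2 (by linarith)
  set s := ∑ d ∈ n.divisors, d with hs
  set g := Nat.gcd n s
  have hn0 : (0 : ℝ) < n := by exact_mod_cast Nat.pos_of_ne_zero hn
  have hs0 : 0 < s := sum_pos' (fun _ _ => Nat.zero_le _)
    ⟨n, Nat.mem_divisors_self n hn, Nat.pos_of_ne_zero hn⟩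
  have hg0 : 0 < g := Nat.gcd_pos_of_pos_right _ hs0
  have hgL : log g ≤ L := hL ▸ log_le_log (by exact_mod_cast hg0)
    (by exact_mod_cast Nat.gcd_le_left _ (Nat.pos_of_ne_zero hn))
  have hg1 := log_natCast_nonneg g
  obtain ⟨u, hu⟩ : g ∣ s := Nat.gcd_dvd_right _ _
  have hu0 : u ≠ 0 := by rintro rfl; omega
  have hP : ∀ p ∈ n.primeFactors, p.Prime := fun p hp => Nat.prime_of_mem_primeFactors hp
  have b1 : log u ≤ δ * L + L - log g := by
    have h1 := (log_le_iff_le_exp (by positivity)).2 (abund_le hn)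
    have h2 := a1 _ hP (hL ▸ theta_primeFactors n _ Subset.rfl)
    have h3 : log (log L) ≤ log L := (log_le_sub_one_of_pos (by linarith)).trans (by linarith)
    have h4 : 1 / log L ≤ 1 := by rw [div_le_one (by linarith)]; exact hlL
    rw [← add_div, div_lt_iff₀ hL0] at a2
    rw [← hs, log_div (by positivity) hn0.ne', hu, Nat.cast_mul,
      log_mul (by positivity) (by positivity), hL] at h1
    linarith
  set Y := ⌈K * L⌉₊
  have hY1 : K * L ≤ Y := Nat.le_ceil _
  have hY2 : ((Y + 1 : ℕ) : ℝ) ≤ (K + 1) * L := by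
    have := Nat.ceil_lt_add_one (show 0 ≤ K * L by positivity)
    push_cast
    linarith
  have hY3 : L ≤ Y := by nlinarith
  have b2 : (bad Y M).card * log (Y + 1 : ℕ) ≤ δ * L := by
    have h1 := hC Y (by exact_mod_cast a5.trans hY3)
    have h2 : log L ≤ log (Y + 1 : ℕ) := log_le_log hL0 (by push_cast; linarith)
    have h3 : 0 < log (Y + 1 : ℕ) := by linarith
    rw [div_le_iff₀ hδ] at a6
    calc _ ≤ |C| * ((Y + 1 : ℕ) / log (Y + 1 : ℕ) ^ 2) * log (Y + 1 : ℕ) := by
          gcongr
          exact h1.trans (mul_le_mul_of_nonneg_right (le_abs_self C) (by positivity))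
      _ = |C| * (Y + 1 : ℕ) / log (Y + 1 : ℕ) := by field_simp
      _ ≤ |C| * ((K + 1) * L) / log L := by gcongr
      _ ≤ _ := by rw [div_le_iff₀ (by linarith)]; nlinarith
  have b3 := mass hn hu0 (by
    rw [← hs, hu, mul_comm u]; exact Nat.mul_dvd_mul_right (Nat.gcd_dvd_left _ _) u) Y M
  have b4 : ∑ p ∈ low Y M, log p ≤ δ * L := by
    refine (theta_low Y hM0).trans ?_
    rw [← mul_div_assoc, div_le_iff₀ (by linarith)]
    nlinarith [mul_le_mul_of_nonneg_left hY2 h40]
  set Lg := L - log g / 2 with hLg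
  have hLg1 : L / 2 ≤ Lg := by linarith
  set x := (1 + 4 * δ) * Lg with hx
  have hx1 : Lg ≤ x := by nlinarith
  have hx2 : x ≤ Y := by nlinarith
  have hlx : 1 ≤ log x := (le_log_iff_exp_le (by linarith)).2 (by linarith)
  have b5 : ∑ p ∈ n.primeFactors.filter (fun p => p ≤ Y), log p ≤ x := by
    rw [← sum_filter_add_sum_filter_not _ (fun p => p ∈ low Y M), filter_filter, filter_filter]
    have : ∑ p ∈ n.primeFactors.filter (fun p => p ≤ Y ∧ p ∈ low Y M), log p ≤
        ∑ p ∈ low Y M, log p :=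
      sum_le_sum_of_subset_of_nonneg (fun p hp => (mem_filter.1 hp).2.2)
        fun p _ _ => log_natCast_nonneg p
    nlinarith
  have b6 := hx0 x (by linarith) _ (fun p hp => hP p (mem_filter.1 hp).1) b5
  have b7 : ∑ p ∈ n.primeFactors.filter (fun p => ¬ p ≤ Y), -log (1 - 1 / (p : ℝ)) ≤
      δ / log x := by
    have hY0 : (0 : ℝ) < Y := by linarith
    calc _ ≤ ∑ p ∈ n.primeFactors.filter (fun p => ¬ p ≤ Y), 2 / (Y * log x) * log p := by
          refine sum_le_sum fun p hp => ?_
          have h1 := mem_filter.1 hp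
          have h2 : (Y : ℝ) ≤ p := by exact_mod_cast (not_le.1 h1.2).le
          refine (neg_log_le (by exact_mod_cast (hP p h1.1).two_le)).trans ?_
          have h3 : log x ≤ log p := log_le_log (by linarith) (by linarith)
          rw [div_mul_eq_mul_div, div_le_div_iff₀ (by linarith) (by positivity)]
          nlinarith [mul_le_mul h2 h3 (by linarith) (by linarith)]
      _ ≤ 2 / (Y * log x) * L := by
          rw [← mul_sum, ← hL]
          exact mul_le_mul_of_nonneg_left (theta_primeFactors n _ (filter_subset _ _))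
            (by positivity)
      _ ≤ _ := by
          rw [div_mul_eq_mul_div, div_le_div_iff₀ (by positivity) (by linarith)]
          have : 2 * L ≤ δ * Y := by nlinarith
          nlinarith
  have b8 := abund_le hn
  rw [← sum_filter_add_sum_filter_not n.primeFactors (fun p => p ≤ Y)] at b8
  have b9 : exp (2 * δ / log x) ≤ 1 + 2 * (2 * δ / log x) := by
    have h1 : 0 ≤ 2 * δ / log x := by positivity
    have h2 := abs_exp_sub_one_le (x := 2 * δ / log x) (by
      rw [abs_of_nonneg h1, div_le_one (by linarith)]; linarith)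
    rw [abs_of_nonneg h1] at h2
    linarith [le_abs_self (exp (2 * δ / log x) - 1)]
  have b10 : log x ≤ log Lg + 4 * δ := by
    rw [hx, log_mul (by positivity) (by linarith)]
    linarith [log_le_sub_one_of_pos (show 0 < 1 + 4 * δ by positivity)]
  calc _ ≤ exp (eulerMascheroniConstant + (log (log x) + 2 * δ / log x)) := by
        refine b8.trans (exp_le_exp.2 ?_)
        have : 2 * δ / log x = δ / log x + δ / log x := by ring
        linarith
    _ = exp eulerMascheroniConstant * (log x * exp (2 * δ / log x)) := by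
        rw [exp_add, exp_add, exp_log (by linarith)]
    _ ≤ exp eulerMascheroniConstant * (log x * (1 + 2 * (2 * δ / log x))) := by gcongr
    _ = exp eulerMascheroniConstant * (log x + 4 * δ) := by field_simp; ring
    _ ≤ _ := mul_le_mul_of_nonneg_left (by linarith) (exp_pos _).le

theorem main {ε : ℝ} (hε : 0 < ε) : ∃ N : ℕ, ∀ n : ℕ, N ≤ n →
    ((∑ d ∈ n.divisors, d : ℕ) : ℝ) / n ≤ exp eulerMascheroniConstant *
      (log (log (n / √(Nat.gcd n (∑ d ∈ n.divisors, d) : ℕ))) + ε) := by
  refine eventually_atTop.1 ?_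
  filter_upwards [(tendsto_log_atTop.comp tendsto_natCast_atTop_atTop).eventually
    (core (δ := min ε 1 / 8) (by positivity) (by linarith [min_le_right ε 1])),
    eventually_ge_atTop 1] with n h hn
  have hg : 0 < Nat.gcd n (∑ d ∈ n.divisors, d) := Nat.gcd_pos_of_pos_left _ hn
  refine (h n (by omega) rfl).trans ?_
  rw [log_div (by positivity) (by positivity), log_sqrt (by positivity)]
  exact mul_le_mul_of_nonneg_left (add_le_add le_rfl (by linarith [min_le_left ε 1]))
    (exp_pos _).le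

end Pool.Agent.P.MP_78d079_nt
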