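import Pool.Agent.P.MP_78d079_nt.PNT
import Pool.Agent.Lib.Sieve.CharLower

/-!
The third theorem of Mertens, upper bound with an error that is small against `1 / log x`.
-/

namespace Pool.Agent.P.MP_78d079_nt

open Filter Topology Chebyshev Finset Real
open ArithmeticFunction (vonMangoldt vonMangoldt_nonneg vonMangoldt_apply_pow
  vonMangoldt_apply_prime)
open Pool.Agent.Lib.Sieve

/-- The weight of a prime power. -/
noncomputable def aa (n : ℕ) : ℝ := vonMangoldt n / n / log n

theorem aa_nonneg (n : ℕ) : 0 ≤ aa n :=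
  div_nonneg (div_nonneg vonMangoldt_nonneg n.cast_nonneg) (log_natCast_nonneg n)

/-- The partial sums of the weights. -/
noncomputable def AA (N : ℕ) : ℝ := ∑ k ∈ range (N + 1), aa k

theorem step_T {η : ℝ} (hη : 0 < η) : ∀ᶠ x : ℕ in atTop, ∀ y, x ≤ y →
    AA x - log (log (x + 1)) - η / log (x + 1) ≤ AA y - log (log (y + 1)) := by
  obtain ⟨c, hc⟩ := mertens_one
  let S : ℕ → ℝ := fun N => ∑ k ∈ range (N + 1), vonMangoldt k / k - log (N + 1)
  have hS : Tendsto S atTop (𝓝 c) := by
    have := hc.sub tendsto_log_nat_add_one_sub_log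
    rw [sub_zero] at this
    exact this.congr fun N => by simp only [S]; ring
  obtain ⟨N, hN⟩ := eventually_atTop.1 (hS.eventually (Metric.ball_mem_nhds c (half_pos hη)))
  filter_upwards [eventually_ge_atTop N, eventually_ge_atTop 1] with x hx hx1 y hy
  have hU : ∀ y, x ≤ y → 0 ≤ S y - S x + η := fun y hy => by
    have h1 := abs_lt.1 (hN x hx)
    have h2 := abs_lt.1 (hN y (hx.trans hy))
    linarith [h1.2, h2.1]
  have hl : ∀ y : ℕ, x ≤ y → 0 < log ((y : ℝ) + 1) := fun y hy => log_pos (by
    have : (1 : ℝ) ≤ y := by exact_mod_cast hx1.trans hy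
    linarith)
  have key : AA x - log (log (x + 1)) - η / log (x + 1) ≤
      AA y - log (log (y + 1)) - (S y - S x + η) / log (y + 1) := by
    induction y, hy using Nat.le_induction with
    | base => simp
    | succ y hy ih =>
      refine ih.trans ?_
      have h1 := hl y hy
      have h2 := hl (y + 1) (by omega)
      have h3 := hU (y + 1) (by omega)
      have h4 : AA (y + 1) = AA y + vonMangoldt (y + 1) / (y + 1) / log (y + 1) := by
        simp [AA, sum_range_succ _ (y + 1), aa]
      have h5 : S (y + 1) = S y + vonMangoldt (y + 1) / (y + 1) -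
          (log ((y + 1 : ℕ) + 1) - log (y + 1)) := by
        simp only [S, sum_range_succ _ (y + 1)]; push_cast; ring
      have h6 : log ((y : ℝ) + 1) ≤ log ((y + 1 : ℕ) + 1) :=
        log_le_log (by positivity) (by push_cast; linarith)
      rw [h4]
      set l := log ((y : ℝ) + 1)
      set l' := log (((y + 1 : ℕ) : ℝ) + 1)
      have h7 : log l' - log l ≤ (l' - l) / l := by
        rw [← log_div h2.ne' h1.ne', sub_div, div_self h1.ne']
        exact log_le_sub_one_of_pos (by positivity)
      have h8 : (S (y + 1) - S x + η) / l' ≤ (S (y + 1) - S x + η) / l := by gcongr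
      have h9 : (S (y + 1) - S x + η) / l = (S y - S x + η) / l +
          vonMangoldt (y + 1) / (y + 1) / l - (l' - l) / l := by rw [h5]; ring
      linarith
  have := div_nonneg (hU y hy) (hl y hy).le
  linarith

theorem aa_mul (κ : ℝ) (n : ℕ) : cl (1 + κ) n = aa n * (n : ℝ) ^ (-κ) := by
  unfold cl aa
  rcases Nat.eq_zero_or_pos n with rfl | hn
  · simp
  · have : (0 : ℝ) < n := by exact_mod_cast hn
    rw [neg_add, rpow_add this, rpow_neg_one]
    ring

theorem step_L {η : ℝ} (hη : 0 < η) :
    ∃ᶠ y : ℕ in atTop, AA y - log (log (y + 1)) ≤ eulerMascheroniConstant + η := by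
  by_contra hcon
  rw [not_frequently] at hcon
  let E : ℕ → ℕ := fun j => ⌊exp j⌋₊
  have hE : Tendsto E atTop atTop :=
    tendsto_nat_floor_atTop.comp (tendsto_exp_atTop.comp tendsto_natCast_atTop_atTop)
  have hEm : ∀ j, E j ≤ E (j + 1) := fun j =>
    Nat.floor_le_floor (exp_le_exp.2 (by push_cast; linarith))
  let C : ℕ → ℝ := fun j => AA (E j) - harmonic j
  obtain ⟨J, hJ⟩ : ∃ J : ℕ, ∀ j, J ≤ j → η / 2 ≤ C j := by
    refine eventually_atTop.1 ?_
    filter_upwards [hE.eventually hcon, tendsto_harmonic_sub_log.eventually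
      (gt_mem_nhds (lt_add_of_pos_right _ (half_pos hη))), eventually_ge_atTop 1] with j h1 h2 h3
    have h4 : (j : ℝ) ≤ log (E j + 1) := by
      rw [le_log_iff_exp_le (by positivity)]
      exact (Nat.lt_floor_add_one _).le
    have h5 : log j ≤ log (log (E j + 1)) := log_le_log (by exact_mod_cast h3) h4
    simp only [C]
    linarith [not_le.1 h1]
  have hH : ∀ j, (harmonic (j + 1) : ℝ) = harmonic j + 1 / (j + 1) := fun j => by
    rw [harmonic_succ]; push_cast; ring
  have hlow : ∀ j, j ≤ J → -(J : ℝ) ≤ C j := fun j hj => by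
    have h1 : 0 ≤ AA (E j) := sum_nonneg fun _ _ => aa_nonneg _
    have h2 : ∀ i : ℕ, (harmonic i : ℝ) ≤ i := fun i => by
      induction i with
      | zero => simp
      | succ i ih =>
        rw [hH]
        have : 1 / ((i : ℝ) + 1) ≤ 1 := by
          rw [div_le_one (by positivity)]; linarith [i.cast_nonneg (α := ℝ)]
        push_cast; linarith
    have h3 : (j : ℝ) ≤ J := by exact_mod_cast hj
    simp only [C]
    linarith [h2 j]
  have main : ∀ κ : ℝ, 0 < κ →
      η / 2 * exp (-κ) ^ J - J * (1 - exp (-κ) ^ J) ≤ log (1 + κ) := fun κ hκ => by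
    set q := exp (-κ) with hq
    have hq0 : 0 < q := exp_pos _
    have hq1 : q < 1 := exp_lt_one_iff.2 (by linarith)
    let G : ℕ → ℝ := fun j => ∑ n ∈ range (E j + 1), cl (1 + κ) n -
      ∑ i ∈ range j, q ^ (i + 1) / (i + 1) - C j * q ^ j
    have hG : ∀ j, G j + C j * (q ^ j - q ^ (j + 1)) ≤ G (j + 1) := fun j => by
      have h1 : (AA (E (j + 1)) - AA (E j)) * q ^ (j + 1) ≤
          ∑ n ∈ range (E (j + 1) + 1), cl (1 + κ) n - ∑ n ∈ range (E j + 1), cl (1 + κ) n := by
        unfold AA
        rw [← sum_Ico_eq_sub _ (Nat.succ_le_succ (hEm j)),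
          ← sum_Ico_eq_sub _ (Nat.succ_le_succ (hEm j)), sum_mul]
        refine sum_le_sum fun n hn => ?_
        rw [mem_Ico] at hn
        have hn0 : (0 : ℝ) < n := by exact_mod_cast (by omega : 0 < n)
        rw [aa_mul]
        refine mul_le_mul_of_nonneg_left ?_ (aa_nonneg n)
        have h2 : (n : ℝ) ≤ exp (j + 1 : ℕ) :=
          (Nat.le_floor_iff (exp_pos _).le).1 (Nat.lt_succ_iff.1 hn.2)
        rw [hq, ← exp_nat_mul, rpow_def_of_pos hn0, exp_le_exp]
        have h3 := (log_le_iff_le_exp hn0).2 h2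
        nlinarith
      simp only [G, C, sum_range_succ _ j, hH]
      have : q ^ (j + 1) / (j + 1) = 1 / (j + 1) * q ^ (j + 1) := by ring
      rw [this]
      nlinarith
    have hd : ∀ j, 0 ≤ q ^ j - q ^ (j + 1) := fun j => by
      have := pow_pos hq0 j
      rw [pow_succ]; nlinarith
    have hG1 : ∀ j, j ≤ J → -(J * (1 - q ^ j)) ≤ G j := fun j hj => by
      induction j with
      | zero => simp [G, C, E, AA, aa, cl, sum_range_succ]
      | succ j ih =>
        have := mul_le_mul_of_nonneg_right (hlow j (by omega)) (hd j)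
        linarith [ih (by omega), hG j]
    have hG2 : ∀ j, J ≤ j → G J + η / 2 * (q ^ J - q ^ j) ≤ G j := fun j hj => by
      induction j, hj using Nat.le_induction with
      | base => simp
      | succ j hj ih =>
        have := mul_le_mul_of_nonneg_right (hJ j hj) (hd j)
        linarith [hG j]
    have hs := summable_cl (σ := 1 + κ) (by linarith)
    have hz : ∑' n, cl (1 + κ) n ≤ log (1 + 1 / κ) :=
      (le_log_iff_exp_le (by positivity)).2 (exp_tsum_cl_le hκ)
    have h3 : -log (1 - q) ≤ log (1 + 1 / κ) - (η / 2 * q ^ J - J * (1 - q ^ J)) := by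
      refine le_of_tendsto (hasSum_pow_div_log_of_abs_lt_one
        (by rwa [abs_of_pos hq0])).tendsto_sum_nat ?_
      filter_upwards [eventually_ge_atTop J] with j hj
      have h4 := hs.sum_le_tsum (range (E j + 1)) fun n _ => cl_nonneg _ n
      have h5 := mul_le_mul_of_nonneg_right (hJ j hj) (pow_pos hq0 j).le
      have h6 := hG2 j hj
      have h7 := hG1 J le_rfl
      simp only [G] at h6 h7 ⊢
      linarith
    have h4 : log (1 - q) ≤ log κ := log_le_log (by linarith) (by linarith [add_one_le_exp (-κ)])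
    have h5 : log (1 + 1 / κ) = log (1 + κ) - log κ := by
      rw [← log_div (by positivity) hκ.ne']; congr 1; field_simp; ring
    linarith
  have t1 : Tendsto (fun κ : ℝ => η / 2 * exp (-κ) ^ J - J * (1 - exp (-κ) ^ J) - log (1 + κ))
      (𝓝[>] 0) (𝓝 (η / 2 * exp (-0) ^ J - J * (1 - exp (-0) ^ J) - log (1 + 0))) := by
    refine Tendsto.mono_left (ContinuousAt.tendsto ?_) nhdsWithin_le_nhds
    exact ContinuousAt.sub (by fun_prop) (ContinuousAt.log (by fun_prop) (by simp))
  have t2 := le_of_tendsto t1 (b := 0) (by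
    filter_upwards [self_mem_nhdsWithin] with κ hκ using sub_nonpos.2 (main κ hκ))
  simp at t2
  linarith

theorem AA_le {η : ℝ} (hη : 0 < η) : ∀ᶠ x : ℕ in atTop,
    AA x ≤ eulerMascheroniConstant + log (log (x + 1)) + η / log (x + 1) := by
  filter_upwards [step_T hη] with x hx
  refine le_of_forall_pos_le_add fun ε hε => ?_
  obtain ⟨y, h1, h2⟩ := ((step_L hε).and_eventually (eventually_ge_atTop x)).exists
  linarith [hx y h2]

/-- The weight restricted to proper powers. -/
noncomputable def ab (n : ℕ) : ℝ := (if n.Prime then 0 else vonMangoldt n) / n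

theorem ab_nonneg (n : ℕ) : 0 ≤ ab n := by
  unfold ab
  have := vonMangoldt_nonneg (n := n)
  positivity

theorem summable_ab : Summable ab := by
  have h := ArithmeticFunction.vonMangoldt.summable_residueClass_non_primes_div (q := 1) 0
  have h1 : ∀ n, ArithmeticFunction.vonMangoldt.residueClass (q := 1) 0 n = vonMangoldt n :=
    fun n => Set.indicator_of_mem (s := {n : ℕ | (n : ZMod 1) = 0})
      (Subsingleton.elim (α := ZMod 1) _ _) _
  simp only [h1] at h
  exact h

theorem sum_ab_le {η : ℝ} (hη : 0 < η) : ∀ᶠ N : ℕ in atTop, ∀ s : Finset ℕ,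
    ∑ n ∈ s, ab n / log n ≤ ∑ n ∈ range (N + 1), ab n / log n + η / log (N + 1) := by
  obtain ⟨t, ht⟩ := summable_iff_vanishing_norm.1 summable_ab η hη
  filter_upwards [eventually_ge_atTop (t.sup id), eventually_ge_atTop 1] with N hN hN1 s
  have hl : 0 < log ((N : ℝ) + 1) := log_pos (by
    have : (1 : ℝ) ≤ N := by exact_mod_cast hN1
    linarith)
  rw [← sum_inter_add_sum_sdiff s (range (N + 1))]
  refine add_le_add (sum_le_sum_of_subset_of_nonneg inter_subset_right fun n _ _ =>
    div_nonneg (ab_nonneg n) (log_natCast_nonneg n)) ?_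
  have h1 := ht (s \ range (N + 1)) (disjoint_left.2 fun n hn hn' => by
    have : n ≤ t.sup id := le_sup (f := id) hn'
    simp at hn; omega)
  calc _ ≤ ∑ n ∈ s \ range (N + 1), ab n / log (N + 1) := by
        refine sum_le_sum fun n hn => ?_
        have : N + 1 ≤ n := by simp at hn; omega
        have h2 : (N : ℝ) + 1 ≤ n := by exact_mod_cast this
        have := ab_nonneg n
        gcongr
    _ ≤ _ := by
        rw [← sum_div]
        gcongr
        exact (le_abs_self _).trans h1.le

theorem sum_G_le (S : Finset ℕ) (hS : ∀ p ∈ S, p.Prime) {B : ℝ}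
    (hB : ∀ s : Finset ℕ, ∑ n ∈ s, ab n / log n ≤ B) :
    ∑ p ∈ S, -log (1 - 1 / (p : ℝ)) ≤ ∑ p ∈ S, 1 / (p : ℝ) + B := by
  have h1 : ∀ p ∈ S, HasSum (fun j : ℕ => ab (p ^ (j + 2)) / log (p ^ (j + 2) : ℕ))
      (-log (1 - 1 / (p : ℝ)) - 1 / p) := fun p hp => by
    have hp1 : (1 : ℝ) < p := by exact_mod_cast (hS p hp).one_lt
    have h2 := (hasSum_nat_add_iff' 1).2 (hasSum_pow_div_log_of_abs_lt_one (x := 1 / (p : ℝ))
      (by rw [abs_of_pos (by positivity), div_lt_one (by linarith)]; exact hp1))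
    simp only [range_one, sum_singleton, zero_add, pow_one, Nat.cast_zero, div_one] at h2
    refine h2.congr_fun ?_
    intro j
    have h3 := log_pos hp1
    unfold ab
    rw [if_neg (Nat.Prime.not_prime_pow (by omega)), vonMangoldt_apply_pow (by omega),
      vonMangoldt_apply_prime (hS p hp)]
    push_cast
    rw [log_pow, one_div, inv_pow]
    push_cast
    field_simp
    ring
  have h2 := tendsto_finsetSum S fun p hp => (h1 p hp).tendsto_sum_nat
  have h3 := le_of_tendsto' h2 (b := B) fun J => by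
    rw [← sum_product' (f := fun p j => ab (p ^ (j + 2)) / log (p ^ (j + 2) : ℕ)),
      ← sum_image (g := fun x : ℕ × ℕ => x.1 ^ (x.2 + 2)) (f := fun n => ab n / log n)]
    · exact hB _
    · intro x hx y hy hxy
      have := Nat.Prime.pow_inj (hS _ (mem_product.1 hx).1) (hS _ (mem_product.1 hy).1)
        (m := x.2 + 1) (n := y.2 + 1) hxy
      exact Prod.ext this.1 (by omega)
  rw [sum_sub_distrib] at h3
  linarith

theorem AA_eq (N : ℕ) :
    AA N = ∑ p ∈ Nat.primesLE N, 1 / (p : ℝ) + ∑ n ∈ range (N + 1), ab n / log n := by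
  rw [Nat.primesLE_eq_filter_range, sum_filter, ← sum_add_distrib]
  refine sum_congr rfl fun n _ => ?_
  unfold aa ab
  split_ifs with h
  · have h3 : 0 < log n := log_pos (by exact_mod_cast h.one_lt)
    rw [vonMangoldt_apply_prime h]
    field_simp
    simp
  · simp

theorem mertens_three {η : ℝ} (hη : 0 < η) : ∀ᶠ x : ℝ in atTop, ∀ S : Finset ℕ,
    (∀ p ∈ S, p.Prime) → ∑ p ∈ S, log p ≤ x →
      ∑ p ∈ S, -log (1 - 1 / (p : ℝ)) ≤ eulerMascheroniConstant + log (log x) + η / log x := by
  have hη4 : 0 < η / 4 := by positivity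
  filter_upwards [tendsto_nat_floor_atTop.eventually ((AA_le hη4).and (sum_ab_le hη4)),
    theta_lower hη4, eventually_gt_atTop 1, eventually_ge_atTop (4 / η)]
    with x ⟨h1, h2⟩ h3 hx hx' S hS hθ
  have hx0 : 0 < x := by linarith
  have hl := log_pos hx
  have h4 := sum_G_le S hS h2
  rw [AA_eq] at h1
  have h5 : ∑ p ∈ S, (1 / (p : ℝ) - log p / (x * log x)) ≤
      ∑ p ∈ Nat.primesLE ⌊x⌋₊, (1 / (p : ℝ) - log p / (x * log x)) := by
    rw [← sum_inter_add_sum_sdiff S (Nat.primesLE ⌊x⌋₊)]
    refine (add_le_add (sum_le_sum_of_subset_of_nonneg inter_subset_right fun p hp _ => ?_)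
      (sum_nonpos fun p hp => ?_)).trans (add_zero _).le
    · rw [Nat.mem_primesLE] at hp
      have hp0 : (0 : ℝ) < p := by exact_mod_cast hp.2.pos
      have hpx : (p : ℝ) ≤ x := (Nat.le_floor_iff hx0.le).1 hp.1
      have := log_le_log hp0 hpx
      have := log_natCast_nonneg p
      rw [sub_nonneg, div_le_div_iff₀ (by positivity) hp0]
      nlinarith
    · rw [Finset.mem_sdiff, Nat.mem_primesLE] at hp
      have hpx : x < p := by
        by_contra h
        exact hp.2 ⟨Nat.le_floor (not_lt.1 h), hS p hp.1⟩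
      have := log_le_log hx0 hpx.le
      rw [sub_nonpos, div_le_div_iff₀ (by linarith) (by positivity)]
      nlinarith
  rw [sum_sub_distrib, sum_sub_distrib, ← sum_div, ← sum_div, ← theta_eq_sum_primesLE] at h5
  have h6 : (∑ p ∈ S, log p) / (x * log x) - theta x / (x * log x) ≤ η / 4 / log x := by
    rw [← sub_div, div_le_div_iff₀ (by positivity) hl]
    have : ∑ p ∈ S, log p - theta x ≤ η / 4 * x := by linarith
    nlinarith
  have h7 : log x ≤ log (⌊x⌋₊ + 1) := log_le_log hx0 (Nat.lt_floor_add_one x).le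
  have h8 : η / 4 / log (⌊x⌋₊ + 1) ≤ η / 4 / log x := by gcongr
  have h9 : log (⌊x⌋₊ + 1) - log x ≤ η / 4 := by
    rw [← log_div (by positivity) hx0.ne']
    refine (log_le_sub_one_of_pos (by positivity)).trans ?_
    rw [sub_le_iff_le_add, div_le_iff₀ hx0]
    rw [div_le_iff₀ hη] at hx'
    linarith [Nat.floor_le hx0.le]
  have h10 : log (log (⌊x⌋₊ + 1)) - log (log x) ≤ η / 4 / log x := by
    rw [← log_div (by linarith) hl.ne']
    refine (log_le_sub_one_of_pos (div_pos (by linarith) hl)).trans ?_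
    rw [div_sub_one hl.ne']
    gcongr
  have : η / log x = 4 * (η / 4 / log x) := by ring
  linarith

end Pool.Agent.P.MP_78d079_nt
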