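import Pool.Agent.P.MP_78d079_nt.Box

/-!
The Tauberian theorem of Newman, written for Mellin transforms.
-/

namespace Pool.Agent.P.MP_78d079_nt

open Complex Set MeasureTheory Filter Topology
open scoped Interval

theorem exists_strip {g : ℂ → ℂ} (hg : ∀ z : ℂ, 0 ≤ z.re → AnalyticAt ℂ g z) {R : ℝ}
    (hR : 0 < R) : ∃ δ : ℝ, 0 < δ ∧ δ ≤ R ∧ DifferentiableOn ℂ g (rect R (-δ) R) := by
  have hK : IsCompact ((fun y : ℝ => (y : ℂ) * I) '' [[-R, R]]) :=
    isCompact_uIcc.image (by fun_prop)
  obtain ⟨δ, hδ, hs⟩ := hK.exists_cthickening_subset_open (isOpen_analyticAt ℂ g) (by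
    rintro _ ⟨y, -, rfl⟩
    exact hg _ (by simp))
  refine ⟨min δ R, lt_min hδ hR, min_le_right _ _, fun z hz => ?_⟩
  refine (AnalyticAt.differentiableAt ?_).differentiableWithinAt
  rcases le_total 0 z.re with h | h
  · exact hg z h
  · unfold rect at hz
    rw [mem_reProdIm, uIcc_of_le (by linarith [lt_min hδ hR])] at hz
    refine hs (Metric.mem_cthickening_of_dist_le z (z.im * I) δ _ ⟨z.im, hz.2, rfl⟩ ?_)
    have : z - z.im * I = (z.re : ℂ) := by
      rw [sub_eq_iff_eq_add, re_add_im]
    rw [dist_eq_norm, this, norm_real, Real.norm_eq_abs, abs_of_nonpos h]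
    linarith [hz.1.1, min_le_left δ R]

section
variable {f : ℝ → ℝ} {B : ℝ}

theorem norm_term (hB : ∀ x, 1 ≤ x → |f x| ≤ B) (z : ℂ) {x : ℝ} (hx : 1 ≤ x) :
    ‖(f x : ℂ) * (x : ℂ) ^ (-(z + 1))‖ ≤ B * x ^ (-z.re - 1) := by
  rw [norm_mul, norm_real, norm_cpow_eq_rpow_re_of_pos (by linarith)]
  have : (-(z + 1)).re = -z.re - 1 := by simp; ring
  rw [this]
  exact mul_le_mul_of_nonneg_right (hB x hx) (by positivity)

theorem meas_term (hf : Measurable f) (z : ℂ) :
    Measurable fun x : ℝ => (f x : ℂ) * (x : ℂ) ^ (-(z + 1)) :=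
  (measurable_ofReal.comp hf).mul (measurable_ofReal.pow_const _)

theorem int_Ioi (hf : Measurable f) (hB : ∀ x, 1 ≤ x → |f x| ≤ B) {z : ℂ} (hz : 0 < z.re)
    {X : ℝ} (hX : 1 ≤ X) :
    IntegrableOn (fun x : ℝ => (f x : ℂ) * (x : ℂ) ^ (-(z + 1))) (Ioi X) := by
  refine Integrable.mono' ((integrableOn_Ioi_rpow_of_lt (a := -z.re - 1) (by linarith)
    (by linarith : 0 < X)).const_mul B) (meas_term hf z).aestronglyMeasurable ?_
  exact (ae_restrict_mem measurableSet_Ioi).mono fun x hx => norm_term hB z (hX.trans hx.le)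

/-- The truncated transform. -/
noncomputable def trunc (f : ℝ → ℝ) (X : ℝ) (z : ℂ) : ℂ :=
  ∫ x : ℝ in (1 : ℝ)..X, (f x : ℂ) * (x : ℂ) ^ (-(z + 1))

theorem trunc_diff (hf : Measurable f) (hB : ∀ x, 1 ≤ x → |f x| ≤ B) {X : ℝ} (hX : 1 ≤ X) :
    Differentiable ℂ (trunc f X) := by
  let F : ℝ → ℂ := (Ioc 1 X).indicator fun x => (f x : ℂ)
  have h1 : trunc f X = fun z => mellin F (-z) := by
    funext z
    unfold trunc mellin
    rw [intervalIntegral.integral_of_le hX, ← integral_indicator measurableSet_Ioc,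
      ← integral_indicator measurableSet_Ioi]
    congr 1
    funext x
    by_cases hx : x ∈ Ioc 1 X
    · have : x ∈ Ioi (0 : ℝ) := zero_lt_one.trans hx.1
      simp only [F, indicator_of_mem hx, indicator_of_mem this, smul_eq_mul]
      rw [mul_comm]; congr 2; ring
    · rw [indicator_of_notMem hx]
      by_cases h0 : x ∈ Ioi (0 : ℝ)
      · simp only [F, indicator_of_mem h0, indicator_of_notMem hx, smul_zero]
      · rw [indicator_of_notMem h0]
  have h2 : Integrable F := by
    rw [integrable_indicator_iff measurableSet_Ioc]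
    refine Measure.integrableOn_of_bounded (M := B) (by simp)
      (measurable_ofReal.comp hf).aestronglyMeasurable ?_
    exact (ae_restrict_mem measurableSet_Ioc).mono fun x hx => by simpa using hB x hx.1.le
  rw [h1]
  intro z
  refine DifferentiableAt.comp z (g := mellin F) ?_ differentiableAt_id.neg
  refine mellin_differentiableAt_of_isBigO_rpow (a := (-z).re + 1) (b := (-z).re - 1)
    (h2.locallyIntegrable.locallyIntegrableOn _) ?_ (by simp) ?_ (by simp)
  · refine (Asymptotics.isBigO_zero _ _).congr' ?_ EventuallyEq.rfl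
    filter_upwards [eventually_gt_atTop X] with x hx
    simp only [F]
    rw [indicator_of_notMem fun h => absurd h.2 (not_le.2 hx)]
  · refine (Asymptotics.isBigO_zero _ _).congr' ?_ EventuallyEq.rfl
    filter_upwards [Ioo_mem_nhdsGT (zero_lt_one' ℝ)] with x hx
    simp only [F]
    rw [indicator_of_notMem fun h => absurd h.1 (not_lt.2 hx.2.le)]

theorem norm_exp_log (z : ℂ) {X : ℝ} (hX : 0 < X) :
    ‖exp (z * (Real.log X : ℝ))‖ = X ^ z.re := by
  rw [norm_exp, Real.rpow_def_of_pos hX]
  simp [mul_comm]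

theorem newman (hf : Measurable f) (hB : ∀ x, 1 ≤ x → |f x| ≤ B) {g : ℂ → ℂ}
    (hg : ∀ z : ℂ, 0 ≤ z.re → AnalyticAt ℂ g z)
    (hI : ∀ z : ℂ, 0 < z.re → g z = ∫ x in Ioi (1 : ℝ), (f x : ℂ) * (x : ℂ) ^ (-(z + 1))) :
    Tendsto (fun X : ℝ => ∫ x in (1 : ℝ)..X, f x / x) atTop (𝓝 (g 0).re) := by
  have hB0 : 0 ≤ B := (abs_nonneg _).trans (hB 1 le_rfl)
  have key : Tendsto (fun X : ℝ => trunc f X 0) atTop (𝓝 (g 0)) := by
    rw [Metric.tendsto_nhds]
    intro ε hε
    obtain ⟨R, hR, hRε⟩ : ∃ R : ℝ, 0 < R ∧ 20 * B / R < ε := by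
      refine ⟨20 * B / ε + 1, by positivity, ?_⟩
      rw [div_lt_iff₀ (by positivity), mul_add, mul_div_cancel₀ _ hε.ne']
      linarith
    obtain ⟨δ, hδ, hδR, hd⟩ := exists_strip hg hR
    obtain ⟨M, hM⟩ := (show IsCompact (rect R (-δ) R) from
      isCompact_uIcc.reProdIm isCompact_uIcc).exists_bound_of_continuousOn hd.continuousOn
    have t1 : Tendsto (fun T : ℝ => 20 * B / R + 4 * M * δ / (R ^ 2 * T) +
        2 * R * (M * Real.exp (-δ * T) * (1 / δ + 2 / R))) atTop
        (𝓝 (20 * B / R + 0 + 2 * R * (M * 0 * (1 / δ + 2 / R)))) := by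
      refine (tendsto_const_nhds.add (tendsto_const_nhds.div_atTop
        (tendsto_id.const_mul_atTop (by positivity)))).add
        (((Tendsto.const_mul M ?_).mul_const _).const_mul _)
      exact Real.tendsto_exp_atBot.comp (tendsto_id.const_mul_atTop_of_neg (by linarith))
    have t2 := (t1.comp Real.tendsto_log_atTop).eventually (gt_mem_nhds (by simpa using hRε))
    filter_upwards [t2, eventually_gt_atTop 1] with X h1 hX
    rw [dist_comm, dist_eq_norm]
    refine lt_of_le_of_lt (contour hR hδ hδR (Real.log_pos hX) hd (trunc_diff hf hB hX.le) hM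
      (fun z hz => ?_) (fun z hz => ?_)) h1
    · have h2 : g z - trunc f X z = ∫ x in Ioi X, (f x : ℂ) * (x : ℂ) ^ (-(z + 1)) := by
        rw [hI z hz, ← intervalIntegral.integral_interval_add_Ioi (int_Ioi hf hB hz le_rfl)
          (int_Ioi hf hB hz hX.le)]
        unfold trunc; ring
      have h3 : ‖g z - trunc f X z‖ ≤ ∫ x in Ioi X, B * x ^ (-z.re - 1) := by
        rw [h2]
        refine norm_integral_le_of_norm_le ((integrableOn_Ioi_rpow_of_lt (a := -z.re - 1)
          (by linarith) (by linarith : 0 < X)).const_mul B) ?_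
        exact (ae_restrict_mem measurableSet_Ioi).mono fun x hx =>
          norm_term hB z (hX.le.trans hx.le)
      rw [integral_const_mul, integral_Ioi_rpow_of_lt (by linarith) (by linarith),
        sub_add_cancel, neg_div_neg_eq] at h3
      rw [norm_mul, norm_exp_log z (by linarith)]
      calc _ ≤ z.re * (B * (X ^ (-z.re) / z.re) * X ^ z.re) := by gcongr
        _ = B * (X ^ (-z.re) * X ^ z.re) := by field_simp
        _ = B := by rw [← Real.rpow_add (by linarith)]; simp
    · rcases hz.eq_or_lt with h0 | h0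
      · rw [h0]; simpa using hB0
      have h3 : ‖trunc f X z‖ ≤ ∫ x in (1 : ℝ)..X, B * x ^ (-z.re - 1) := by
        refine intervalIntegral.norm_integral_le_of_norm_le hX.le
          (Eventually.of_forall fun x hx => norm_term hB z hx.1.le) ?_
        exact (intervalIntegral.intervalIntegrable_rpow' (by linarith)).const_mul B
      rw [intervalIntegral.integral_const_mul, integral_rpow (Or.inl (by linarith)),
        sub_add_cancel, Real.one_rpow] at h3
      rw [norm_mul, norm_exp_log z (by linarith)]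
      have h4 : 0 < -z.re := by linarith
      have h5 : X ^ (-z.re) * X ^ z.re = 1 := by rw [← Real.rpow_add (by linarith)]; simp
      have h6 : 0 < X ^ z.re := by positivity
      calc _ ≤ -z.re * (B * ((X ^ (-z.re) - 1) / -z.re) * X ^ z.re) := by gcongr
        _ = B * (X ^ (-z.re) * X ^ z.re - X ^ z.re) := by
            have := h0.ne
            field_simp
        _ ≤ B := by rw [h5]; nlinarith
  have := (continuous_re.tendsto _).comp key
  refine this.congr' ?_
  filter_upwards [eventually_gt_atTop 1] with X hX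
  have h1 : trunc f X 0 = ((∫ x in (1 : ℝ)..X, f x / x : ℝ) : ℂ) := by
    rw [← intervalIntegral.integral_ofReal]
    refine intervalIntegral.integral_congr fun x _ => ?_
    simp [cpow_neg_one, div_eq_mul_inv]
  simp [h1]

end

end Pool.Agent.P.MP_78d079_nt
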