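import Pool.Agent.P.MP_78d079_nt.XbSW

/-! Reciprocal sums over the primes congruent to one modulo `d`, uniformly in `d`. -/

namespace Pool.Agent.P.MP_78d079_nt.Xb
open Finset Real

noncomputable def ind (d m : ℕ) : ℝ :=
  if m.Prime ∧ m ≡ 1 [MOD d] then (Nat.totient d : ℝ) * log m else 0

theorem abel (a f : ℕ → ℝ) {w y : ℕ} (h : w ≤ y) :
    ∑ m ∈ Ioc w y, a m * f m = (∑ m ∈ Icc 1 y, a m) * f y - (∑ m ∈ Icc 1 w, a m) * f w +
      ∑ m ∈ Ico w y, (∑ i ∈ Icc 1 m, a i) * (f m - f (m + 1)) := by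
  induction y, h using Nat.le_induction with
  | base => simp
  | succ y h ih =>
    rw [sum_Ioc_succ_top h, sum_Ico_succ_top h, sum_Icc_succ_top (by omega), ih]
    ring

theorem one_le_log {t : ℕ} (ht : 3 ≤ t) : 1 ≤ log t := by
  have h1 : (3 : ℝ) ≤ t := by exact_mod_cast ht
  rw [le_log_iff_exp_le (by linarith)]
  have := exp_one_lt_d9
  linarith

theorem sw (b : ℕ) : ∃ C : ℝ, 0 < C ∧ ∀ d t : ℕ, 1 ≤ d → 3 ≤ t → (d : ℝ) ≤ log t ^ b →
    |∑ m ∈ Icc 1 t, (ind d m - 1)| ≤ C * t / log t := by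
  obtain ⟨C, hC, h⟩ := Pool.Agent.Jac.Xb.siegel_walfisz (b + 1)
  refine ⟨C, hC, fun d t hd ht hle => ?_⟩
  have hl := one_le_log ht
  have ht3 : (3 : ℝ) ≤ t := by exact_mod_cast ht
  have hp : 0 < log t ^ b := by positivity
  have h1 := h t d 1 (by linarith) hd (hle.trans (by rw [pow_succ]; nlinarith)) (by simp)
  have hφ : (0 : ℝ) < Nat.totient d := by exact_mod_cast Nat.totient_pos.2 hd
  have hφd : (Nat.totient d : ℝ) ≤ d := by exact_mod_cast Nat.totient_le d
  have h2 : ∑ m ∈ Icc 1 t, (ind d m - 1) =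
      Nat.totient d * (Pool.Agent.Jac.thA t d 1 - t / Nat.totient d) := by
    rw [sum_sub_distrib, Pool.Agent.Jac.thA, Nat.floor_natCast, sum_filter, mul_sub, mul_sum]
    congr 1
    · refine sum_congr rfl fun m _ => ?_
      unfold ind
      split_ifs <;> simp
    · simp
      field_simp
  rw [h2, abs_mul, abs_of_pos hφ]
  calc _ ≤ log t ^ b * (C * t / log t ^ (b + 1)) :=
        mul_le_mul (hφd.trans hle) h1 (abs_nonneg _) hp.le
    _ = _ := by rw [pow_succ]; field_simp

theorem log_succ_le {m : ℕ} (hm : 3 ≤ m) : log ((m + 1 : ℕ) : ℝ) ≤ log m + 1 / m := by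
  have h1 : (3 : ℝ) ≤ m := by exact_mod_cast hm
  have h2 : ((m + 1 : ℕ) : ℝ) = m * (1 + 1 / m) := by push_cast; field_simp
  rw [h2, log_mul (by linarith) (by positivity)]
  have := log_le_sub_one_of_pos (x := 1 + 1 / (m : ℝ)) (by positivity)
  linarith

theorem le_log_succ {m : ℕ} (hm : 3 ≤ m) :
    log m + 1 / ((m : ℝ) + 1) ≤ log ((m + 1 : ℕ) : ℝ) := by
  have h1 : (3 : ℝ) ≤ m := by exact_mod_cast hm
  have h2 : (m : ℝ) = ((m + 1 : ℕ) : ℝ) * (1 - 1 / ((m : ℝ) + 1)) := by push_cast; field_simp; ring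
  have h3 : 0 < 1 - 1 / ((m : ℝ) + 1) := by
    rw [sub_pos, div_lt_one (by linarith)]; linarith
  have h4 : log m = log ((m + 1 : ℕ) : ℝ) + log (1 - 1 / ((m : ℝ) + 1)) := by
    rw [← log_mul (by positivity) h3.ne', ← h2]
  have := log_le_sub_one_of_pos h3
  linarith

theorem tele (F : ℕ → ℝ) {w y : ℕ} (h : w ≤ y) :
    ∑ m ∈ Ico w y, (F (m + 1) - F m) = F y - F w := by
  induction y, h using Nat.le_induction with
  | base => simp
  | succ y h ih => rw [sum_Ico_succ_top h, ih]; ring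

theorem loglog_le {w y : ℕ} (hw : 3 ≤ w) (h : w ≤ y) :
    log (log y) - log (log ((w + 1 : ℕ) : ℝ)) ≤ ∑ m ∈ Ioc w y, 1 / ((m : ℝ) * log m) := by
  have h1 : log (log ((y + 1 : ℕ) : ℝ)) - log (log ((w + 1 : ℕ) : ℝ)) ≤
      ∑ m ∈ Ioc w y, 1 / ((m : ℝ) * log m) := by
    induction y, h using Nat.le_induction with
    | base => simp
    | succ y h ih =>
      rw [sum_Ioc_succ_top h]
      have hy : 3 ≤ y + 1 := by omega
      have h2 := log_succ_le hy
      have h3 := one_le_log hy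
      have h4 := one_le_log (show 3 ≤ y + 1 + 1 by omega)
      have h5 : (0 : ℝ) < ((y + 1 : ℕ) : ℝ) := by positivity
      set L := log ((y + 1 : ℕ) : ℝ)
      set L' := log ((y + 1 + 1 : ℕ) : ℝ)
      have h6 : log L' - log L ≤ 1 / (((y + 1 : ℕ) : ℝ) * L) := by
        rw [← log_div (by linarith) (by linarith)]
        refine (log_le_sub_one_of_pos (by positivity)).trans ?_
        rw [div_sub_one (by linarith), div_le_iff₀ (by linarith)]
        have : 1 / (((y + 1 : ℕ) : ℝ) * L) * L = 1 / ((y + 1 : ℕ) : ℝ) := by field_simp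
        linarith
      linarith
  refine le_trans (sub_le_sub_right ?_ _) h1
  have h3 := one_le_log (hw.trans h)
  have h4 : (3 : ℝ) ≤ y := by exact_mod_cast hw.trans h
  exact log_le_log (by linarith) (log_le_log (by linarith) (by push_cast; linarith))

theorem ap_sums (b : ℕ) : ∃ C : ℝ, 0 < C ∧ ∀ d w y : ℕ, 1 ≤ d → 3 ≤ w → w ≤ y →
    (d : ℝ) ≤ log w ^ b →
      log (log y) - log (log ((w + 1 : ℕ) : ℝ)) - C ≤
          ∑ m ∈ Ioc w y, ind d m * (1 / ((m : ℝ) * log m)) ∧
        ∑ m ∈ Ioc w y, ind d m * (1 / (m : ℝ)) ≤ C * log y := by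
  obtain ⟨C, hC, h⟩ := sw b
  refine ⟨6 * C + 2, by positivity, fun d w y hd hw hwy hle => ?_⟩
  set A : ℕ → ℝ := fun t => ∑ m ∈ Icc 1 t, (ind d m - 1) with hA
  have hAb : ∀ t, w ≤ t → |A t| ≤ C * t / log t := by
    intro t ht
    refine h d t hd (hw.trans ht) (hle.trans ?_)
    have h1 := one_le_log hw
    have h2 : (3 : ℝ) ≤ w := by exact_mod_cast hw
    have h3 : log w ≤ log t := log_le_log (by linarith) (by exact_mod_cast ht)
    gcongr
  have hAb' : ∀ t, w ≤ t → |A t| ≤ C * t := by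
    intro t ht
    refine (hAb t ht).trans (div_le_self (by positivity) (one_le_log (hw.trans ht)))
  have hsplit : ∀ f : ℕ → ℝ, ∑ m ∈ Ioc w y, ind d m * f m =
      ∑ m ∈ Ioc w y, f m + (A y * f y - A w * f w + ∑ m ∈ Ico w y, A m * (f m - f (m + 1))) := by
    intro f
    rw [← abel (fun m => ind d m - 1) f hwy, ← sum_add_distrib]
    exact sum_congr rfl fun m _ => by ring
  have hly := one_le_log (hw.trans hwy)
  have hend : ∀ (f : ℕ → ℝ) (t : ℕ), w ≤ t → 0 ≤ f t → f t ≤ 1 / t → |A t * f t| ≤ C := by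
    intro f t ht h0 h1
    have ht0 : (0 : ℝ) < t := by exact_mod_cast (by omega : 0 < t)
    rw [abs_mul, abs_of_nonneg h0]
    calc _ ≤ C * t * (1 / t) := mul_le_mul (hAb' t ht) h1 h0 (by positivity)
      _ = C := by field_simp
  constructor
  · rw [hsplit]
    have hf : ∀ t, w ≤ t → |A t * (1 / ((t : ℝ) * log t))| ≤ C := by
      intro t ht
      have ht0 : (0 : ℝ) < t := by exact_mod_cast (by omega : 0 < t)
      have h1 := one_le_log (hw.trans ht)
      refine hend (fun m => 1 / ((m : ℝ) * log m)) t ht (by positivity) ?_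
      exact one_div_le_one_div_of_le ht0 (by nlinarith)
    have h1 := abs_le.1 (hf y hwy)
    have h2 := abs_le.1 (hf w le_rfl)
    have h3 := loglog_le hw hwy
    have h4 : ∑ m ∈ Ico w y, 4 * C * (1 / log ((m + 1 : ℕ) : ℝ) - 1 / log m) ≤
        ∑ m ∈ Ico w y, A m * (1 / ((m : ℝ) * log m) -
          1 / (((m + 1 : ℕ) : ℝ) * log ((m + 1 : ℕ) : ℝ))) := by
      refine sum_le_sum fun m hm => ?_
      have hm3 : 3 ≤ m := hw.trans (mem_Ico.1 hm).1
      have h5 := log_succ_le hm3
      have h6 := le_log_succ hm3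
      have h7 := one_le_log hm3
      have h8 := (abs_le.1 (hAb m (mem_Ico.1 hm).1)).1
      have hm0 : (3 : ℝ) ≤ m := by exact_mod_cast hm3
      set L := log (m : ℝ)
      set L' := log ((m + 1 : ℕ) : ℝ)
      push_cast
      have h9 : 1 / (m : ℝ) ≤ 1 := by rw [div_le_one (by linarith)]; linarith
      have h10 : 0 < 1 / ((m : ℝ) + 1) := by positivity
      have hL' : L ≤ L' := by linarith
      have hL0 : 0 < L := by linarith
      have hL0' : 0 < L' := by linarith
      have hD0 : 0 ≤ 1 / ((m : ℝ) * L) - 1 / ((m + 1) * L') := by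
        rw [sub_nonneg]
        exact one_div_le_one_div_of_le (by positivity) (by nlinarith)
      have hD : 1 / ((m : ℝ) * L) - 1 / ((m + 1) * L') ≤ 2 / (m * (m + 1) * L) := by
        rw [div_sub_div _ _ (by positivity) (by positivity), div_le_div_iff₀ (by positivity)
          (by positivity)]
        have h11 : (m : ℝ) * (L' - L) ≤ 1 := by
          have : L' - L ≤ 1 / m := by linarith
          rwa [le_div_iff₀ (by linarith), mul_comm] at this
        have h12 : 1 * ((m + 1) * L') - m * L * 1 ≤ 2 * L' := by nlinarith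
        calc _ ≤ 2 * L' * (m * (m + 1) * L) := by gcongr
          _ = _ := by ring
      have hE : 1 / (((m : ℝ) + 1) * (2 * (L * L))) ≤ 1 / L - 1 / L' := by
        rw [div_sub_div _ _ hL0.ne' hL0'.ne']
        calc 1 / (((m : ℝ) + 1) * (2 * (L * L))) = 1 / ((m : ℝ) + 1) / (L * (2 * L)) := by
              field_simp
          _ ≤ _ := by
              apply div_le_div₀ (by linarith) (by linarith) (by positivity)
              nlinarith
      calc 4 * C * (1 / L' - 1 / L) ≤ 4 * C * (-(1 / (((m : ℝ) + 1) * (2 * (L * L))))) := by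
            gcongr; linarith
        _ = -(C * m / L) * (2 / (m * (m + 1) * L)) := by field_simp; ring
        _ ≤ -(C * m / L) * (1 / ((m : ℝ) * L) - 1 / ((m + 1) * L')) := by
            apply mul_le_mul_of_nonpos_left hD
            have : 0 ≤ C * m / L := by positivity
            linarith
        _ ≤ _ := mul_le_mul_of_nonneg_right h8 hD0
    rw [← mul_sum, tele (fun m => 1 / log (m : ℝ)) hwy] at h4
    have h5 : 0 ≤ 1 / log (y : ℝ) := by positivity
    have h6 : 1 / log (w : ℝ) ≤ 1 := by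
      have := one_le_log hw
      rw [div_le_one (by linarith)]; exact this
    nlinarith
  · rw [hsplit]
    have h1 := abs_le.1 (hend (fun m => 1 / (m : ℝ)) y hwy (by positivity) le_rfl)
    have h2 := abs_le.1 (hend (fun m => 1 / (m : ℝ)) w le_rfl (by positivity) le_rfl)
    have h3 : ∑ m ∈ Ioc w y, 1 / (m : ℝ) ≤ 1 + log y :=
      le_trans (sum_le_sum_of_subset_of_nonneg (Ioc_subset_Ioc_left (Nat.zero_le w))
        fun m _ _ => by positivity) (Pool.Agent.Lib.Sieve.sum_inv_Ioc_le y)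
    have h4 : ∑ m ∈ Ico w y, A m * (1 / (m : ℝ) - 1 / ((m + 1 : ℕ) : ℝ)) ≤
        ∑ m ∈ Ico w y, C * (log ((m + 1 : ℕ) : ℝ) - log m) := by
      refine sum_le_sum fun m hm => ?_
      have hm3 : 3 ≤ m := hw.trans (mem_Ico.1 hm).1
      have h6 := le_log_succ hm3
      have h8 := (abs_le.1 (hAb' m (mem_Ico.1 hm).1)).2
      have hm0 : (3 : ℝ) ≤ m := by exact_mod_cast hm3
      have h9 : 1 / (m : ℝ) - 1 / ((m + 1 : ℕ) : ℝ) = 1 / (m * (m + 1)) := by
        push_cast; field_simp; ring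
      rw [h9]
      calc _ ≤ C * m * (1 / (m * (m + 1))) := by gcongr
        _ = C * (1 / ((m : ℝ) + 1)) := by field_simp
        _ ≤ _ := by gcongr; linarith
    rw [← mul_sum, tele (fun m => log (m : ℝ)) hwy] at h4
    have h5 := one_le_log hw
    nlinarith

end Pool.Agent.P.MP_78d079_nt.Xb
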