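import Pool.Agent.P.MP_78d079_nt.XbSieve
import Pool.Agent.P.MP_78d079_nt.XbAP

/-! Primes of `n` whose exponent plus one has a given divisor. -/

namespace Pool.Agent.P.MP_78d079_nt.Xb
open Finset Real Pool.Agent.Lib.Sieve

theorem exists_rts {d r : ℕ} (hr : r.Prime) (hd : 2 ≤ d) (h : r ≡ 1 [MOD d]) :
    ∃ R : Finset ℕ, R ⊆ range r ∧ 0 ∉ R ∧ R.card = Nat.totient d ∧
      ∀ p a : ℕ, p % r ∈ R → d ∣ a + 1 → r ∣ ∑ i ∈ range (a + 1), p ^ i := by
  classical
  have : Fact r.Prime := ⟨hr⟩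
  have hdvd : d ∣ Fintype.card (ZMod r)ˣ := by
    rw [ZMod.card_units]
    exact (Nat.modEq_iff_dvd' hr.one_le).1 h.symm
  refine ⟨(univ.filter (fun u : (ZMod r)ˣ => orderOf u = d)).image
    (fun u : (ZMod r)ˣ => (u : ZMod r).val), ?_, ?_, ?_, ?_⟩
  · intro x hx
    obtain ⟨u, -, rfl⟩ := mem_image.1 hx
    exact mem_range.2 (ZMod.val_lt _)
  · intro hx
    obtain ⟨u, -, hu⟩ := mem_image.1 hx
    exact u.ne_zero ((ZMod.val_eq_zero _).1 hu)
  · rw [card_image_of_injective _ (fun u v huv => Units.ext (ZMod.val_injective r huv))]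
    exact IsCyclic.card_orderOf_eq_totient hdvd
  · intro p a hp ha
    obtain ⟨u, hu, hup⟩ := mem_image.1 hp
    have hu' : orderOf u = d := (mem_filter.1 hu).2
    have h1 : (p : ZMod r) = u := by
      rw [← ZMod.natCast_mod, ← hup, ZMod.natCast_zmod_val]
    have h2 : (u : ZMod r) ^ (a + 1) = 1 := by
      rw [← Units.val_pow_eq_pow_val, orderOf_dvd_iff_pow_eq_one.1 (hu' ▸ ha), Units.val_one]
    have h3 : (u : ZMod r) - 1 ≠ 0 := by
      intro h4
      have h5 : u = 1 := Units.ext (by simpa using sub_eq_zero.1 h4)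
      rw [h5, orderOf_one] at hu'
      omega
    rw [← ZMod.natCast_eq_zero_iff]
    push_cast
    rw [h1]
    have h6 := geom_sum_mul (u : ZMod r) (a + 1)
    rw [h2, sub_self] at h6
    exact (mul_eq_zero.1 h6).resolve_right h3

theorem exists_om {d : ℕ} (hd : 2 ≤ d) (w : ℕ) (S : Finset ℕ) (r : ℕ) :
    ∃ O : Finset ℕ, r.Prime → O ⊆ range r ∧
      O.card = 1 + (if (w < r ∧ r ≡ 1 [MOD d]) ∧ r ∉ S then Nat.totient d else 0) ∧
      ∀ p a : ℕ, p % r ∈ O → d ∣ a + 1 →
        r ∣ p ∨ (r ∉ S ∧ r ∣ ∑ i ∈ range (a + 1), p ^ i) := by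
  by_cases hr : r.Prime
  swap
  · exact ⟨∅, fun h => absurd h hr⟩
  by_cases h : (w < r ∧ r ≡ 1 [MOD d]) ∧ r ∉ S
  · obtain ⟨R, h1, h2, h3, h4⟩ := exists_rts hr hd h.1.2
    refine ⟨insert 0 R, fun _ => ⟨insert_subset (mem_range.2 hr.pos) h1, ?_, ?_⟩⟩
    · rw [card_insert_of_notMem h2, h3, if_pos h, add_comm]
    · intro p a hp ha
      rcases mem_insert.1 hp with h5 | h5
      · exact Or.inl (Nat.dvd_of_mod_eq_zero h5)
      · exact Or.inr ⟨h.2, h4 p a h5 ha⟩
  · refine ⟨{0}, fun _ => ⟨by simpa using hr.pos, by simp [h], fun p a hp _ => ?_⟩⟩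
    exact Or.inl (Nat.dvd_of_mod_eq_zero (mem_singleton.1 hp))

theorem hits {n r : ℕ} (hn : n ≠ 0) (hr : r.Prime) :
    (n.primeFactors.filter (fun p => r ∣ ∑ i ∈ range (n.factorization p + 1), p ^ i)).card ≤
      (∑ d ∈ n.divisors, d).factorization r := by
  have h0 : ∑ d ∈ n.divisors, d ≠ 0 := by
    have := single_le_sum (f := fun d => d) (fun _ _ => Nat.zero_le _)
      (Nat.mem_divisors_self n hn)
    omega
  rw [← hr.pow_dvd_iff_le_factorization h0, Nat.sum_divisors hn, ← prod_const]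
  exact (prod_dvd_prod_of_dvd _ _ fun p hp => (mem_filter.1 hp).2).trans
    (prod_dvd_prod_of_subset _ _ _ (filter_subset _ _))

theorem sum_conv (d w y : ℕ) (f : ℕ → ℝ) :
    ∑ r ∈ Nat.primesLE y, (if w < r ∧ r ≡ 1 [MOD d] then (Nat.totient d : ℝ) else 0) *
      (log r * f r) = ∑ m ∈ Ioc w y, ind d m * f m := by
  have h1 : Ioc w y = (range (y + 1)).filter (fun m => w < m) := by
    ext m; simp; omega
  rw [h1, Nat.primesLE_eq_filter_range, sum_filter, sum_filter]
  refine sum_congr rfl fun m _ => ?_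
  unfold ind
  by_cases h2 : m.Prime <;> by_cases h3 : w < m <;> by_cases h4 : m ≡ 1 [MOD d] <;>
    simp [h2, h3, h4, mul_assoc]

theorem count_d (b : ℕ) : ∃ (u : ℕ) (K : ℝ), 1 ≤ u ∧ 0 < K ∧ ∀ (d w y N n M : ℕ) (S : Finset ℕ),
    2 ≤ d → 3 ≤ w → w ≤ y → (d : ℝ) ≤ log w ^ b → 2 * d ≤ w → S.card * d ≤ w → n ≠ 0 →
    (∀ r, r ∉ S → (∑ d ∈ n.divisors, d).factorization r ≤ M) →
    ((n.primeFactors.filter (fun p => (y < p ∧ p < N) ∧ d ∣ n.factorization p + 1)).card : ℝ) ≤
      K * N * log ((w + 1 : ℕ) : ℝ) / log y ^ 2 + 2 * (y : ℝ) ^ (4 * u) + y * M := by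
  classical
  obtain ⟨C, hC, hap⟩ := ap_sums b
  refine ⟨⌈2 * (C + 3) + 1⌉₊, 2 * exp (C + 3), Nat.one_le_ceil_iff.2 (by positivity),
    by positivity, fun d w y N n M S hd hw hwy hdb hdw hS hn hM => ?_⟩
  choose Om hOm using exists_om hd w S
  obtain ⟨hlo, hup⟩ := hap d w y (by omega) hw hwy hdb
  have hly := one_le_log (hw.trans hwy)
  have hlw := one_le_log (show 3 ≤ w + 1 by omega)
  set P := Nat.primesLE y with hPdef
  have hP : ∀ r ∈ P, r.Prime ∧ r ≤ y := fun r hr =>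
    ⟨(Nat.mem_primesLE.1 hr).2, (Nat.mem_primesLE.1 hr).1⟩
  have hφ : Nat.totient d < d := Nat.totient_lt d hd
  set c : ℕ → ℝ := fun r => if w < r ∧ r ≡ 1 [MOD d] then (Nat.totient d : ℝ) else 0 with hc
  have hcard : ∀ r ∈ P, ((Om r).card : ℝ) = 1 + c r - if r ∈ S then c r else 0 := by
    intro r hr
    rw [(hOm r (hP r hr).1).2.1]
    by_cases h1 : w < r ∧ r ≡ 1 [MOD d] <;> by_cases h2 : r ∈ S <;> simp [hc, h1, h2]
  have hc0 : ∀ r, 0 ≤ c r := fun r => by simp only [hc]; split_ifs <;> positivity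
  have h2 : ∀ r ∈ P, 2 * (Om r).card ≤ r := by
    intro r hr
    have := (hP r hr).1.two_le
    rw [(hOm r (hP r hr).1).2.1]
    split_ifs with h1
    · have := h1.1.1; omega
    · omega
  have hA : ∑ r ∈ P, ((Om r).card : ℝ) * (log r / r) ≤ (C + 3) * log y := by
    have h3 := sum_log_div_le (N := y) (by omega)
    have h4 := log_four_le
    rw [← sum_conv] at hup
    calc _ ≤ ∑ r ∈ P, (log r / r + c r * (log r * (1 / (r : ℝ)))) := by
          refine sum_le_sum fun r hr => ?_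
          have h5 : 0 ≤ log r / r := by have := log_natCast_nonneg r; positivity
          have h6 : ((Om r).card : ℝ) ≤ 1 + c r := by
            rw [hcard r hr]; have := hc0 r; split_ifs <;> linarith
          calc _ ≤ (1 + c r) * (log r / r) := by gcongr
            _ = _ := by ring
      _ ≤ _ := by rw [sum_add_distrib]; nlinarith
  have hsv := sieve_many Om P (by omega) hP (fun r hr => (hOm r (hP r hr).1).1) h2 hA
    (Nat.le_ceil _) N
  have hw0 : (0 : ℝ) < w := by exact_mod_cast (by omega : 0 < w)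
  have hS' : ∑ r ∈ P, (if r ∈ S then c r else 0) / r ≤ 1 := by
    calc _ ≤ ∑ r ∈ P, if r ∈ S then (d : ℝ) / w else 0 := by
          refine sum_le_sum fun r _ => ?_
          simp only [hc]
          split_ifs with h3 h4
          · exact div_le_div₀ (by positivity) (by exact_mod_cast hφ.le) hw0
              (by exact_mod_cast h4.1.le)
          · rw [zero_div]; positivity
          · simp
      _ = (P ∩ S).card * ((d : ℝ) / w) := by rw [sum_ite_mem, sum_const, nsmul_eq_mul]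
      _ ≤ S.card * ((d : ℝ) / w) := by
          gcongr
          exact inter_subset_right
      _ ≤ 1 := by
          rw [← mul_div_assoc, div_le_one hw0]; exact_mod_cast hS
  have hsum : 2 * log (log y) - log (log ((w + 1 : ℕ) : ℝ)) - (C + 3) ≤
      ∑ r ∈ P, ((Om r).card : ℝ) / r := by
    have h3 := le_sum_inv_primes (y := y) (by omega)
    rw [← sum_conv] at hlo
    have h4 : ∑ r ∈ P, ((Om r).card : ℝ) / r = ∑ r ∈ P, 1 / (r : ℝ) +
        ∑ r ∈ P, c r * (log r * (1 / ((r : ℝ) * log r))) -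
          ∑ r ∈ P, (if r ∈ S then c r else 0) / r := by
      rw [← sum_add_distrib, ← sum_sub_distrib]
      refine sum_congr rfl fun r hr => ?_
      have h5 : (1 : ℝ) < r := by exact_mod_cast (hP r hr).1.one_lt
      have h6 := log_pos h5
      rw [hcard r hr]
      field_simp
    rw [h4]
    linarith
  have hexp : exp (-∑ r ∈ P, ((Om r).card : ℝ) / r) ≤
      exp (C + 3) * log ((w + 1 : ℕ) : ℝ) / log y ^ 2 := by
    calc _ ≤ exp (C + 3 + log (log ((w + 1 : ℕ) : ℝ)) - log (log y ^ 2)) := by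
          rw [log_pow]; push_cast at hsum ⊢; exact exp_le_exp.2 (by linarith)
      _ = _ := by rw [exp_sub, exp_add, exp_log (by linarith), exp_log (by positivity)]
  have hsub : n.primeFactors.filter (fun p => (y < p ∧ p < N) ∧ d ∣ n.factorization p + 1) ⊆
      (range N).filter (fun m => ∀ r ∈ P, m % r ∉ Om r) ∪ (P \ S).biUnion (fun r =>
        n.primeFactors.filter (fun p => r ∣ ∑ i ∈ range (n.factorization p + 1), p ^ i)) := by
    intro p hp
    obtain ⟨hp1, ⟨hp2, hp3⟩, hp4⟩ := mem_filter.1 hp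
    by_cases h3 : ∀ r ∈ P, p % r ∉ Om r
    · exact mem_union_left _ (mem_filter.2 ⟨mem_range.2 hp3, h3⟩)
    · push Not at h3
      obtain ⟨r, hr, h4⟩ := h3
      rcases (hOm r (hP r hr).1).2.2 p _ h4 hp4 with h5 | h5
      · have := (Nat.prime_dvd_prime_iff_eq (hP r hr).1 (Nat.prime_of_mem_primeFactors hp1)).1 h5
        have := (hP r hr).2
        omega
      · exact mem_union_right _ (mem_biUnion.2 ⟨r, mem_sdiff.2 ⟨hr, h5.1⟩,
          mem_filter.2 ⟨hp1, h5.2⟩⟩)
  have hexc : ((P \ S).biUnion (fun r => n.primeFactors.filter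
      (fun p => r ∣ ∑ i ∈ range (n.factorization p + 1), p ^ i))).card ≤ y * M := by
    refine (card_biUnion_le_card_mul _ _ M fun r hr => ?_).trans (Nat.mul_le_mul_right _ ?_)
    · exact (hits hn (hP r (mem_sdiff.1 hr).1).1).trans (hM r (mem_sdiff.1 hr).2)
    · refine (card_le_card (show P \ S ⊆ Ioc 0 y from fun r hr => ?_)).trans (by simp)
      exact mem_Ioc.2 ⟨(hP r (mem_sdiff.1 hr).1).1.pos, (hP r (mem_sdiff.1 hr).1).2⟩
  have h3 := (card_le_card hsub).trans ((card_union_le _ _).trans (Nat.add_le_add_left hexc _))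
  have h4 : (2 : ℝ) * N * exp (-∑ r ∈ P, ((Om r).card : ℝ) / r) ≤
      2 * exp (C + 3) * N * log ((w + 1 : ℕ) : ℝ) / log y ^ 2 := by
    calc _ ≤ 2 * N * (exp (C + 3) * log ((w + 1 : ℕ) : ℝ) / log y ^ 2) := by gcongr
      _ = _ := by ring
  have h5 : ((n.primeFactors.filter
      (fun p => (y < p ∧ p < N) ∧ d ∣ n.factorization p + 1)).card : ℝ) ≤
      (((range N).filter (fun m => ∀ r ∈ P, m % r ∉ Om r)).card : ℝ) + y * M := by
    exact_mod_cast h3
  linarith

end Pool.Agent.P.MP_78d079_nt.Xb
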