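import Pool.Agent.P.MP_78d079_nt.XbScale

/-! The multiplicity of a multiperfect number against its exponents. -/

namespace Pool.Agent.P.MP_78d079_nt.Xb
open Finset Real Pool.Agent.Lib.Sieve

theorem prod_le_exp (G : Finset ℕ) (hG : ∀ p ∈ G, p.Prime) :
    ∏ p ∈ G, (1 - 1 / (p : ℝ))⁻¹ ≤ exp (∑ p ∈ G, 1 / (p : ℝ) + 2) := by
  have h2 : ∀ p ∈ G, 1 / (p : ℝ) ≤ 1 / 2 := fun p hp =>
    one_div_le_one_div_of_le (by norm_num) (by exact_mod_cast (hG p hp).two_le)
  calc _ ≤ ∏ p ∈ G, exp (1 / (p : ℝ) + 2 * (1 / (p : ℝ)) ^ 2) :=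
        prod_le_prod (fun p hp => inv_nonneg.2 (by linarith [h2 p hp]))
          fun p hp => inv_one_sub_le_exp (by positivity) (h2 p hp)
    _ ≤ _ := by
        rw [← exp_sum, sum_add_distrib, ← mul_sum]
        exact exp_le_exp.2 (by linarith [sum_inv_sq_primes_le G hG])

theorem prod_pos' (G : Finset ℕ) (hG : ∀ p ∈ G, p.Prime) : 0 < ∏ p ∈ G, (1 - 1 / (p : ℝ))⁻¹ := by
  refine prod_pos fun p hp => inv_pos.2 ?_
  have : (1 : ℝ) < p := by exact_mod_cast (hG p hp).one_lt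
  rw [sub_pos, div_lt_one (by linarith)]
  exact this

theorem sigma_le {n : ℕ} (hn : n ≠ 0) :
    ((∑ d ∈ n.divisors, d : ℕ) : ℝ) ≤ n * ∏ p ∈ n.primeFactors, (1 - 1 / (p : ℝ))⁻¹ := by
  have h1 : (n : ℝ) = ∏ p ∈ n.primeFactors, (p : ℝ) ^ n.factorization p := by
    conv_lhs => rw [← Nat.prod_factorization_pow_eq_self hn]
    rw [Finsupp.prod, Nat.support_factorization]
    push_cast; rfl
  rw [Nat.sum_divisors hn, h1, ← prod_mul_distrib]
  push_cast
  refine prod_le_prod (fun p _ => by positivity) fun p hp => ?_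
  have h2 : (1 : ℝ) < p := by exact_mod_cast (Nat.prime_of_mem_primeFactors hp).one_lt
  have h3 : (1 - 1 / (p : ℝ))⁻¹ = p / (p - 1) := by
    have : (p : ℝ) - 1 ≠ 0 := by linarith
    field_simp
  rw [h3, ← mul_div_assoc, le_div_iff₀ (by linarith), geom_sum_mul, pow_succ]
  linarith

theorem natlog_le (m : ℕ) (hm : m ≠ 0) : (Nat.log 2 m : ℝ) ≤ 2 * log m := by
  have h1 : ((2 ^ Nat.log 2 m : ℕ) : ℝ) ≤ m := by exact_mod_cast Nat.pow_log_le_self 2 hm
  have h2 := log_le_log (by positivity) h1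
  push_cast at h2
  rw [log_pow] at h2
  have h3 : (Nat.log 2 m : ℝ) * (1 / 2) ≤ Nat.log 2 m * log 2 :=
    mul_le_mul_of_nonneg_left (by linarith [log_two_gt_d9]) (by positivity)
  linarith

theorem half_le_log (m : ℕ) : 1 / 2 ≤ log ((m : ℝ) + 2) := by
  have := log_le_log (x := 2) (y := (m : ℝ) + 2) (by norm_num)
    (by linarith [Nat.cast_nonneg (α := ℝ) m])
  linarith [log_two_gt_d9]

theorem gen {ε : ℝ} (hε : 0 < ε) (hε1 : ε ≤ 1) : ∃ (C : ℝ) (B : ℕ), 0 < C ∧ 1 ≤ B ∧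
    ∀ (n M : ℕ) (S : Finset ℕ), n ≠ 0 →
    (∀ r, r ∉ S → (∑ d ∈ n.divisors, d).factorization r ≤ M) →
    ((∑ d ∈ n.divisors, d : ℕ) : ℝ) ≤ n * (C * (log ((M : ℝ) + 2) + log ((S.card : ℝ) + 1) ^ B) *
      ∏ p ∈ n.primeFactors.filter (fun p : ℕ =>
        log p ^ (1 - ε) < ((n.factorization p + 1).minFac : ℝ)), (1 - 1 / (p : ℝ))⁻¹) := by
  classical
  obtain ⟨j0, b, K, hb, hK, hsc⟩ := scale hε hε1
  set g : ℕ → ℝ := fun j =>
    K * ((j + 1 : ℕ) : ℝ) ^ (-(1 + ε / 2)) + 3 * (((j + 1 : ℕ) : ℝ) * (3 / 4) ^ j) with hg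
  have hg0 : ∀ j, 0 ≤ g j := fun j => by positivity
  have hgs : Summable g := by
    refine Summable.add (Summable.mul_left _ ?_) (Summable.mul_left _ ?_)
    · exact (summable_nat_add_iff 1).2 (summable_nat_rpow.2 (by linarith))
    · have h1 := summable_pow_mul_geometric_of_norm_lt_one (R := ℝ) 1 (r := 3 / 4) (by norm_num)
      have h2 := summable_geometric_of_lt_one (r := 3 / 4) (by norm_num) (by norm_num)
      refine (h1.add h2).congr fun j => ?_
      push_cast; ring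
  refine ⟨exp (∑' j, g j + 9) * (2 * j0 + 20 + 2 ^ b), b, by positivity, hb,
    fun n M S hn hM => (sigma_le hn).trans (mul_le_mul_of_nonneg_left ?_ (by positivity))⟩
  rw [← prod_filter_mul_prod_filter_not n.primeFactors (fun p : ℕ =>
    log p ^ (1 - ε) < ((n.factorization p + 1).minFac : ℝ)), mul_comm]
  refine mul_le_mul_of_nonneg_right ?_ (prod_pos' _ fun p hp =>
    Nat.prime_of_mem_primeFactors (mem_filter.1 hp).1).le
  set G := n.primeFactors.filter (fun p : ℕ =>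
    ¬ log p ^ (1 - ε) < ((n.factorization p + 1).minFac : ℝ)) with hG
  have hGp : ∀ p ∈ G, p.Prime := fun p hp => Nat.prime_of_mem_primeFactors (mem_filter.1 hp).1
  have hs0 : 0 ≤ log ((S.card : ℝ) + 1) := log_nonneg (by linarith [Nat.cast_nonneg (α := ℝ) S.card])
  set J := j0 + 4 * (Nat.log 2 (M + 2) + 1) + ⌈(2 * log ((S.card : ℝ) + 1)) ^ b⌉₊ + 1 with hJ
  have hsm : ∑ p ∈ G.filter (fun p => p < 2 ^ J), 1 / (p : ℝ) ≤ log J + 7 := by
    have h1 := sum_inv_primes_le (y := 2 ^ J) (Nat.one_lt_two_pow (by omega))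
    have h2 : log (log ((2 ^ J : ℕ) : ℝ)) ≤ log J := by
      have h3 : (0 : ℝ) < J := by exact_mod_cast (by omega : 0 < J)
      push_cast
      rw [log_pow]
      exact log_le_log (mul_pos h3 (log_pos (by norm_num)))
        (mul_le_of_le_one_right h3.le (by linarith [log_two_lt_d9]))
    refine le_trans (sum_le_sum_of_subset_of_nonneg (fun p hp => ?_) fun p _ _ => by positivity)
      (h1.trans (by linarith))
    exact Nat.mem_primesLE.2 ⟨(mem_filter.1 hp).2.le, hGp p (mem_filter.1 hp).1⟩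
  have hlg : ∑ p ∈ G.filter (fun p => ¬ p < 2 ^ J), 1 / (p : ℝ) ≤ ∑' j, g j := by
    set G' := G.filter (fun p => ¬ p < 2 ^ J) with hG'
    rw [← sum_fiberwise_of_maps_to (t := G'.image (Nat.log 2)) (g := Nat.log 2)
      (fun p hp => mem_image_of_mem _ hp)]
    refine le_trans (sum_le_sum fun j hj => ?_) (hgs.sum_le_tsum _ fun j _ => hg0 j)
    obtain ⟨q, hq, hqj⟩ := mem_image.1 hj
    have hJj : J ≤ j := hqj ▸ Nat.le_log_of_pow_le (by norm_num) (not_lt.1 (mem_filter.1 hq).2)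
    have h1 := hsc j n M S (by omega) (by
      have h2 := Nat.lt_pow_succ_log_self (b := 2) (by norm_num) (M + 2)
      have h3 : 2 ^ (Nat.log 2 (M + 2)).succ ≤ 2 ^ (j / 4) :=
        Nat.pow_le_pow_right (by norm_num) (by omega)
      omega) (Nat.ceil_le.1 (by omega)) hn hM
    have h2 : (0 : ℝ) < 2 ^ j := by positivity
    calc _ ≤ (G'.filter (fun p => Nat.log 2 p = j)).card • (1 / (2 : ℝ) ^ j) := by
          refine sum_le_card_nsmul _ _ _ fun p hp => one_div_le_one_div_of_le h2 ?_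
          have h3 := hGp p (mem_filter.1 (mem_filter.1 hp).1).1
          have h4 : 2 ^ j ≤ p := (mem_filter.1 hp).2 ▸ Nat.pow_log_le_self 2 h3.ne_zero
          exact_mod_cast h4
      _ ≤ _ := by
          rw [nsmul_eq_mul, mul_one_div, div_le_iff₀ h2, mul_comm]
          refine le_trans ?_ h1
          refine Nat.cast_le.2 (card_le_card fun p hp => ?_)
          have h3 := mem_filter.1 (mem_filter.1 (mem_filter.1 hp).1).1
          exact mem_filter.2 ⟨h3.1, (mem_filter.1 hp).2, not_lt.1 h3.2⟩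
  have hJ0 : (0 : ℝ) < J := by exact_mod_cast (by omega : 0 < J)
  have hJle : (J : ℝ) ≤ (2 * j0 + 20 + 2 ^ b) *
      (log ((M : ℝ) + 2) + log ((S.card : ℝ) + 1) ^ b) := by
    have h1 := natlog_le (M + 2) (by omega)
    have h2 := half_le_log M
    have h3 := (Nat.ceil_lt_add_one (show 0 ≤ (2 * log ((S.card : ℝ) + 1)) ^ b by positivity)).le
    have h4 : (j0 : ℝ) * (1 / 2) ≤ j0 * log ((M : ℝ) + 2) :=
      mul_le_mul_of_nonneg_left h2 (by positivity)
    have h5 : 0 ≤ log ((S.card : ℝ) + 1) ^ b := by positivity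
    have h6 : 0 ≤ (j0 : ℝ) * log ((S.card : ℝ) + 1) ^ b := by positivity
    have h7 : 0 ≤ (2 : ℝ) ^ b * log ((M : ℝ) + 2) := mul_nonneg (by positivity) (by linarith)
    rw [hJ]
    push_cast at h1 ⊢
    have h8 := mul_pow 2 (log ((S.card : ℝ) + 1)) b
    linarith
  calc _ ≤ exp (∑ p ∈ G, 1 / (p : ℝ) + 2) := prod_le_exp G hGp
    _ ≤ exp (∑' j, g j + 9 + log J) := by
        rw [← sum_filter_add_sum_filter_not G (fun p => p < 2 ^ J)]
        exact exp_le_exp.2 (by linarith)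
    _ = exp (∑' j, g j + 9) * J := by rw [exp_add, exp_log hJ0]
    _ ≤ _ := by rw [mul_assoc]; gcongr

theorem fac_le {n k E : ℕ} (hn : n ≠ 0) (hk : k ≠ 0) (r : ℕ)
    (hr : r ∉ n.primeFactors.filter (fun p => E < n.factorization p)) :
    (k * n).factorization r ≤ E + Nat.log 2 k := by
  rw [Nat.factorization_mul hk hn, Finsupp.add_apply, add_comm]
  refine add_le_add ?_ ?_
  · by_contra h
    refine hr (mem_filter.2 ⟨?_, not_le.1 h⟩)
    rw [← Nat.support_factorization, Finsupp.mem_support_iff]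
    omega
  · by_cases hp : r.Prime
    · exact Nat.le_log_of_pow_le (by norm_num)
        ((Nat.pow_le_pow_left hp.two_le _).trans (Nat.ordProj_le r hk))
    · simp [Nat.factorization_eq_zero_of_not_prime k hp]

theorem crude : ∃ (C : ℝ) (B : ℕ), 1 ≤ C ∧ ∀ n k E : ℕ, n ≠ 0 → ∑ d ∈ n.divisors, d = k * n →
    (E : ℝ) + Nat.log 2 k + 2 ≤ C * (((E : ℝ) + 2) ^ 2 *
      (((n.primeFactors.filter (fun p => E < n.factorization p)).card : ℝ) + 1) ^ B) := by
  classical
  obtain ⟨C, B, hC, hB, h⟩ := gen (ε := 1 / 2) (by norm_num) (by norm_num)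
  refine ⟨4 * C + 36, B, by linarith, fun n k E hn hk => ?_⟩
  have hk0 : k ≠ 0 := by
    rintro rfl
    have := single_le_sum (f := fun d => d) (fun _ _ => Nat.zero_le _)
      (Nat.mem_divisors_self n hn)
    omega
  set S := n.primeFactors.filter (fun p => E < n.factorization p) with hS
  set v := Nat.log 2 k with hv
  have h1 := h n (E + v) S hn (fun r hr => hk ▸ fac_le hn hk0 r hr)
  have hn0 : (0 : ℝ) < n := by exact_mod_cast Nat.pos_of_ne_zero hn
  rw [hk, Nat.cast_mul, mul_comm] at h1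
  replace h1 := le_of_mul_le_mul_left h1 hn0
  set D := n.primeFactors.filter (fun p : ℕ =>
    log p ^ (1 - 1 / 2 : ℝ) < ((n.factorization p + 1).minFac : ℝ)) with hD
  have hDp : ∀ p ∈ D, p.Prime := fun p hp => Nat.prime_of_mem_primeFactors (mem_filter.1 hp).1
  set s : ℝ := (S.card : ℝ) with hs
  have hs0 : 0 ≤ s := by positivity
  have hE0 : (0 : ℝ) ≤ E := by positivity
  have hv0 : (0 : ℝ) ≤ v := by positivity
  have h2 : ∑ p ∈ D, 1 / (p : ℝ) ≤ s + (1 + 2 * ((E : ℝ) + 1) ^ 2) := by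
    have h3 : D ⊆ S ∪ Ioc 0 (3 ^ (E + 1) ^ 2) := by
      intro p hp
      by_cases h4 : E < n.factorization p
      · exact mem_union_left _ (mem_filter.2 ⟨(mem_filter.1 hp).1, h4⟩)
      refine mem_union_right _ (mem_Ioc.2 ⟨(hDp p hp).pos, ?_⟩)
      have h5 : ((n.factorization p + 1).minFac : ℝ) ≤ E + 1 := by
        exact_mod_cast (Nat.minFac_le (by omega)).trans (by omega)
      have h6 := ((mem_filter.1 hp).2.trans_le h5).le
      rw [show (1 - 1 / 2 : ℝ) = 1 / 2 by norm_num, ← sqrt_eq_rpow,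
        sqrt_le_left (by positivity), log_le_iff_le_exp (by exact_mod_cast (hDp p hp).pos)] at h6
      have h7 : exp (((E : ℝ) + 1) ^ 2) ≤ 3 ^ (E + 1) ^ 2 := by
        rw [show ((E : ℝ) + 1) ^ 2 = (((E + 1) ^ 2 : ℕ) : ℝ) * 1 by push_cast; ring, exp_nat_mul]
        exact pow_le_pow_left₀ (exp_pos _).le (by linarith [exp_one_lt_d9]) _
      exact_mod_cast h6.trans h7
    have h4 : ∑ p ∈ S, 1 / (p : ℝ) ≤ s := by
      refine (sum_le_card_nsmul _ _ 1 fun p hp => ?_).trans (by simp [hs])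
      have : (1 : ℝ) ≤ p := by
        exact_mod_cast (Nat.prime_of_mem_primeFactors (mem_filter.1 hp).1).one_le
      exact (div_le_one (by linarith)).2 this
    have h5 := sum_inv_Ioc_le (3 ^ (E + 1) ^ 2)
    have h6 : log ((3 ^ (E + 1) ^ 2 : ℕ) : ℝ) ≤ 2 * ((E : ℝ) + 1) ^ 2 := by
      push_cast
      rw [log_pow, mul_comm]
      push_cast
      refine mul_le_mul_of_nonneg_right ?_ (by positivity)
      linarith [log_le_sub_one_of_pos (x := 3) (by norm_num)]
    have h7 := sum_union_inter (s₁ := S) (s₂ := Ioc 0 (3 ^ (E + 1) ^ 2)) (f := fun p => 1 / (p : ℝ))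
    have h8 : 0 ≤ ∑ p ∈ S ∩ Ioc 0 (3 ^ (E + 1) ^ 2), 1 / (p : ℝ) := by positivity
    have h9 := sum_le_sum_of_subset_of_nonneg (f := fun p : ℕ => 1 / (p : ℝ)) h3
      (fun p _ _ => by positivity)
    linarith
  have h3 := (prod_le_exp D hDp).trans (exp_le_exp.2 (add_le_add_left h2 2))
  set X : ℝ := E + 2 + (s + 1) ^ B with hX
  have hsB : s + 1 ≤ (s + 1) ^ B := le_self_pow₀ (by linarith) (by omega)
  have h4 : log (((E + v : ℕ) : ℝ) + 2) + log (s + 1) ^ B ≤ (v + 1) * X := by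
    have h5 := log_le_sub_one_of_pos (x := ((E + v : ℕ) : ℝ) + 2) (by positivity)
    have h6 : log (s + 1) ^ B ≤ (s + 1) ^ B := pow_le_pow_left₀ (log_nonneg (by linarith))
      (by linarith [log_le_sub_one_of_pos (x := s + 1) (by linarith)]) _
    have h7 : (v : ℝ) * 1 ≤ v * X := mul_le_mul_of_nonneg_left (by linarith) hv0
    push_cast at h5 ⊢
    linarith
  set T : ℝ := C + X + (s + (1 + 2 * ((E : ℝ) + 1) ^ 2) + 2) with hT
  have h5 : (2 : ℝ) ^ v ≤ (v + 1) * exp T := by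
    have h6 : (2 : ℝ) ^ v ≤ k := by exact_mod_cast Nat.pow_log_le_self 2 hk0
    have h7 : C ≤ exp C := by linarith [add_one_le_exp C]
    have h8 : X ≤ exp X := by linarith [add_one_le_exp X]
    have h9 := (prod_pos' D hDp).le
    calc _ ≤ C * ((v + 1) * X) * ∏ p ∈ D, (1 - 1 / (p : ℝ))⁻¹ :=
          h6.trans (h1.trans (by gcongr))
      _ ≤ exp C * ((v + 1) * exp X) * exp (s + (1 + 2 * ((E : ℝ) + 1) ^ 2) + 2) := by gcongr
      _ = _ := by rw [hT, exp_add (C + X), exp_add C]; ring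
  have h6 : ((v : ℝ) + 1) ^ 2 ≤ 4 * 2 ^ v := by
    have : ∀ m : ℕ, (m + 1) ^ 2 ≤ 4 * 2 ^ m := by
      intro m
      induction m with
      | zero => norm_num
      | succ m ih =>
        have : m < 2 ^ m := Nat.lt_two_pow_self
        rw [pow_succ 2 m]
        nlinarith
    exact_mod_cast this v
  have h7 : (2 : ℝ) ^ v ≤ 4 * exp (2 * T) := by
    refine le_of_mul_le_mul_left (a := 2 ^ v) ?_ (by positivity)
    calc (2 : ℝ) ^ v * 2 ^ v ≤ (v + 1) * exp T * ((v + 1) * exp T) := by gcongr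
      _ = (v + 1) ^ 2 * exp (2 * T) := by rw [two_mul T, exp_add T T]; ring
      _ ≤ 4 * 2 ^ v * exp (2 * T) := by gcongr
      _ = _ := by ring
  have h8 : (v : ℝ) ≤ 3 + 4 * T := by
    have h9 := log_le_log (by positivity) h7
    rw [log_pow, log_mul (by norm_num) (exp_pos _).ne', log_exp] at h9
    have h10 : (v : ℝ) * (1 / 2) ≤ v * log 2 :=
      mul_le_mul_of_nonneg_left (by linarith [log_two_gt_d9]) hv0
    linarith [log_four_le]
  set W : ℝ := ((E : ℝ) + 2) ^ 2 * (s + 1) ^ B with hW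
  have h9 : ((E : ℝ) + 2) ^ 2 ≤ W := le_mul_of_one_le_right (by positivity) (by linarith)
  have h10 : (s + 1) ^ B ≤ W := le_mul_of_one_le_left (by positivity) (one_le_pow₀ (by linarith))
  have h11 : ((E : ℝ) + 2) ^ 2 = E ^ 2 + 4 * E + 4 := by ring
  have h12 : ((E : ℝ) + 1) ^ 2 = E ^ 2 + 2 * E + 1 := by ring
  have h13 : (0 : ℝ) ≤ E ^ 2 := by positivity
  have h14 : C * 1 ≤ C * W := mul_le_mul_of_nonneg_left (by linarith) hC.le
  linarith

theorem main {ε : ℝ} (hε : 0 < ε) (hε1 : ε ≤ 1) : ∃ (C : ℝ) (B : ℕ), ∀ n k E s : ℕ, 0 < n →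
    ∑ d ∈ n.divisors, d = k * n →
    (n.primeFactors.filter (fun p => E < n.factorization p)).card ≤ s →
    (k : ℝ) ≤ C * (log ((E : ℝ) + 2) + log ((s : ℝ) + 1) ^ B) *
      ∏ p ∈ n.primeFactors.filter (fun p : ℕ =>
        log p ^ (1 - ε) < ((n.factorization p + 1).minFac : ℝ)), (1 - 1 / (p : ℝ))⁻¹ := by
  classical
  obtain ⟨C, B, hC, hB, h⟩ := gen hε hε1
  obtain ⟨C0, B0, hC0, h0⟩ := crude
  have hlC := log_nonneg hC0
  refine ⟨C * (2 * log C0 + 3 + 3 * B0), B, fun n k E s hn hk hs => ?_⟩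
  have hk0 : k ≠ 0 := by
    rintro rfl
    have := single_le_sum (f := fun d => d) (fun _ _ => Nat.zero_le _)
      (Nat.mem_divisors_self n hn.ne')
    omega
  have h2 := h0 n k E hn.ne' hk
  set S := n.primeFactors.filter (fun p => E < n.factorization p) with hS
  have h1 := h n (E + Nat.log 2 k) S hn.ne' (fun r hr => hk ▸ fac_le hn.ne' hk0 r hr)
  have hn0 : (0 : ℝ) < n := by exact_mod_cast hn
  rw [hk, Nat.cast_mul, mul_comm] at h1
  refine (le_of_mul_le_mul_left h1 hn0).trans (mul_le_mul_of_nonneg_right ?_ (prod_pos' _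
    fun p hp => Nat.prime_of_mem_primeFactors (mem_filter.1 hp).1).le)
  rw [mul_assoc]
  refine mul_le_mul_of_nonneg_left ?_ hC.le
  have h3 : 0 ≤ log ((S.card : ℝ) + 1) :=
    log_nonneg (by linarith [Nat.cast_nonneg (α := ℝ) S.card])
  have h4 : log ((S.card : ℝ) + 1) ≤ log ((s : ℝ) + 1) :=
    log_le_log (by positivity) (by exact_mod_cast Nat.succ_le_succ hs)
  have h5 := pow_le_pow_left₀ h3 h4 B
  have h6 := log_le_log (by positivity) h2
  rw [log_mul (by positivity) (by positivity), log_mul (by positivity) (by positivity), log_pow,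
    log_pow] at h6
  set t := log ((s : ℝ) + 1) with ht
  have ht0 : 0 ≤ t := h3.trans h4
  have h7 : t ≤ 1 + t ^ B := by
    rcases le_total t 1 with h8 | h8
    · have : 0 ≤ t ^ B := by positivity
      linarith
    · linarith [le_self_pow₀ h8 (show B ≠ 0 by omega)]
  have h8 := half_le_log E
  set l := log ((E : ℝ) + 2) with hl
  have h9 : 0 ≤ t ^ B := by positivity
  have hB0 : (0 : ℝ) ≤ B0 := by positivity
  have h10 : (B0 : ℝ) * log ((S.card : ℝ) + 1) ≤ B0 * (2 * l + t ^ B) :=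
    mul_le_mul_of_nonneg_left (by linarith) hB0
  have h11 : log C0 * 1 ≤ log C0 * (2 * l) := mul_le_mul_of_nonneg_left (by linarith) hlC
  have h12 : 0 ≤ log C0 * t ^ B := by positivity
  have h13 : 0 ≤ (B0 : ℝ) * t ^ B := by positivity
  have h14 : 0 ≤ (B0 : ℝ) * l := mul_nonneg hB0 (by linarith)
  push_cast at h6 ⊢
  linarith

end Pool.Agent.P.MP_78d079_nt.Xb
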