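import Pool.Agent.P.MP_45ff98_nt.JA0
import Pool.Agent.P.MP_ad7a55_nt.SgB
import Pool.Agent.P.MP_45ff98_nt.JA2a
import Pool.Agent.P.MP_45ff98_nt.JA1z
import Pool.Agent.P.MP_ad7a55_nt.SgD
import Pool.Agent.P.MP_45ff98_nt.JDefs
import Pool.Agent.P.MP_45ff98_nt.JA2z
import Pool.Agent.Lib.Sieve.Mertens

/-! Copy of the proof of the theorem of Siegel and Walfisz from the files `JA` of MP_45ff98. -/

/-! Upper bound for L-functions near the line of real part one. -/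

namespace Pool.Agent.Jac.Xb
open Finset MeasureTheory Complex

noncomputable section

theorem ja1_core {η : ℝ} (h0 : 0 < η) (h1 : η ≤ 1) {q : ℕ} [NeZero q]
    {χ : DirichletCharacter ℂ q} (hχ : χ ≠ 1) {s : ℂ} (hs : 1 - η / 2 ≤ s.re) {N : ℕ} (hN : 1 ≤ N)
    (hq : ‖s‖ * q ≤ 2 * N) : ‖χ.LFunction s‖ ≤ (6 + 2 / η) * (N : ℝ) ^ η := by
  have hσ : 1 / 2 ≤ s.re := by linarith
  have hσ0 : 0 < s.re := by linarith
  have hs0 : s ≠ 0 := fun h => by
    rw [h, Complex.zero_re] at hσ0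
    exact lt_irrefl _ hσ0
  have hN1 : (1 : ℝ) ≤ N := Nat.one_le_cast.2 hN
  have hN0 : (0 : ℝ) < N := zero_lt_one.trans_le hN1
  have hm : Measurable fun t : ℝ => EQ.sgbA χ ⌊t⌋₊ :=
    (measurable_of_countable (EQ.sgbA χ)).comp Nat.measurable_floor
  have hP : 0 ≤ (N : ℝ) ^ η := Real.rpow_nonneg hN0.le _
  have hW : 0 ≤ (N : ℝ) ^ (-s.re) := Real.rpow_nonneg hN0.le _
  have hpow : (N : ℝ) * (N : ℝ) ^ (-s.re) ≤ (N : ℝ) ^ η := by
    rw [mul_comm, ← Real.rpow_add_one hN0.ne']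
    exact Real.rpow_le_rpow_of_exponent_le hN1 (by linarith)
  have ht := tail_le hm (fun u => EQ.sgb_le_q hχ ⌊u⌋₊) hσ0 hN1
  have ha : s * ∫ u in (1 : ℝ)..N, EQ.sgbA χ ⌊u⌋₊ * (u : ℂ) ^ (-(s + 1)) =
      ∑ n ∈ Icc 1 N, χ (n : ZMod q) * (n : ℂ) ^ (-s) - EQ.sgbA χ N * (N : ℂ) ^ (-s) :=
    abel_core (fun n => χ (n : ZMod q)) hs0 hN
  have hp := psum_le (a := fun n => χ (n : ZMod q)) (fun n => χ.norm_le_one _) h0 hs hN
  have hb : ‖EQ.sgbA χ N * (N : ℂ) ^ (-s)‖ ≤ (N : ℝ) ^ η := by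
    rw [norm_mul, Complex.norm_natCast_cpow_of_pos hN, Complex.neg_re]
    exact (mul_le_mul_of_nonneg_right (EQ.sgb_le_self χ N) hW).trans hpow
  set I1 := ∫ u in Set.Ioi (1 : ℝ), EQ.sgbA χ ⌊u⌋₊ * (u : ℂ) ^ (-(s + 1)) with hI1
  set J := ∫ u in (1 : ℝ)..N, EQ.sgbA χ ⌊u⌋₊ * (u : ℂ) ^ (-(s + 1)) with hJ
  have hc : ‖s * (I1 - J)‖ ≤ 4 * (N : ℝ) ^ η := by
    rw [norm_mul]
    have h2 : (q : ℝ) * (N : ℝ) ^ (-s.re) / s.re ≤ 2 * ((q : ℝ) * (N : ℝ) ^ (-s.re)) := by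
      rw [div_le_iff₀ hσ0]
      have h3 : 0 ≤ (q : ℝ) * (N : ℝ) ^ (-s.re) := mul_nonneg (Nat.cast_nonneg q) hW
      nlinarith
    calc ‖s‖ * ‖I1 - J‖ ≤ ‖s‖ * (2 * ((q : ℝ) * (N : ℝ) ^ (-s.re))) :=
          mul_le_mul_of_nonneg_left (ht.trans h2) (norm_nonneg _)
      _ = 2 * (‖s‖ * q * (N : ℝ) ^ (-s.re)) := by ring
      _ ≤ 2 * (2 * N * (N : ℝ) ^ (-s.re)) := by gcongr
      _ = 4 * ((N : ℝ) * (N : ℝ) ^ (-s.re)) := by ring
      _ ≤ _ := by gcongr
  have he : χ.LFunction s = s * (I1 - J) + s * J := by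
    rw [EQ.sgb_repr hχ hσ0]
    ring
  rw [he, ha]
  have h4 := norm_add_le (s * (I1 - J))
    (∑ n ∈ Icc 1 N, χ (n : ZMod q) * (n : ℂ) ^ (-s) - EQ.sgbA χ N * (N : ℂ) ^ (-s))
  have h5 := norm_sub_le (∑ n ∈ Icc 1 N, χ (n : ZMod q) * (n : ℂ) ^ (-s))
    (EQ.sgbA χ N * (N : ℂ) ^ (-s))
  linarith

theorem L_up {η : ℝ} (h0 : 0 < η) (h1 : η ≤ 1) : ∃ C : ℝ, 1 ≤ C ∧ ∀ (q : ℕ) [NeZero q]
    (χ : DirichletCharacter ℂ q), χ ≠ 1 → ∀ s : ℂ, 1 - η / 2 ≤ s.re → s.re ≤ 4 →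
      ‖χ.LFunction s‖ ≤ C * (q : ℝ) ^ η * (|s.im| + 2) ^ η := by
  have h2 : 0 < 2 / η := by positivity
  refine ⟨2 * (6 + 2 / η), by linarith, fun q _ χ hχ s hs hs' => ?_⟩
  have hq : (1 : ℝ) ≤ q := Nat.one_le_cast.2 (NeZero.pos q)
  have hT : 2 ≤ |s.im| + 2 := by linarith [abs_nonneg s.im]
  set T := |s.im| + 2 with hTd
  have hqT : 1 ≤ (q : ℝ) * T := by nlinarith
  have h3 : (q : ℝ) * T ≤ ⌈(q : ℝ) * T⌉₊ := Nat.le_ceil _
  have h4 : (⌈(q : ℝ) * T⌉₊ : ℝ) ≤ 2 * ((q : ℝ) * T) := by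
    have := Nat.ceil_lt_add_one (zero_le_one.trans hqT)
    linarith
  have h5 : ‖s‖ ≤ 2 * T := by
    have h6 := Complex.norm_le_abs_re_add_abs_im s
    have h7 : |s.re| ≤ 4 := abs_le.2 ⟨by linarith, hs'⟩
    linarith [abs_nonneg s.im]
  have hN : 1 ≤ ⌈(q : ℝ) * T⌉₊ := Nat.one_le_cast.1 (hqT.trans h3)
  refine (ja1_core h0 h1 hχ hs hN (by nlinarith)).trans ?_
  have h8 : (⌈(q : ℝ) * T⌉₊ : ℝ) ^ η ≤ 2 * ((q : ℝ) ^ η * T ^ η) := by
    refine (Real.rpow_le_rpow (Nat.cast_nonneg _) h4 h0.le).trans ?_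
    rw [Real.mul_rpow zero_le_two (zero_le_one.trans hqT),
      Real.mul_rpow (zero_le_one.trans hq) (zero_le_two.trans hT)]
    refine mul_le_mul_of_nonneg_right ?_ (by positivity)
    exact (Real.rpow_le_rpow_of_exponent_le one_le_two h1).trans_eq (Real.rpow_one 2)
  calc (6 + 2 / η) * (⌈(q : ℝ) * T⌉₊ : ℝ) ^ η ≤ (6 + 2 / η) * (2 * ((q : ℝ) ^ η * T ^ η)) :=
        mul_le_mul_of_nonneg_left h8 (by linarith)
    _ = _ := by ring

end

end Pool.Agent.Jac.Xb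

/-! Lower bound for L-functions of complex characters. -/

namespace Pool.Agent.Jac.Xb
open Finset MeasureTheory Complex

noncomputable section

theorem L_low_ne {η : ℝ} (h0 : 0 < η) (h1 : η ≤ 1) : ∃ c : ℝ, 0 < c ∧ ∀ (q : ℕ) [NeZero q]
    (χ : DirichletCharacter ℂ q), χ ≠ 1 → χ ^ 2 ≠ 1 → ∀ σ t : ℝ, 1 ≤ σ → σ ≤ 2 →
      c * ((q : ℝ) ^ (-(6 * η)) * (|t| + 2) ^ (-(6 * η))) ≤ ‖χ.LFunction (σ + t * I)‖ := by
  obtain ⟨C, hC, hup⟩ := L_up h0 h1
  refine ⟨1 / (16 * (8 * C / η) ^ 3 * (16 * C)), by positivity,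
    fun q _ χ hχ hχ2 σ t hσ1 hσ2 => ?_⟩
  have hq : (1 : ℝ) ≤ q := by exact_mod_cast NeZero.one_le
  have ht : (1 : ℝ) ≤ |t| + 2 := by linarith [abs_nonneg t]
  have hQ : 1 ≤ (q : ℝ) ^ η := Real.one_le_rpow hq h0.le
  have hP : 1 ≤ (|t| + 2) ^ η := Real.one_le_rpow ht h0.le
  have e : ∀ y : ℝ, 0 ≤ y → y ^ (-(6 * η)) = 1 / (y ^ η) ^ 6 := fun y hy => by
    rw [Real.rpow_neg hy, one_div, ← Real.rpow_natCast, ← Real.rpow_mul hy, mul_comm]
    norm_num
  have h2 : (|2 * t| + 2) ^ η ≤ 2 * (|t| + 2) ^ η := by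
    calc (|2 * t| + 2) ^ η ≤ (2 * (|t| + 2)) ^ η := by
          refine Real.rpow_le_rpow (by positivity) ?_ h0.le
          rw [abs_mul, abs_two]
          linarith
      _ = 2 ^ η * (|t| + 2) ^ η := Real.mul_rpow (by norm_num) (by positivity)
      _ ≤ 2 * (|t| + 2) ^ η := mul_le_mul_of_nonneg_right
          (Real.rpow_le_self_of_one_le (by norm_num) h1) (by positivity)
  have hL : ∀ a ∈ Set.Icc (1 : ℝ) 2, ∀ b ∈ Set.Icc (1 : ℝ) 2,
      ‖χ.LFunction (a + t * I) - χ.LFunction (b + t * I)‖ ≤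
        8 * C / η * (q : ℝ) ^ η * (|t| + 2) ^ η * |a - b| := fun a ha b hb => by
    have := lip_of_up (f := χ.LFunction) (R := η / 2) (A := C * (q : ℝ) ^ η) (η := η)
      (by positivity) (by linarith) (by positivity) h0.le h1
      (DirichletCharacter.differentiable_LFunction hχ).differentiableOn
      (fun s k1 k2 => hup q χ hχ s k1.le k2) (T := |t|) (s := a + t * I) (w := b + t * I)
      (by simpa using ha) (by simpa using hb)
    refine this.trans (le_of_eq ?_)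
    rw [add_sub_add_right_eq_sub, ← ofReal_sub, norm_real, Real.norm_eq_abs]
    field_simp
    ring
  have h3 : ∀ x : ℝ, 0 < x → x ≤ 1 → x ^ 3 ≤ 16 * C * (q : ℝ) ^ η * (|t| + 2) ^ η *
      ‖χ.LFunction (((1 + x : ℝ) : ℂ) + t * I)‖ ^ 4 := fun x k1 k2 => by
    refine (three_four_one χ k1 k2 t).trans (mul_le_mul_of_nonneg_right ?_ (by positivity))
    have k3 := hup q (χ ^ 2) hχ2 (((1 + x : ℝ) : ℂ) + ((2 * t : ℝ) : ℂ) * I)
      (by simp only [add_re, ofReal_re, mul_re, I_re, ofReal_im, I_im]; linarith)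
      (by simp only [add_re, ofReal_re, mul_re, I_re, ofReal_im, I_im]; linarith)
    have k4 : (((1 + x : ℝ) : ℂ) + ((2 * t : ℝ) : ℂ) * I).im = 2 * t := by simp
    rw [k4] at k3
    have k5 := mul_le_mul_of_nonneg_left h2 (by positivity : 0 ≤ C * (q : ℝ) ^ η)
    linarith
  rw [e _ (by positivity), e _ (by positivity)]
  generalize (q : ℝ) ^ η = Q at hQ hL h3
  generalize (|t| + 2) ^ η = P at hP hL h3
  have hQP : 1 ≤ Q * P := one_le_mul_of_one_le_of_one_le hQ hP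
  have hK : 1 ≤ 8 * C / η := by rw [le_div_iff₀ h0]; linarith
  have h4 := low_abs (g := fun a : ℝ => χ.LFunction (a + t * I)) (M := 8 * C / η * Q * P)
    (M' := 16 * C * Q * P) (by rw [mul_assoc]; exact one_le_mul_of_one_le_of_one_le hK hQP)
    (by rw [mul_assoc]; exact one_le_mul_of_one_le_of_one_le (by linarith) hQP) hL h3 σ ⟨hσ1, hσ2⟩
  refine le_trans ?_ h4
  generalize 8 * C / η = K at hK
  rw [div_mul_div_comm, div_mul_div_comm, one_mul, one_mul]
  refine one_div_le_one_div_of_le (by positivity) ?_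
  have h5 : (Q * P) ^ 4 ≤ (Q * P) ^ 6 := pow_le_pow_right₀ hQP (by norm_num)
  calc 16 * (K * Q * P) ^ 3 * (16 * C * Q * P) = 16 * K ^ 3 * (16 * C) * (Q * P) ^ 4 := by ring
    _ ≤ 16 * K ^ 3 * (16 * C) * (Q * P) ^ 6 := mul_le_mul_of_nonneg_left h5 (by positivity)
    _ = _ := by ring

end

end Pool.Agent.Jac.Xb

/-! Lower bound for L-functions of real characters. -/

namespace Pool.Agent.Jac.Xb
open Finset MeasureTheory Complex

noncomputable section

theorem triv_up {η : ℝ} (h0 : 0 < η) (h1 : η ≤ 1) : ∃ C : ℝ, 1 ≤ C ∧ ∀ (q : ℕ) [NeZero q] (s : ℂ),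
    1 ≤ s.re → s.re ≤ 2 → s.im ≠ 0 → ‖(1 : DirichletCharacter ℂ q).LFunction s‖ ≤
      C * (q : ℝ) ^ η * (1 / |s.im| + (|s.im| + 2) ^ η) := by
  obtain ⟨C1, hC1, h2⟩ := EQ.div_bound h0
  obtain ⟨C2, hC2, h3⟩ := zeta0_up h0 h1
  refine ⟨max 1 C1 * C2, one_le_mul_of_one_le_of_one_le (le_max_left _ _) hC2,
    fun q _ s hs1 hs2 hs => ?_⟩
  have hq : 0 < q := NeZero.pos q
  have hs' : s ≠ 1 := fun e => hs (by simp [e])
  have e : (1 : DirichletCharacter ℂ q).LFunction s =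
      (∏ p ∈ q.primeFactors, (1 - (p : ℂ) ^ (-s))) * riemannZeta s :=
    DirichletCharacter.LFunctionTrivChar_eq_mul_riemannZeta hs'
  have a1 : ‖∏ p ∈ q.primeFactors, (1 - (p : ℂ) ^ (-s))‖ ≤ max 1 C1 * (q : ℝ) ^ η := by
    rw [norm_prod]
    have b1 : ∏ p ∈ q.primeFactors, ‖1 - (p : ℂ) ^ (-s)‖ ≤ ∏ _p ∈ q.primeFactors, (2 : ℝ) := by
      refine Finset.prod_le_prod (fun _ _ => norm_nonneg _) fun p hp => ?_
      have hp' := (Nat.prime_of_mem_primeFactors hp).pos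
      refine (norm_sub_le _ _).trans ?_
      rw [norm_one, norm_natCast_cpow_of_pos hp']
      have : (p : ℝ) ^ (-s).re ≤ 1 :=
        Real.rpow_le_one_of_one_le_of_nonpos (by exact_mod_cast hp') (by rw [neg_re]; linarith)
      linarith
    rw [Finset.prod_const] at b1
    have b2 : (2 : ℝ) ^ q.primeFactors.card ≤ q.divisors.card := by
      exact_mod_cast EQ.two_pow_omega_le hq
    exact b1.trans (b2.trans ((h2 q hq).trans
      (mul_le_mul_of_nonneg_right (le_max_right _ _) (by positivity))))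
  have a2 : ‖riemannZeta s‖ ≤ C2 * (1 / |s.im| + (|s.im| + 2) ^ η) := by
    have hp : 0 < |s.im| := abs_pos.2 hs
    rw [riemannZeta_eq_inv_sub_add hs']
    refine (norm_add_le _ _).trans ?_
    have b1 : ‖(s - 1)⁻¹‖ ≤ 1 / |s.im| := by
      rw [norm_inv, one_div]
      refine inv_anti₀ hp ?_
      have := abs_im_le_norm (s - 1)
      simpa using this
    have b2 := h3 s (by linarith) (by linarith)
    have b3 : 1 / |s.im| ≤ C2 * (1 / |s.im|) := le_mul_of_one_le_left (by positivity) hC2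
    linarith
  rw [e, norm_mul]
  refine (mul_le_mul a1 a2 (norm_nonneg _) (by positivity)).trans (le_of_eq ?_)
  ring

theorem L_near {η : ℝ} (h0 : 0 < η) (h1 : η ≤ 1) : ∃ c : ℝ, 0 < c ∧ c ≤ 1 ∧ ∀ (q : ℕ) [NeZero q]
    (χ : DirichletCharacter ℂ q), χ ≠ 1 → χ ^ 2 = 1 → ∀ σ t : ℝ, 1 ≤ σ → σ ≤ 2 →
      |t| ≤ c * (q : ℝ) ^ (-(2 * η)) →
        c / 2 * (q : ℝ) ^ (-(2 * η)) ≤ ‖χ.LFunction (σ + t * I)‖ := by
  obtain ⟨c0, hc0, h2⟩ := EQ.siegel h0
  obtain ⟨C, hC, h3⟩ := L_up h0 h1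
  have hc : 0 < min 1 (c0 * η / (96 * C)) := lt_min one_pos (by positivity)
  refine ⟨min 1 (c0 * η / (96 * C)), hc, min_le_left _ _, fun q _ χ hχ hχ2 σ t hσ1 hσ2 ht => ?_⟩
  have c1 : min 1 (c0 * η / (96 * C)) ≤ 1 := min_le_left _ _
  have c2 : min 1 (c0 * η / (96 * C)) * (96 * C) ≤ c0 * η :=
    (le_div_iff₀ (by positivity)).1 (min_le_right _ _)
  generalize min 1 (c0 * η / (96 * C)) = c at hc c1 c2 ht ⊢
  have hq : (1 : ℝ) ≤ q := by exact_mod_cast NeZero.pos q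
  have hQ : 1 ≤ (q : ℝ) ^ η := Real.one_le_rpow hq h0.le
  have e2 : (q : ℝ) ^ (-(2 * η)) = (((q : ℝ) ^ η)⁻¹) ^ 2 := by
    rw [Real.rpow_neg (by linarith), mul_comm, Real.rpow_mul (by linarith), Real.rpow_two, inv_pow]
  have h4 := h2 q χ hχ hχ2
  rw [Real.rpow_neg (by linarith)] at h4
  have h5 := lip_of_up (f := χ.LFunction) (R := η / 2) (A := C * (q : ℝ) ^ η) (T := 1)
    (s := σ + t * I) (w := 1) (by positivity) (by linarith) (by positivity) h0.le h1
    (DirichletCharacter.differentiable_LFunction hχ).differentiableOn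
    (fun s a b => h3 q χ hχ s a.le b)
  rw [e2] at ht ⊢
  have hu0 : 0 < ((q : ℝ) ^ η)⁻¹ := by positivity
  have hu1 : ((q : ℝ) ^ η)⁻¹ ≤ 1 := inv_le_one_of_one_le₀ hQ
  have hu2 : (q : ℝ) ^ η * ((q : ℝ) ^ η)⁻¹ = 1 := mul_inv_cancel₀ (by positivity)
  generalize ((q : ℝ) ^ η)⁻¹ = u at ht h4 hu0 hu1 hu2 ⊢
  generalize (q : ℝ) ^ η = Q at h5 hQ hu2
  have hu3 : u ^ 2 ≤ u := by nlinarith
  have hτ : c * u ^ 2 ≤ 1 := by nlinarith
  rcases le_or_gt (σ - 1) (c * u ^ 2) with hx | hx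
  · have h6 := h5 (by simpa using ⟨hσ1, hσ2, ht.trans hτ⟩) (by simp)
    have h7 : ((1 : ℝ) + 2) ^ η ≤ 3 := by
      have := Real.rpow_le_rpow_of_exponent_le (show (1 : ℝ) ≤ 1 + 2 by norm_num) h1
      rw [Real.rpow_one] at this
      linarith
    have h8 : ‖(σ + t * I : ℂ) - 1‖ ≤ 2 * (c * u ^ 2) := by
      refine (norm_le_abs_re_add_abs_im _).trans ?_
      have a1 : ((σ + t * I : ℂ) - 1).re = σ - 1 := by simp
      have a2 : ((σ + t * I : ℂ) - 1).im = t := by simp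
      rw [a1, a2, abs_of_nonneg (by linarith)]
      linarith
    have h9 : 4 * (C * Q) / (η / 2) * ((1 : ℝ) + 2) ^ η * ‖(σ + t * I : ℂ) - 1‖ ≤
        4 * (C * Q) / (η / 2) * 3 * (2 * (c * u ^ 2)) :=
      mul_le_mul (mul_le_mul_of_nonneg_left h7 (by positivity)) h8 (norm_nonneg _) (by positivity)
    have h10 : 4 * (C * Q) / (η / 2) * 3 * (2 * (c * u ^ 2)) ≤ c0 * u / 2 := by
      have a1 : 4 * (C * Q) / (η / 2) * 3 * (2 * (c * u ^ 2)) =
          c * (96 * C) * (Q * u) * u / (2 * η) := by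
        field_simp
        ring
      rw [a1, hu2, mul_one, div_le_div_iff₀ (by positivity) (by norm_num)]
      nlinarith [mul_le_mul_of_nonneg_right c2 hu0.le]
    have h11 := norm_sub_norm_le (χ.LFunction 1) (χ.LFunction (σ + t * I))
    rw [norm_sub_rev] at h11
    have h12 : c ≤ c0 := by
      have a1 : c * 1 ≤ c * (96 * C) := mul_le_mul_of_nonneg_left (by linarith) hc.le
      have a2 : c0 * η ≤ c0 * 1 := mul_le_mul_of_nonneg_left h1 hc0.le
      linarith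
    have h13 : c * u ^ 2 ≤ c0 * u := mul_le_mul h12 hu3 (by positivity) hc0.le
    linarith
  · have hx0 : 0 < σ - 1 := lt_of_le_of_lt (by positivity) hx
    have h6 := three_four_one χ hx0 (by linarith) t
    rw [show 1 + (σ - 1) = σ by ring] at h6
    have h7 := triv_le (χ ^ 2) (s := (σ : ℂ) + ((2 * t : ℝ) : ℂ) * I) (by simp; linarith)
      (by simpa using hσ2)
    rw [show ((σ : ℂ) + ((2 * t : ℝ) : ℂ) * I).re = σ by simp] at h7
    have hL := norm_nonneg (χ.LFunction (σ + t * I))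
    generalize ‖χ.LFunction (σ + t * I)‖ = L at h6 hL ⊢
    generalize σ - 1 = x at hx hx0 h6 h7
    have h8 : x ^ 3 ≤ 8 * (2 / x) * L ^ 4 := h6.trans
      (mul_le_mul_of_nonneg_right (mul_le_mul_of_nonneg_left h7 (by norm_num)) (by positivity))
    have h9 : x ^ 4 ≤ (2 * L) ^ 4 := by
      have a1 := mul_le_mul_of_nonneg_right h8 hx0.le
      have a2 : 8 * (2 / x) * L ^ 4 * x = (2 * L) ^ 4 := by
        field_simp
        norm_num
      rw [a2] at a1
      linarith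
    have h10 : x ≤ 2 * L := le_of_pow_le_pow_left₀ (by norm_num) (by positivity) h9
    linarith

end

end Pool.Agent.Jac.Xb

/-! Lower bound for L-functions. -/

namespace Pool.Agent.Jac.Xb
open Finset MeasureTheory Complex

noncomputable section

theorem ja2d_pow {x : ℝ} (hx : 0 ≤ x) (η : ℝ) (n : ℕ) : x ^ (-(n * η)) = 1 / (x ^ η) ^ n := by
  rw [Real.rpow_neg hx, mul_comm, Real.rpow_mul hx, Real.rpow_natCast, one_div]

theorem ja2d_two {η : ℝ} (h0 : 0 < η) (h1 : η ≤ 1) (t : ℝ) :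
    (|2 * t| + 2) ^ η ≤ 2 * (|t| + 2) ^ η := by
  have h2 : (2 : ℝ) ^ η ≤ 2 := Real.rpow_le_self_of_one_le one_le_two h1
  calc (|2 * t| + 2) ^ η ≤ (2 * (|t| + 2)) ^ η := by
        refine Real.rpow_le_rpow (by positivity) ?_ h0.le
        rw [abs_mul, abs_two]
        linarith
    _ = 2 ^ η * (|t| + 2) ^ η := Real.mul_rpow (by positivity) (by positivity)
    _ ≤ _ := by gcongr

theorem L_low_eq {η : ℝ} (h0 : 0 < η) (h1 : η ≤ 1) : ∃ c : ℝ, 0 < c ∧ ∀ (q : ℕ) [NeZero q]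
    (χ : DirichletCharacter ℂ q), χ ≠ 1 → χ ^ 2 = 1 → ∀ σ t : ℝ, 1 ≤ σ → σ ≤ 2 →
      c * ((q : ℝ) ^ (-(6 * η)) * (|t| + 2) ^ (-(6 * η))) ≤ ‖χ.LFunction (σ + t * I)‖ := by
  obtain ⟨C, hC, hup⟩ := L_up h0 h1
  obtain ⟨C3, hC3, htr⟩ := triv_up h0 h1
  obtain ⟨c, hc, -, hnear⟩ := L_near h0 h1
  obtain ⟨K, hK⟩ : ∃ K, K = 8 * C / η := ⟨_, rfl⟩
  obtain ⟨K', hK'⟩ : ∃ K', K' = 8 * C3 * (1 / (2 * c) + 2) := ⟨_, rfl⟩
  have hK1 : 1 ≤ K := by rw [hK, le_div_iff₀ h0]; linarith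
  have hc2 : 0 < 1 / (2 * c) := by positivity
  have hK1' : 1 ≤ K' := by rw [hK']; nlinarith
  refine ⟨min (c / 2) (1 / (16 * K ^ 3 * K')), by positivity, fun q _ χ hχ hχ2 σ t s1 s2 => ?_⟩
  have hq : (1 : ℝ) ≤ q := Nat.one_le_cast.2 (Nat.pos_of_ne_zero (NeZero.ne q))
  have hT : (1 : ℝ) ≤ |t| + 2 := by linarith [abs_nonneg t]
  have e6 := ja2d_pow (zero_le_one.trans hq) η 6
  have e6' := ja2d_pow (zero_le_one.trans hT) η 6
  have e2 := ja2d_pow (zero_le_one.trans hq) η 2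
  have hQ : 1 ≤ (q : ℝ) ^ η := Real.one_le_rpow hq h0.le
  have hP : 1 ≤ (|t| + 2) ^ η := Real.one_le_rpow hT h0.le
  have h2t := ja2d_two h0 h1 t
  have hn := hnear q χ hχ hχ2 σ t s1 s2
  push_cast at e6 e6' e2
  rw [e2] at hn
  rw [e6, e6']
  have hlip : ∀ a ∈ Set.Icc (1 : ℝ) 2, ∀ b ∈ Set.Icc (1 : ℝ) 2,
      ‖χ.LFunction (a + t * I) - χ.LFunction (b + t * I)‖ ≤
        K * (q : ℝ) ^ η * (|t| + 2) ^ η * |a - b| := by
    intro a ha b hb
    have := lip_of_up (f := χ.LFunction) (R := η / 2) (A := C * (q : ℝ) ^ η) (by positivity)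
      (by linarith) (by positivity) h0.le h1
      (DirichletCharacter.differentiable_LFunction hχ).differentiableOn
      (fun s hs hs' => hup q χ hχ s hs.le hs') (T := |t|) (s := a + t * I) (w := b + t * I)
      (by simpa using ha) (by simpa using hb)
    rw [add_sub_add_right_eq_sub, ← ofReal_sub, norm_real, Real.norm_eq_abs] at this
    refine this.trans (le_of_eq ?_)
    rw [hK]
    field_simp
    ring
  have htv := fun (x : ℝ) (x0 : 0 < x) (x1 : x ≤ 1) (ht : t ≠ 0) =>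
    htr q (((1 + x : ℝ) : ℂ) + ((2 * t : ℝ) : ℂ) * I) (by simp [x0.le]) (by simp; linarith)
      (by simpa using ht)
  generalize (q : ℝ) ^ η = Q at *
  generalize hPt : (|t| + 2) ^ η = P at *
  have hQ0 : 0 < Q := by linarith
  have hP0 : 0 < P := by linarith
  rcases le_or_gt |t| (c * (1 / Q ^ 2)) with ht | ht
  · refine le_trans ?_ (hn ht)
    refine mul_le_mul (min_le_left _ _) ?_ (by positivity) (by positivity)
    rw [one_div_mul_one_div]
    refine one_div_le_one_div_of_le (by positivity) ?_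
    exact (pow_le_pow_right₀ hQ (by norm_num)).trans
      (le_mul_of_one_le_right (by positivity) (one_le_pow₀ hP))
  · have ht0 : 0 < |t| := lt_of_le_of_lt (by positivity) ht
    have h3 : 1 / |2 * t| ≤ 1 / (2 * c) * Q ^ 2 := by
      rw [abs_mul, abs_two, div_le_iff₀ (by positivity)]
      rw [mul_one_div, div_lt_iff₀ (by positivity)] at ht
      rw [show 1 / (2 * c) * Q ^ 2 * (2 * |t|) = |t| * Q ^ 2 / c by field_simp, le_div_iff₀ hc]
      linarith
    have hQ2 : 1 ≤ Q ^ 2 := one_le_pow₀ hQ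
    have h4 : 1 / |2 * t| + (|2 * t| + 2) ^ η ≤ (1 / (2 * c) + 2) * (Q ^ 2 * P) := by
      have := mul_le_mul_of_nonneg_left hP (show 0 ≤ 1 / (2 * c) * Q ^ 2 by positivity)
      have := mul_le_mul_of_nonneg_right hQ2 hP0.le
      nlinarith
    have h5 := low_abs (g := fun a : ℝ => χ.LFunction (a + t * I)) (M := K * Q * P)
      (M' := K' * Q ^ 3 * P) (one_le_mul_of_one_le_of_one_le (one_le_mul_of_one_le_of_one_le hK1 hQ) hP)
      (one_le_mul_of_one_le_of_one_le (one_le_mul_of_one_le_of_one_le hK1' (one_le_pow₀ hQ)) hP)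
      hlip (fun x x0 x1 => ?_) σ ⟨s1, s2⟩
    · refine le_trans ?_ h5
      refine (mul_le_mul_of_nonneg_right (min_le_right _ _) (by positivity)).trans ?_
      rw [one_div_mul_one_div, one_div_mul_one_div]
      refine one_div_le_one_div_of_le (by positivity) ?_
      have : P ^ 4 ≤ P ^ 6 := pow_le_pow_right₀ hP (by norm_num)
      calc 16 * (K * Q * P) ^ 3 * (K' * Q ^ 3 * P) = 16 * K ^ 3 * K' * (Q ^ 6 * P ^ 4) := by ring
        _ ≤ _ := by gcongr
    · refine (three_four_one χ x0 x1 t).trans (mul_le_mul_of_nonneg_right ?_ (by positivity))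
      have h6 := htv x x0 x1 (abs_pos.1 ht0)
      rw [show (((1 + x : ℝ) : ℂ) + ((2 * t : ℝ) : ℂ) * I).im = 2 * t by simp] at h6
      rw [hχ2]
      calc _ ≤ 8 * (C3 * Q * ((1 / (2 * c) + 2) * (Q ^ 2 * P))) := by
            gcongr
            exact h6.trans (by gcongr)
        _ = _ := by rw [hK']; ring

theorem L_low {η : ℝ} (h0 : 0 < η) (h1 : η ≤ 1) : ∃ c : ℝ, 0 < c ∧ ∀ (q : ℕ) [NeZero q]
    (χ : DirichletCharacter ℂ q), χ ≠ 1 → ∀ σ t : ℝ, 1 ≤ σ → σ ≤ 2 →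
      c * (q : ℝ) ^ (-η) * (|t| + 2) ^ (-η) ≤ ‖χ.LFunction (σ + t * I)‖ := by
  obtain ⟨c, hc, h⟩ := L_low_ne (η := η / 6) (by positivity) (by linarith)
  obtain ⟨c', hc', h'⟩ := L_low_eq (η := η / 6) (by positivity) (by linarith)
  have e : 6 * (η / 6) = η := by ring
  rw [e] at h h'
  refine ⟨min c c', lt_min hc hc', fun q _ χ hχ σ t h1 h2 => ?_⟩
  rw [mul_assoc]
  by_cases hq : χ ^ 2 = 1
  · exact (mul_le_mul_of_nonneg_right (min_le_right _ _) (by positivity)).trans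
      (h' q χ hχ hq σ t h1 h2)
  · exact (mul_le_mul_of_nonneg_right (min_le_left _ _) (by positivity)).trans
      (h q χ hχ hq σ t h1 h2)

end

end Pool.Agent.Jac.Xb

/-! Operations on functions that are bounded on small discs. -/

namespace Pool.Agent.Jac.Xb
open Finset MeasureTheory Complex

noncomputable section

theorem ja3a_two_le (t : ℝ) : (2 : ℝ) ≤ |t| + 2 := by
  have := abs_nonneg t
  linarith

theorem ja3a_pos (t η : ℝ) : 0 < (|t| + 2) ^ η :=
  Real.rpow_pos_of_pos (by have := ja3a_two_le t; linarith) η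

theorem ja3a_one_le (t : ℝ) {η : ℝ} (h : 0 ≤ η) : 1 ≤ (|t| + 2) ^ η :=
  Real.one_le_rpow (by have := ja3a_two_le t; linarith) h

theorem ja3a_sub (z : ℂ) {a b : ℝ} (ha : 0 < a) (hab : a ≤ b) :
    Metric.ball z (1 / b) ⊆ Metric.ball z (1 / a) :=
  Metric.ball_subset_ball (one_div_le_one_div_of_le ha hab)

theorem disc_mono {F : ℂ → ℂ} {V V' η η' : ℝ} (h : Disc F V η) (hV : 0 < V) (hV' : V ≤ V')
    (hη : η ≤ η') : Disc F V' η' := by
  intro σ t h1 h2
  have hle : V * (|t| + 2) ^ η ≤ V' * (|t| + 2) ^ η' :=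
    mul_le_mul hV' (Real.rpow_le_rpow_of_exponent_le (by have := ja3a_two_le t; linarith) hη)
      (ja3a_pos t η).le (hV.le.trans hV')
  have hs := ja3a_sub (σ + t * Complex.I) (mul_pos hV (ja3a_pos t η)) hle
  exact ⟨(h σ t h1 h2).1.mono hs, fun s hs' => ((h σ t h1 h2).2 s (hs hs')).trans hle⟩

theorem disc_add {F G : ℂ → ℂ} {V η : ℝ} (h : Disc F V η) (h' : Disc G V η) (hV : 0 < V) :
    Disc (fun s => F s + G s) (2 * V) η := by
  intro σ t h1 h2
  have hp := mul_pos hV (ja3a_pos t η)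
  have hle : V * (|t| + 2) ^ η ≤ 2 * V * (|t| + 2) ^ η := by nlinarith
  have hs := ja3a_sub (σ + t * Complex.I) hp hle
  refine ⟨((h σ t h1 h2).1.mono hs).add ((h' σ t h1 h2).1.mono hs), fun s hs' => ?_⟩
  have a := (h σ t h1 h2).2 s (hs hs')
  have b := (h' σ t h1 h2).2 s (hs hs')
  have c := norm_add_le (F s) (G s)
  linarith

theorem disc_mul {F G : ℂ → ℂ} {V η : ℝ} (h : Disc F V η) (h' : Disc G V η) (hV : 1 ≤ V)
    (hη : 0 ≤ η) : Disc (fun s => F s * G s) (V ^ 2) (2 * η) := by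
  intro σ t h1 h2
  have hT : (0 : ℝ) < |t| + 2 := by have := ja3a_two_le t; linarith
  have e : V ^ 2 * (|t| + 2) ^ (2 * η) = (V * (|t| + 2) ^ η) * (V * (|t| + 2) ^ η) := by
    rw [two_mul, Real.rpow_add hT]
    ring
  have h1' : 1 ≤ V * (|t| + 2) ^ η := one_le_mul_of_one_le_of_one_le hV (ja3a_one_le t hη)
  have hle : V * (|t| + 2) ^ η ≤ V ^ 2 * (|t| + 2) ^ (2 * η) := by
    rw [e]
    nlinarith
  have hs := ja3a_sub (σ + t * Complex.I) (by linarith) hle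
  refine ⟨((h σ t h1 h2).1.mono hs).mul ((h' σ t h1 h2).1.mono hs), fun s hs' => ?_⟩
  have a := (h σ t h1 h2).2 s (hs hs')
  have b := (h' σ t h1 h2).2 s (hs hs')
  rw [e, norm_mul]
  exact mul_le_mul a b (norm_nonneg _) (by linarith)

theorem disc_of_up {f : ℂ → ℂ} {R A η : ℝ} (hR : 0 < R) (hR1 : R ≤ 1) (hA : 1 ≤ A) (h0 : 0 ≤ η)
    (h1 : η ≤ 1) (hf : DifferentiableOn ℂ f {s | 1 - R < s.re})
    (hup : ∀ s : ℂ, 1 - R < s.re → s.re ≤ 4 → ‖f s‖ ≤ A * (|s.im| + 2) ^ η) :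
    Disc f (2 * A / R) η := by
  intro σ t hσ1 hσ2
  have hP := ja3a_one_le t h0
  have hrad : 1 / (2 * A / R * (|t| + 2) ^ η) ≤ R / 2 := by
    have h2 : 2 / R ≤ 2 * A / R * (|t| + 2) ^ η := by
      have a : 2 / R ≤ 2 * A / R := div_le_div_of_nonneg_right (by linarith) hR.le
      have b : 0 < 2 / R := by positivity
      nlinarith
    calc 1 / (2 * A / R * (|t| + 2) ^ η) ≤ 1 / (2 / R) :=
          one_div_le_one_div_of_le (by positivity) h2
      _ = R / 2 := by field_simp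
  have hball : ∀ s ∈ Metric.ball ((σ : ℂ) + t * Complex.I) (1 / (2 * A / R * (|t| + 2) ^ η)),
      1 - R < s.re ∧ s.re ≤ 4 ∧ |s.im| + 2 ≤ 2 * (|t| + 2) := by
    intro s hs
    rw [Metric.mem_ball, dist_eq_norm] at hs
    have hre := Complex.abs_re_le_norm (s - (σ + t * Complex.I))
    have him := Complex.abs_im_le_norm (s - (σ + t * Complex.I))
    have e1 : (s - ((σ : ℂ) + t * Complex.I)).re = s.re - σ := by simp
    have e2 : (s - ((σ : ℂ) + t * Complex.I)).im = s.im - t := by simp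
    rw [e1] at hre
    rw [e2] at him
    have a := abs_le.1 (hre.trans (hs.le.trans hrad))
    have b := him.trans (hs.le.trans hrad)
    have c : |s.im| ≤ |s.im - t| + |t| := by
      have := abs_add_le (s.im - t) t
      rwa [sub_add_cancel] at this
    have d := abs_nonneg t
    refine ⟨by linarith [a.1], by linarith [a.2], by linarith⟩
  refine ⟨hf.mono fun s hs => (hball s hs).1, fun s hs => ?_⟩
  obtain ⟨a, b, c⟩ := hball s hs
  have hT : (0 : ℝ) ≤ |t| + 2 := by have := ja3a_two_le t; linarith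
  have d : (|s.im| + 2) ^ η ≤ 2 * (|t| + 2) ^ η := by
    calc (|s.im| + 2) ^ η ≤ (2 * (|t| + 2)) ^ η :=
          Real.rpow_le_rpow (by have := ja3a_two_le s.im; linarith) c h0
      _ = (2 : ℝ) ^ η * (|t| + 2) ^ η := Real.mul_rpow (by norm_num) hT
      _ ≤ 2 * (|t| + 2) ^ η :=
          mul_le_mul_of_nonneg_right (Real.rpow_le_self_of_one_le (by norm_num) h1) (by linarith)
  have e : 2 * A ≤ 2 * A / R := by
    rw [le_div_iff₀ hR]
    nlinarith
  calc ‖f s‖ ≤ A * (|s.im| + 2) ^ η := hup s a b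
    _ ≤ A * (2 * (|t| + 2) ^ η) := mul_le_mul_of_nonneg_left d (by linarith)
    _ = 2 * A * (|t| + 2) ^ η := by ring
    _ ≤ 2 * A / R * (|t| + 2) ^ η := mul_le_mul_of_nonneg_right e (by linarith)

end

end Pool.Agent.Jac.Xb

/-! Logarithmic derivatives and inverses on small discs. -/

namespace Pool.Agent.Jac.Xb
open Finset MeasureTheory Complex

noncomputable section

theorem disc_lem {f : ℂ → ℂ} {s0 : ℂ} {R M m : ℝ} (hR : 0 < R) (hm : 0 < m)
    (hf : DifferentiableOn ℂ f (Metric.ball s0 R)) (hM : ∀ s ∈ Metric.ball s0 R, ‖f s‖ ≤ M)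
    (h0 : m ≤ ‖f s0‖) :
    ∀ s ∈ Metric.ball s0 (R * m / (8 * M)), m / 2 ≤ ‖f s‖ ∧ ‖deriv f s‖ ≤ 4 * M / R := by
  have hmM : m ≤ M := h0.trans (hM s0 (Metric.mem_ball_self hR))
  have hM0 : 0 < M := hm.trans_le hmM
  have hr : R * m / (8 * M) ≤ R / 2 := by
    rw [div_le_div_iff₀ (by positivity) (by positivity)]
    nlinarith [mul_le_mul_of_nonneg_left hmM hR.le, mul_pos hR hM0]
  have hr0 : 0 < R * m / (8 * M) := by positivity
  have hder : ∀ z ∈ Metric.ball s0 (R / 2), ‖deriv f z‖ ≤ 4 * M / R := by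
    intro z hz
    have hsub : Metric.closedBall z (R / 2) ⊆ Metric.ball s0 R := by
      intro w hw
      rw [Metric.mem_closedBall] at hw
      rw [Metric.mem_ball] at hz ⊢
      linarith [dist_triangle w z s0]
    have h1 := Complex.norm_deriv_le_of_forall_mem_sphere_norm_le (half_pos hR)
      (hf.diffContOnCl_ball hsub) (fun w hw => hM w (hsub (Metric.sphere_subset_closedBall hw)))
    refine h1.trans ?_
    rw [div_le_div_iff₀ (by positivity) hR]
    nlinarith [mul_pos hR hM0]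
  intro s hs
  have hsub2 : Metric.ball s0 (R * m / (8 * M)) ⊆ Metric.ball s0 (R / 2) :=
    Metric.ball_subset_ball hr
  refine ⟨?_, hder s (hsub2 hs)⟩
  have hdiff : ∀ x ∈ Metric.ball s0 (R * m / (8 * M)), DifferentiableAt ℂ f x := fun x hx =>
    hf.differentiableAt (Metric.isOpen_ball.mem_nhds
      (Metric.ball_subset_ball (by linarith) (hsub2 hx)))
  have h2 := (convex_ball s0 (R * m / (8 * M))).norm_image_sub_le_of_norm_deriv_le hdiff
    (fun x hx => hder x (hsub2 hx)) (Metric.mem_ball_self hr0) hs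
  have h3 : ‖s - s0‖ ≤ R * m / (8 * M) := by
    rw [Metric.mem_ball, dist_eq_norm] at hs
    exact hs.le
  have h4 : 4 * M / R * ‖s - s0‖ ≤ m / 2 := by
    refine (mul_le_mul_of_nonneg_left h3 (by positivity)).trans (le_of_eq ?_)
    field_simp
    ring
  have h5 : ‖f s0‖ ≤ ‖f s‖ + ‖f s - f s0‖ := by
    have := norm_sub_le (f s) (f s - f s0)
    rwa [sub_sub_cancel] at this
  linarith

theorem ja3_two {η : ℝ} (h1 : η ≤ 1) : (2 : ℝ) ^ η ≤ 2 := by
  have := Real.rpow_le_rpow_of_exponent_le (by norm_num : (1 : ℝ) ≤ 2) h1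
  rwa [Real.rpow_one] at this

theorem disc_of_low {f : ℂ → ℂ} {R A a η : ℝ} (hR : 0 < R) (hR1 : R ≤ 1) (hA : 1 ≤ A)
    (ha : 0 < a) (h0 : 0 ≤ η) (h1 : η ≤ 1) (hf : DifferentiableOn ℂ f {s | 1 - R < s.re})
    (hup : ∀ s : ℂ, 1 - R < s.re → s.re ≤ 4 → ‖f s‖ ≤ A * (|s.im| + 2) ^ η)
    (hlo : ∀ σ t : ℝ, 1 ≤ σ → σ ≤ 2 → a * (|t| + 2) ^ (-η) ≤ ‖f (σ + t * I)‖) :
    1 ≤ 16 * A / (R * a) ∧ Disc (fun s => -deriv f s / f s) (16 * A / (R * a)) (2 * η) ∧
      Disc (fun s => (f s)⁻¹) (16 * A / (R * a)) (2 * η) := by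
  have hA0 : 0 < A := by linarith
  have key : ∀ σ t : ℝ, 1 ≤ σ → σ ≤ 2 → ∃ P : ℝ, 1 ≤ P ∧ (|t| + 2) ^ (2 * η) = P ^ 2 ∧
      a / P ≤ 2 * A * P ∧
      DifferentiableOn ℂ f (Metric.ball (σ + t * I) (1 / (16 * A / (R * a) * P ^ 2))) ∧
      ∀ s ∈ Metric.ball ((σ : ℂ) + t * I) (1 / (16 * A / (R * a) * P ^ 2)),
        a / P / 2 ≤ ‖f s‖ ∧ ‖deriv f s‖ ≤ 4 * (2 * A * P) / R := by
    intro σ t hσ1 hσ2
    have hT : (2 : ℝ) ≤ |t| + 2 := by linarith [abs_nonneg t]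
    have hT0 : (0 : ℝ) < |t| + 2 := by linarith
    set P := (|t| + 2) ^ η with hPdef
    have hP : 1 ≤ P := Real.one_le_rpow (by linarith) h0
    have hP0 : 0 < P := by linarith
    have hin : ∀ s ∈ Metric.ball ((σ : ℂ) + t * I) R,
        1 - R < s.re ∧ s.re ≤ 4 ∧ |s.im| + 2 ≤ 2 * (|t| + 2) := by
      intro s hs
      rw [Metric.mem_ball, dist_eq_norm] at hs
      have e1 := (abs_re_le_norm (s - (σ + t * I))).trans_lt hs
      have e2 := (abs_im_le_norm (s - (σ + t * I))).trans_lt hs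
      simp only [sub_re, add_re, ofReal_re, mul_re, I_re, mul_zero, ofReal_im, I_im, mul_one,
        sub_self, add_zero, sub_im, add_im, mul_im, zero_add] at e1 e2
      have e3 := abs_lt.1 e1
      have e4 : |s.im| ≤ |s.im - t| + |t| := by
        have := abs_add_le (s.im - t) t
        rwa [sub_add_cancel] at this
      refine ⟨by linarith [e3.1], by linarith [e3.2], by linarith [abs_nonneg t]⟩
    have hfb : DifferentiableOn ℂ f (Metric.ball ((σ : ℂ) + t * I) R) :=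
      hf.mono fun s hs => (hin s hs).1
    have hM : ∀ s ∈ Metric.ball ((σ : ℂ) + t * I) R, ‖f s‖ ≤ 2 * A * P := by
      intro s hs
      obtain ⟨e1, e2, e3⟩ := hin s hs
      refine (hup s e1 e2).trans ?_
      have e4 : (|s.im| + 2) ^ η ≤ (2 * (|t| + 2)) ^ η :=
        Real.rpow_le_rpow (by positivity) e3 h0
      rw [Real.mul_rpow (by norm_num) hT0.le] at e4
      have e5 : (2 : ℝ) ^ η * P ≤ 2 * P := mul_le_mul_of_nonneg_right (ja3_two h1) hP0.le
      nlinarith [mul_le_mul_of_nonneg_left (e4.trans e5) hA0.le]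
    have hm : a / P ≤ ‖f (σ + t * I)‖ := by
      have := hlo σ t hσ1 hσ2
      rwa [Real.rpow_neg hT0.le, ← div_eq_mul_inv] at this
    have hle : a / P ≤ 2 * A * P := hm.trans (hM _ (Metric.mem_ball_self hR))
    have hrad : R * (a / P) / (8 * (2 * A * P)) = 1 / (16 * A / (R * a) * P ^ 2) := by
      field_simp
      ring
    have hl := disc_lem hR (div_pos ha hP0) hfb hM hm
    rw [hrad] at hl
    refine ⟨P, hP, ?_, hle, hfb.mono (Metric.ball_subset_ball ?_), hl⟩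
    · rw [hPdef, mul_comm 2 η, Real.rpow_mul hT0.le, Real.rpow_two]
    · rw [← hrad, div_le_iff₀ (by positivity)]
      nlinarith [mul_le_mul_of_nonneg_left hle hR.le, mul_pos hR (mul_pos hA0 hP0)]
  refine ⟨?_, ?_, ?_⟩
  · have e1 := hlo 1 0 le_rfl (by norm_num)
    have e2 := hup ((1 : ℝ) + (0 : ℝ) * I) (by simp; linarith) (by simp)
    have e3 := e1.trans e2
    simp only [abs_zero, zero_add, ofReal_one, ofReal_zero, zero_mul, add_zero, one_im] at e3
    have e0 : (0 : ℝ) < (2 : ℝ) ^ η := by positivity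
    rw [Real.rpow_neg (by norm_num), ← div_eq_mul_inv, div_le_iff₀ e0] at e3
    have e4 := ja3_two h1
    have e5 : (2 : ℝ) ^ η * 2 ^ η ≤ 4 := by nlinarith
    have e6 : a ≤ 4 * A := by nlinarith [mul_le_mul_of_nonneg_left e5 hA0.le]
    rw [le_div_iff₀ (by positivity)]
    nlinarith [mul_le_mul_of_nonneg_right hR1 ha.le]
  · intro σ t hσ1 hσ2
    obtain ⟨P, hP, hP2, -, hd, hb⟩ := key σ t hσ1 hσ2
    have hP0 : 0 < P := by linarith
    rw [hP2]
    have hne : ∀ s ∈ Metric.ball ((σ : ℂ) + t * I) (1 / (16 * A / (R * a) * P ^ 2)), f s ≠ 0 := by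
      intro s hs
      have : 0 < a / P / 2 := by positivity
      exact norm_pos_iff.1 (this.trans_le (hb s hs).1)
    refine ⟨((hd.deriv Metric.isOpen_ball).neg).div hd hne, fun s hs => ?_⟩
    obtain ⟨e1, e2⟩ := hb s hs
    rw [norm_div, norm_neg]
    refine (div_le_div₀ (by positivity) e2 (by positivity) e1).trans (le_of_eq ?_)
    field_simp
    ring
  · intro σ t hσ1 hσ2
    obtain ⟨P, hP, hP2, -, hd, hb⟩ := key σ t hσ1 hσ2
    have hP0 : 0 < P := by linarith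
    rw [hP2]
    have hne : ∀ s ∈ Metric.ball ((σ : ℂ) + t * I) (1 / (16 * A / (R * a) * P ^ 2)), f s ≠ 0 := by
      intro s hs
      have : 0 < a / P / 2 := by positivity
      exact norm_pos_iff.1 (this.trans_le (hb s hs).1)
    refine ⟨hd.inv hne, fun s hs => ?_⟩
    obtain ⟨e1, -⟩ := hb s hs
    rw [norm_inv]
    refine (inv_anti₀ (by positivity) e1).trans ?_
    have e2 : (a / P / 2)⁻¹ = 2 * P / a := by field_simp
    have e3 : 16 * A / (R * a) * P ^ 2 = 16 * A * P ^ 2 / R / a := by field_simp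
    rw [e2, e3]
    refine div_le_div_of_nonneg_right ?_ ha.le
    rw [le_div_iff₀ hR]
    have e4 : P ≤ P ^ 2 := by nlinarith
    have e5 : P ^ 2 ≤ A * P ^ 2 := by nlinarith
    nlinarith [mul_le_mul_of_nonneg_left hR1 hP0.le]

end

end Pool.Agent.Jac.Xb

/-! The kernel of the Riesz mean. -/

namespace Pool.Agent.Jac.Xb
open Finset MeasureTheory Complex

noncomputable section

theorem ja4a_ne {σ : ℝ} (hσ : 0 < σ) (t : ℝ) :
    ((σ : ℂ) + t * I) ≠ 0 ∧ ((σ : ℂ) + t * I + 1) ≠ 0 := by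
  constructor
  · intro h
    have := congrArg Complex.re h
    simp at this
    linarith
  · intro h
    have := congrArg Complex.re h
    simp at this
    linarith

theorem ja4a_mellin {s : ℂ} (hs : 0 < s.re) :
    HasMellin (fun v : ℝ => ((max (1 - v) 0 : ℝ) : ℂ)) s (1 / (s * (s + 1))) := by
  have h1 := hasMellin_one_Ioc hs
  have h2 := hasMellin_cpow_Ioc 1 (s := s) (by simp; linarith)
  have h3 := hasMellin_sub h1.1 h2.1
  rw [h1.2, h2.2] at h3
  have hs0 : s ≠ 0 := by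
    intro h; rw [h] at hs; simp at hs
  have hs1 : s + 1 ≠ 0 := by
    intro h
    have := congrArg Complex.re h
    simp at this
    linarith
  have e : 1 / s - 1 / (s + 1) = 1 / (s * (s + 1)) := by field_simp; ring
  rw [e] at h3
  have key : ∀ v ∈ Set.Ioi (0 : ℝ), (v : ℂ) ^ (s - 1) •
      (Set.indicator (Set.Ioc 0 1) (fun _ => 1 : ℝ → ℂ) v -
        Set.indicator (Set.Ioc 0 1) (fun t => (t : ℂ) ^ (1 : ℂ) : ℝ → ℂ) v) =
      (v : ℂ) ^ (s - 1) • ((max (1 - v) 0 : ℝ) : ℂ) := by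
    intro v hv
    congr 1
    by_cases h : v ≤ 1
    · have hm : v ∈ Set.Ioc (0 : ℝ) 1 := ⟨hv, h⟩
      rw [Set.indicator_of_mem hm, Set.indicator_of_mem hm, max_eq_left (by linarith), cpow_one]
      push_cast
      rfl
    · have hm : v ∉ Set.Ioc (0 : ℝ) 1 := fun g => h g.2
      rw [Set.indicator_of_notMem hm, Set.indicator_of_notMem hm,
        max_eq_right (by linarith [not_le.1 h])]
      simp
  refine ⟨?_, ?_⟩
  · exact IntegrableOn.congr_fun h3.1 key measurableSet_Ioi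
  · rw [← h3.2]
    exact (setIntegral_congr_fun measurableSet_Ioi key).symm

theorem ker_int {σ : ℝ} (hσ : 0 < σ) :
    Integrable fun t : ℝ => 1 / (((σ : ℂ) + t * I) * (σ + t * I + 1)) := by
  have hc : Continuous fun t : ℝ => 1 / (((σ : ℂ) + t * I) * (σ + t * I + 1)) := by
    refine Continuous.div continuous_const (by fun_prop) fun t => ?_
    exact mul_ne_zero (ja4a_ne hσ t).1 (ja4a_ne hσ t).2
  have hm : 0 < min (σ ^ 2) 1 := lt_min (by positivity) one_pos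
  refine (integrable_inv_one_add_sq.const_mul (min (σ ^ 2) 1)⁻¹).mono'
    hc.aestronglyMeasurable (Filter.Eventually.of_forall fun t => ?_)
  have h1 : ‖(σ : ℂ) + t * I‖ ^ 2 = σ ^ 2 + t ^ 2 := by
    rw [Complex.sq_norm, Complex.normSq_add_mul_I]
  have h2 : ‖(σ : ℂ) + t * I + 1‖ ^ 2 = (σ + 1) ^ 2 + t ^ 2 := by
    have : (σ : ℂ) + t * I + 1 = ((σ + 1 : ℝ) : ℂ) + t * I := by push_cast; ring
    rw [this, Complex.sq_norm, Complex.normSq_add_mul_I]
  have h3 : ‖(σ : ℂ) + t * I‖ ≤ ‖(σ : ℂ) + t * I + 1‖ := by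
    refine le_of_sq_le_sq ?_ (norm_nonneg _) |>.trans le_rfl
    rw [h1, h2]; nlinarith
  have h4 : min (σ ^ 2) 1 * (1 + t ^ 2) ≤ ‖(σ : ℂ) + t * I‖ * ‖(σ : ℂ) + t * I + 1‖ := by
    have a1 : min (σ ^ 2) 1 ≤ σ ^ 2 := min_le_left _ _
    have a2 : min (σ ^ 2) 1 ≤ 1 := min_le_right _ _
    have a3 : min (σ ^ 2) 1 * (1 + t ^ 2) ≤ σ ^ 2 + t ^ 2 := by nlinarith [sq_nonneg t]
    have a4 := mul_le_mul_of_nonneg_left h3 (norm_nonneg ((σ : ℂ) + t * I))
    nlinarith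
  rw [norm_div, norm_one, norm_mul, ← mul_inv, one_div]
  exact inv_anti₀ (by positivity) h4

theorem riesz_kernel {σ u : ℝ} (hσ : 0 < σ) (hu : 0 < u) :
    ((max (1 - u) 0 : ℝ) : ℂ) = 1 / (2 * Real.pi) *
      ∫ t : ℝ, (u : ℂ) ^ (-((σ : ℂ) + t * I)) * (1 / (((σ : ℂ) + t * I) * (σ + t * I + 1))) := by
  have hre : ∀ t : ℝ, 0 < ((σ : ℂ) + t * I).re := fun t => by simpa using hσ
  have hm : ∀ t : ℝ, mellin (fun v : ℝ => ((max (1 - v) 0 : ℝ) : ℂ)) ((σ : ℂ) + t * I) =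
      1 / (((σ : ℂ) + t * I) * (σ + t * I + 1)) := fun t => (ja4a_mellin (hre t)).2
  have hc : Continuous fun v : ℝ => ((max (1 - v) 0 : ℝ) : ℂ) := by fun_prop
  have h := mellinInv_mellin_eq σ (fun v : ℝ => ((max (1 - v) 0 : ℝ) : ℂ)) hu
    (ja4a_mellin (s := σ) (by simpa using hσ)).1
    (by
      unfold VerticalIntegrable
      simp only [hm]
      exact ker_int hσ) hc.continuousAt
  rw [← h, mellinInv]
  simp only [hm, smul_eq_mul, Complex.real_smul]
  push_cast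
  rfl

end

end Pool.Agent.Jac.Xb

/-! The Riesz mean as an integral. -/

namespace Pool.Agent.Jac.Xb
open Finset MeasureTheory Complex

noncomputable section

theorem ja4_term (a : ℕ → ℂ) {x : ℝ} (hx : 0 < x) (s : ℂ) {n : ℕ} (hn : n ≠ 0) :
    (x : ℂ) ^ s * LSeries.term a s n = a n * (((n : ℝ) / x : ℝ) : ℂ) ^ (-s) := by
  rw [LSeries.term_of_ne_zero hn, ofReal_div, div_cpow_ofReal_nonneg (Nat.cast_nonneg n) hx.le,
    cpow_neg, cpow_neg, ofReal_natCast, inv_div_inv]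
  ring

theorem ja4_norm (a : ℕ → ℂ) (σ t : ℝ) {x : ℝ} (hx : 0 < x) (n : ℕ) :
    ‖(x : ℂ) ^ ((σ : ℂ) + t * I) * LSeries.term a (σ + t * I) n‖ =
      x ^ σ * ‖LSeries.term a σ n‖ := by
  rw [norm_mul, norm_cpow_eq_rpow_re_of_pos hx, LSeries.norm_term_eq, LSeries.norm_term_eq]
  simp

theorem ja4_cont (a : ℕ → ℂ) (σ : ℝ) {x : ℝ} (hx : 0 < x) (n : ℕ) :
    Continuous fun t : ℝ => (x : ℂ) ^ ((σ : ℂ) + t * I) * LSeries.term a (σ + t * I) n := by
  rcases eq_or_ne n 0 with rfl | hn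
  · simp only [LSeries.term_zero, mul_zero]
    exact continuous_const
  · simp only [ja4_term a hx _ hn]
    have h : (((n : ℝ) / x : ℝ) : ℂ) ≠ 0 :=
      ofReal_ne_zero.2 (div_pos (Nat.cast_pos.2 (Nat.pos_of_ne_zero hn)) hx).ne'
    exact continuous_const.mul (Continuous.const_cpow (by fun_prop) (Or.inl h))

theorem riesz {a : ℕ → ℂ} {σ x : ℝ} (hσ : 0 < σ) (hx : 0 < x) (ha : LSeriesSummable a σ) :
    ∑ n ∈ Icc 1 ⌊x⌋₊, a n * (1 - (n : ℂ) / x) = 1 / (2 * Real.pi) *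
      ∫ t : ℝ, (x : ℂ) ^ ((σ : ℂ) + t * I) *
        (LSeries a (σ + t * I) / (((σ : ℂ) + t * I) * (σ + t * I + 1))) := by
  have hK := ker_int hσ
  have h1 := hasSum_integral_of_summable_integral_norm (μ := volume)
    (F := fun (n : ℕ) (t : ℝ) => (x : ℂ) ^ ((σ : ℂ) + t * I) * LSeries.term a (σ + t * I) n *
      (1 / (((σ : ℂ) + t * I) * (σ + t * I + 1))))
    (fun n => hK.bdd_mul (ja4_cont a σ hx n).aestronglyMeasurable
      (Filter.Eventually.of_forall fun t => (ja4_norm a σ t hx n).le)) (by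
      simp only [norm_mul _ (1 / _ : ℂ), ja4_norm a σ _ hx, integral_const_mul]
      exact (ha.norm.mul_left _).mul_right _)
  have h2 := h1.mul_left (1 / (2 * Real.pi) : ℂ)
  have h3 : ∀ n : ℕ, (1 / (2 * Real.pi) : ℂ) * ∫ t : ℝ, (x : ℂ) ^ ((σ : ℂ) + t * I) *
      LSeries.term a (σ + t * I) n * (1 / (((σ : ℂ) + t * I) * (σ + t * I + 1))) =
      if n ∈ Icc 1 ⌊x⌋₊ then a n * (1 - (n : ℂ) / x) else 0 := by
    intro n
    rcases eq_or_ne n 0 with rfl | hn
    · simp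
    · have hp : 0 < (n : ℝ) / x := div_pos (Nat.cast_pos.2 (Nat.pos_of_ne_zero hn)) hx
      simp only [ja4_term a hx _ hn, mul_assoc (a n), integral_const_mul]
      rw [mul_left_comm, ← riesz_kernel hσ hp]
      split_ifs with h
      · have h4 : (n : ℝ) ≤ x := (Nat.le_floor_iff hx.le).1 (mem_Icc.1 h).2
        rw [max_eq_left (sub_nonneg.2 ((div_le_one hx).2 h4))]
        push_cast
        rfl
      · have h4 : x ≤ n := by
          by_contra h5
          exact h (mem_Icc.2 ⟨Nat.pos_of_ne_zero hn,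
            (Nat.le_floor_iff hx.le).2 (not_le.1 h5).le⟩)
        rw [max_eq_right (sub_nonpos.2 ((one_le_div hx).2 h4)), ofReal_zero, mul_zero]
  simp only [h3] at h2
  have h4 : HasSum (fun n : ℕ => if n ∈ Icc 1 ⌊x⌋₊ then a n * (1 - (n : ℂ) / x) else 0)
      (∑ n ∈ Icc 1 ⌊x⌋₊, if n ∈ Icc 1 ⌊x⌋₊ then a n * (1 - (n : ℂ) / x) else 0) :=
    hasSum_sum_of_ne_finset_zero fun n hn => if_neg hn
  rw [sum_congr rfl fun n hn => if_pos hn] at h4
  rw [h4.unique h2]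
  congr 2
  funext t
  rw [tsum_mul_right, tsum_mul_left, LSeries]
  ring

end

end Pool.Agent.Jac.Xb

/-! Repeated integration by parts on a vertical line. -/

namespace Pool.Agent.Jac.Xb
open Finset MeasureTheory Complex

noncomputable section

theorem ja5a_norm (l t : ℝ) : ‖Complex.exp (l * t * I)‖ = 1 := by
  rw [← Complex.ofReal_mul, Complex.norm_exp_ofReal_mul_I]

theorem ja5a_deriv (l t : ℝ) : HasDerivAt (fun t : ℝ => Complex.exp (l * t * I))
    (l * I * Complex.exp (l * t * I)) t := by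
  have h1 : HasDerivAt (fun z : ℂ => Complex.exp (l * z * I))
      (Complex.exp (l * t * I) * (l * 1 * I)) (t : ℂ) :=
    (((hasDerivAt_id (t : ℂ)).const_mul (l : ℂ)).mul_const I).cexp
  have h2 := h1.comp_ofReal
  rw [mul_one, mul_comm] at h2
  exact h2

theorem ja5a_int (l : ℝ) {g : ℝ → ℂ} (hg : Integrable g) :
    Integrable fun t : ℝ => Complex.exp (l * t * I) * g t := by
  refine hg.bdd_mul (c := 1) ?_ (Filter.Eventually.of_forall fun t => (ja5a_norm l t).le)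
  exact (by fun_prop : Continuous fun t : ℝ => Complex.exp (l * t * I)).aestronglyMeasurable

theorem ja5a_step (l : ℝ) {g g' : ℝ → ℂ} (hd : ∀ t, HasDerivAt g (g' t) t) (hg : Integrable g)
    (hg' : Integrable g') : ∫ t : ℝ, Complex.exp (l * t * I) * g' t =
      -(l * I * ∫ t : ℝ, Complex.exp (l * t * I) * g t) := by
  have h0 : (fun t : ℝ => l * I * Complex.exp (l * t * I) * g t) =
      fun t : ℝ => l * I * (Complex.exp (l * t * I) * g t) := by
    funext t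
    ring
  have h := integral_mul_deriv_eq_deriv_mul_of_integrable
    (u := fun t : ℝ => Complex.exp (l * t * I)) (v := g)
    (u' := fun t : ℝ => l * I * Complex.exp (l * t * I)) (v' := g')
    (fun t _ => ja5a_deriv l t) (fun t _ => hd t) (ja5a_int l hg')
    (by
      change Integrable fun t : ℝ => l * I * Complex.exp (l * t * I) * g t
      rw [h0]
      exact (ja5a_int l hg).const_mul _)
    (ja5a_int l hg)
  rw [h, h0, integral_const_mul]

theorem parts {G : ℕ → ℝ → ℂ} {K : ℕ} (hd : ∀ n < K, ∀ t, HasDerivAt (G n) (G (n + 1) t) t)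
    (hi : ∀ n ≤ K, Integrable (G n)) {l : ℝ} (hl : 0 < l) :
    ‖∫ t : ℝ, Complex.exp (l * t * I) * G 0 t‖ ≤ (∫ t, ‖G K t‖) / l ^ K := by
  have key : ∀ n ≤ K, l ^ n * ‖∫ t : ℝ, Complex.exp (l * t * I) * G 0 t‖ =
      ‖∫ t : ℝ, Complex.exp (l * t * I) * G n t‖ := by
    intro n
    induction n with
    | zero => intro _; rw [pow_zero, one_mul]
    | succ n ih =>
      intro hn
      rw [ja5a_step l (hd n (by omega)) (hi n (by omega)) (hi (n + 1) hn), norm_neg, norm_mul,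
        norm_mul, Complex.norm_I, mul_one, Complex.norm_real, Real.norm_of_nonneg hl.le,
        ← ih (by omega)]
      ring
  rw [le_div_iff₀ (pow_pos hl K), mul_comm, key K le_rfl]
  refine (norm_integral_le_integral_norm _).trans (le_of_eq ?_)
  refine integral_congr_ae (Filter.Eventually.of_forall fun t => ?_)
  simp only [norm_mul, ja5a_norm, one_mul]

theorem line_deriv {H : ℂ → ℂ} {σ : ℝ} (hH : ∀ t : ℝ, AnalyticAt ℂ H (σ + t * I)) (n : ℕ)
    (t : ℝ) : HasDerivAt (fun u : ℝ => I ^ n * iteratedDeriv n H (σ + u * I))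
      (I ^ (n + 1) * iteratedDeriv (n + 1) H (σ + t * I)) t := by
  have h1 : AnalyticAt ℂ (iteratedDeriv n H) (σ + t * I) := by
    rw [iteratedDeriv_eq_iterate]
    exact (hH t).iterated_deriv n
  have h2 : HasDerivAt (iteratedDeriv n H) (iteratedDeriv (n + 1) H (σ + t * I)) (σ + t * I) := by
    rw [iteratedDeriv_succ]
    exact h1.differentiableAt.hasDerivAt
  have h3 : HasDerivAt (fun z : ℂ => (σ : ℂ) + z * I) (1 * I) (t : ℂ) :=
    ((hasDerivAt_id (t : ℂ)).mul_const I).const_add (σ : ℂ)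
  have h4 := ((HasDerivAt.comp (t : ℂ) h2 h3).const_mul (I ^ n)).comp_ofReal
  have e : I ^ (n + 1) * iteratedDeriv (n + 1) H (σ + t * I) =
      I ^ n * (iteratedDeriv (n + 1) H (σ + t * I) * (1 * I)) := by ring
  rw [e]
  exact h4

end

end Pool.Agent.Jac.Xb

/-! Cauchy estimates on the small discs. -/

namespace Pool.Agent.Jac.Xb
open Finset MeasureTheory Complex

noncomputable section

theorem ja5b_low {w : ℂ} {t : ℝ} (h1 : 1 / 2 ≤ w.re) (h2 : |t| - 1 / 2 ≤ |w.im|) :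
    (|t| + 2) / 6 ≤ ‖w‖ := by
  have a1 : w.re ≤ ‖w‖ := Complex.re_le_norm w
  have a2 : |w.im| ≤ ‖w‖ := Complex.abs_im_le_norm w
  rcases le_total |t| 1 with h | h <;> linarith

theorem ja5b_near {σ t r : ℝ} {z : ℂ} (hz : ‖z - (σ + t * I)‖ ≤ r) :
    σ - r ≤ z.re ∧ |t| - r ≤ |z.im| := by
  have a1 := (Complex.abs_re_le_norm (z - (σ + t * I))).trans hz
  have a2 := (Complex.abs_im_le_norm (z - (σ + t * I))).trans hz
  simp only [Complex.sub_re, Complex.add_re, Complex.ofReal_re, Complex.mul_re, Complex.I_re,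
    mul_zero, Complex.ofReal_im, Complex.I_im, mul_one, sub_self, add_zero, Complex.sub_im,
    Complex.add_im, Complex.mul_im, zero_add] at a1 a2
  refine ⟨by linarith [(abs_le.1 a1).1], ?_⟩
  have := abs_sub_abs_le_abs_sub t z.im
  rw [abs_sub_comm] at this
  linarith

theorem disc_cauchy {F : ℂ → ℂ} {V η : ℝ} (h : Disc F V η) (hV : 1 ≤ V) (h0 : 0 ≤ η) {σ : ℝ}
    (h1 : 1 ≤ σ) (h2 : σ ≤ 2) (t : ℝ) :
    AnalyticAt ℂ (fun s => F s / (s * (s + 1))) (σ + t * I) ∧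
      ∀ n : ℕ, ‖iteratedDeriv n (fun s => F s / (s * (s + 1))) (σ + t * I)‖ ≤
        36 * n.factorial * 2 ^ n * V ^ (n + 1) * (|t| + 2) ^ (η * (n + 1) - 2) := by
  obtain ⟨hd, hb⟩ := h σ t h1 h2
  have hT : (2 : ℝ) ≤ |t| + 2 := by linarith [abs_nonneg t]
  have hT0 : (0 : ℝ) < |t| + 2 := by linarith
  have hP : 1 ≤ (|t| + 2) ^ η := Real.one_le_rpow (by linarith) h0
  set W := V * (|t| + 2) ^ η with hW
  have hW1 : 1 ≤ W := one_le_mul_of_one_le_of_one_le hV hP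
  have hW0 : 0 < W := by linarith
  have hr1 : 1 / W ≤ 1 := by rw [div_le_one hW0]; exact hW1
  have hq : DifferentiableOn ℂ (fun s => F s / (s * (s + 1)))
      (Metric.ball (σ + t * I : ℂ) (1 / W)) := by
    refine hd.div (by fun_prop) fun z hz => ?_
    have hz' : ‖z - (σ + t * I)‖ < 1 / W := by simpa [dist_eq_norm] using hz
    have a1 := (Complex.abs_re_le_norm (z - (σ + t * I))).trans_lt hz'
    simp only [Complex.sub_re, Complex.add_re, Complex.ofReal_re, Complex.mul_re, Complex.I_re,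
      mul_zero, Complex.ofReal_im, Complex.I_im, mul_one, sub_self, add_zero] at a1
    have hre : 0 < z.re := by linarith [(abs_lt.1 a1).1]
    refine mul_ne_zero (fun e => ?_) fun e => ?_
    · rw [e] at hre; simp at hre
    · have := congrArg Complex.re e
      simp only [Complex.add_re, Complex.one_re, Complex.zero_re] at this
      linarith
  have hr0 : 0 < 1 / (2 * W) := by positivity
  have hrr : 1 / (2 * W) < 1 / W := one_div_lt_one_div_of_lt hW0 (by linarith)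
  have hr2 : 1 / (2 * W) ≤ 1 / 2 := one_div_le_one_div_of_le two_pos (by linarith)
  refine ⟨hq.analyticAt (Metric.ball_mem_nhds _ (by positivity)), fun n => ?_⟩
  have hc := Complex.norm_iteratedDeriv_le_of_forall_mem_sphere_norm_le (C := 36 * W / (|t| + 2) ^ 2)
    n hr0 (hq.diffContOnCl_ball (Metric.closedBall_subset_ball hrr)) (fun z hz => by
      have hz' : ‖z - (σ + t * I)‖ = 1 / (2 * W) := by simpa [dist_eq_norm] using hz
      obtain ⟨b1, b2⟩ := ja5b_near (hz'.le.trans hr2)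
      have c1 : (|t| + 2) / 6 ≤ ‖z‖ := ja5b_low (by linarith) b2
      have c2 : (|t| + 2) / 6 ≤ ‖z + 1‖ := ja5b_low (by
        simp only [Complex.add_re, Complex.one_re]; linarith) (by simpa using b2)
      have c3 : ‖F z‖ ≤ W := hb z (by rw [Metric.mem_ball, dist_eq_norm, hz']; exact hrr)
      rw [norm_div, norm_mul]
      have c4 : (|t| + 2) ^ 2 / 36 ≤ ‖z‖ * ‖z + 1‖ := by
        have := mul_le_mul c1 c2 (by positivity) (norm_nonneg _)
        linarith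
      calc ‖F z‖ / (‖z‖ * ‖z + 1‖) ≤ W / ((|t| + 2) ^ 2 / 36) :=
            div_le_div₀ hW0.le c3 (by positivity) c4
        _ = 36 * W / (|t| + 2) ^ 2 := by field_simp)
  refine hc.trans (le_of_eq ?_)
  have e1 : (|t| + 2) ^ (η * (n + 1) - 2) = ((|t| + 2) ^ η) ^ (n + 1) / (|t| + 2) ^ 2 := by
    rw [Real.rpow_sub hT0, ← Real.rpow_natCast, ← Real.rpow_mul hT0.le, ← Real.rpow_natCast _ 2]
    push_cast
    rfl
  rw [e1, hW]
  have hV0 : 0 < V := by linarith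
  have hP0 : 0 < (|t| + 2) ^ η := by linarith
  rw [one_div, inv_pow, mul_pow, mul_pow]
  field_simp
  ring

end

end Pool.Agent.Jac.Xb

/-! The oscillatory integral. -/

namespace Pool.Agent.Jac.Xb
open Finset MeasureTheory Complex

noncomputable section

lemma ja5_int : Integrable (fun t : ℝ => (1 + ‖t‖) ^ (-(3 / 2 : ℝ))) :=
  integrable_one_add_norm (by rw [Module.finrank_self]; norm_num)

lemma ja5_pow {η : ℝ} (h0 : 0 ≤ η) {n K : ℕ} (hn : n ≤ K) (hη : η * (K + 1) ≤ 1 / 2) (t : ℝ) :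
    (|t| + 2) ^ (η * (n + 1) - 2) ≤ (1 + ‖t‖) ^ (-(3 / 2 : ℝ)) := by
  have ht := abs_nonneg t
  have hn' : (n : ℝ) ≤ K := by exact_mod_cast hn
  have h1 : η * (n + 1) ≤ η * (K + 1) := mul_le_mul_of_nonneg_left (by linarith) h0
  calc (|t| + 2) ^ (η * (n + 1) - 2) ≤ (|t| + 2) ^ (-(3 / 2 : ℝ)) :=
        Real.rpow_le_rpow_of_exponent_le (by linarith) (by linarith)
    _ ≤ (1 + ‖t‖) ^ (-(3 / 2 : ℝ)) := by
        rw [Real.norm_eq_abs]
        exact Real.rpow_le_rpow_of_nonpos (by linarith) (by linarith) (by norm_num)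

lemma ja5_cpow {x : ℝ} (hx : 0 < x) (σ t : ℝ) : (x : ℂ) ^ ((σ : ℂ) + t * I) =
    ((x ^ σ : ℝ) : ℂ) * Complex.exp ((Real.log x : ℝ) * t * I) := by
  have h0 : (x : ℂ) ≠ 0 := ofReal_ne_zero.2 hx.ne'
  rw [cpow_add _ _ h0, ofReal_cpow hx.le, cpow_def_of_ne_zero h0 (t * I), ← ofReal_log hx.le,
    mul_assoc]

theorem osc (K : ℕ) : ∃ C : ℝ, 0 < C ∧ ∀ (F : ℂ → ℂ) (V η σ x : ℝ), Disc F V η → 1 ≤ V → 0 ≤ η →
    η * (K + 1) ≤ 1 / 2 → 1 ≤ σ → σ ≤ 2 → 1 < x →
      ‖∫ t : ℝ, (x : ℂ) ^ ((σ : ℂ) + t * I) *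
        (F (σ + t * I) / (((σ : ℂ) + t * I) * (σ + t * I + 1)))‖ ≤
          C * V ^ (K + 1) * x ^ σ / Real.log x ^ K := by
  have hJ : 0 ≤ ∫ t : ℝ, (1 + ‖t‖) ^ (-(3 / 2 : ℝ)) :=
    integral_nonneg fun t => Real.rpow_nonneg (by positivity) _
  refine ⟨36 * K.factorial * 2 ^ K * ((∫ t : ℝ, (1 + ‖t‖) ^ (-(3 / 2 : ℝ))) + 1), by positivity,
    fun F V η σ x hF hV h0 hη h1 h2 hx => ?_⟩
  have hx0 : 0 < x := by linarith
  have hL : 0 < Real.log x := Real.log_pos hx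
  have hxs : 0 < x ^ σ := Real.rpow_pos_of_pos hx0 _
  have hc := fun t => disc_cauchy hF hV h0 h1 h2 t
  obtain ⟨G, hG⟩ : ∃ G : ℕ → ℝ → ℂ, ∀ n, G n = fun u : ℝ =>
      I ^ n * iteratedDeriv n (fun s => F s / (s * (s + 1))) (σ + u * I) := ⟨_, fun _ => rfl⟩
  have hd : ∀ n t, HasDerivAt (G n) (G (n + 1) t) t := fun n t => by
    rw [hG, hG]
    exact line_deriv (fun t => (hc t).1) n t
  have hb : ∀ n ≤ K, ∀ t, ‖G n t‖ ≤
      36 * n.factorial * 2 ^ n * V ^ (n + 1) * (1 + ‖t‖) ^ (-(3 / 2 : ℝ)) := fun n hn t => by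
    rw [hG]
    simp only [norm_mul, norm_pow, norm_I, one_pow, one_mul]
    exact ((hc t).2 n).trans (mul_le_mul_of_nonneg_left (ja5_pow h0 hn hη t) (by positivity))
  have hi : ∀ n ≤ K, Integrable (G n) := fun n hn =>
    (ja5_int.const_mul _).mono'
      (continuous_iff_continuousAt.2 fun t => (hd n t).continuousAt).aestronglyMeasurable
      (Filter.Eventually.of_forall (hb n hn))
  have key := parts (G := G) (K := K) (fun n _ t => hd n t) hi hL
  have hK : ∫ t, ‖G K t‖ ≤ 36 * K.factorial * 2 ^ K * V ^ (K + 1) *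
      ∫ t : ℝ, (1 + ‖t‖) ^ (-(3 / 2 : ℝ)) := by
    rw [← integral_const_mul]
    exact integral_mono (hi K le_rfl).norm (ja5_int.const_mul _) (hb K le_rfl)
  have e : ∀ t : ℝ, (x : ℂ) ^ ((σ : ℂ) + t * I) *
      (F (σ + t * I) / (((σ : ℂ) + t * I) * (σ + t * I + 1))) =
      ((x ^ σ : ℝ) : ℂ) * (Complex.exp ((Real.log x : ℝ) * t * I) * G 0 t) := fun t => by
    rw [ja5_cpow hx0, hG, mul_assoc]
    simp only [pow_zero, one_mul, iteratedDeriv_zero]
  simp only [e]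
  rw [integral_const_mul, norm_mul, norm_real, Real.norm_of_nonneg hxs.le]
  refine (mul_le_mul_of_nonneg_left key hxs.le).trans ?_
  rw [← mul_div_assoc, mul_comm (x ^ σ)]
  refine div_le_div_of_nonneg_right (mul_le_mul_of_nonneg_right (hK.trans ?_) hxs.le)
    (by positivity)
  have : (0 : ℝ) ≤ 36 * K.factorial * 2 ^ K * V ^ (K + 1) := by positivity
  nlinarith

end

end Pool.Agent.Jac.Xb

/-! The bound for the Riesz mean. -/

namespace Pool.Agent.Jac.Xb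
open Finset MeasureTheory Complex

noncomputable section

theorem ja6a_summable {a : ℕ → ℂ} (ha : ∀ n : ℕ, ‖a n‖ ≤ 2 + Real.log n) {σ : ℝ} (h1 : 1 < σ) :
    LSeriesSummable a σ := by
  obtain ⟨e, he⟩ : ∃ e : ℝ, e = (σ - 1) / 2 := ⟨_, rfl⟩
  have h0 : 0 < e := by linarith
  refine LSeriesSummable_of_le_const_mul_rpow (x := 1 + e) (by rw [ofReal_re]; linarith)
    ⟨2 + 1 / e, fun n hn => (ha n).trans ?_⟩
  have hn1 : (1 : ℝ) ≤ n := by exact_mod_cast Nat.one_le_iff_ne_zero.2 hn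
  have h2 := Real.one_le_rpow hn1 h0.le
  have h3 := Real.log_le_rpow_div (Nat.cast_nonneg n) h0
  rw [add_sub_cancel_left, add_mul, one_div, ← div_eq_inv_mul]
  linarith

theorem riesz_le (K : ℕ) : ∃ C : ℝ, 0 < C ∧ ∀ (a : ℕ → ℂ) (F : ℂ → ℂ) (V η : ℝ),
    (∀ n : ℕ, ‖a n‖ ≤ 2 + Real.log n) → (∀ s : ℂ, 1 < s.re → LSeries a s = F s) → Disc F V η →
    1 ≤ V → 0 ≤ η → η * (K + 1) ≤ 1 / 2 → ∀ x : ℝ, 3 ≤ x →
      ‖∑ n ∈ Icc 1 ⌊x⌋₊, a n * ((x : ℂ) - n)‖ ≤ C * V ^ (K + 1) * x ^ 2 / Real.log x ^ K := by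
  obtain ⟨C, hC, h⟩ := osc K
  refine ⟨3 * C, by positivity, fun a F V η ha hF hD hV h0 hη x hx => ?_⟩
  have hx0 : 0 < x := by linarith
  have hL : 1 ≤ Real.log x := by
    rw [Real.le_log_iff_exp_le hx0]
    exact Real.exp_one_lt_three.le.trans hx
  have hL0 : 0 < Real.log x := by linarith
  have hi : 0 < 1 / Real.log x := by positivity
  have hi1 : 1 / Real.log x ≤ 1 := (div_le_one hL0).2 hL
  obtain ⟨σ, hσ⟩ : ∃ σ : ℝ, σ = 1 + 1 / Real.log x := ⟨_, rfl⟩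
  have h1 : 1 < σ := by linarith
  have hxσ : x ^ σ ≤ 3 * x := by
    rw [hσ, Real.rpow_add hx0, Real.rpow_one, Real.rpow_def_of_pos hx0, mul_one_div_cancel hL0.ne',
      mul_comm]
    exact mul_le_mul_of_nonneg_right Real.exp_one_lt_three.le hx0.le
  have hs : LSeriesSummable a σ := ja6a_summable ha h1
  have e1 : ∑ n ∈ Icc 1 ⌊x⌋₊, a n * ((x : ℂ) - n) =
      x * ∑ n ∈ Icc 1 ⌊x⌋₊, a n * (1 - (n : ℂ) / x) := by
    rw [mul_sum]
    refine sum_congr rfl fun n _ => ?_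
    have : (x : ℂ) ≠ 0 := ofReal_ne_zero.2 hx0.ne'
    field_simp
  have e2 : ∀ t : ℝ, LSeries a (σ + t * I) = F (σ + t * I) := fun t => hF _ (by simpa using h1)
  have h2 := h F V η σ x hD hV h0 hη h1.le (by linarith) (by linarith)
  have h3 : ‖(1 / (2 * Real.pi) : ℂ)‖ ≤ 1 := by
    rw [norm_div, norm_one, norm_mul, Complex.norm_real, Real.norm_of_nonneg Real.pi_pos.le,
      Complex.norm_two]
    exact (div_le_one (by positivity)).2 (by linarith [Real.two_le_pi])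
  rw [e1, riesz (by linarith) hx0 hs, norm_mul, norm_mul, Complex.norm_real,
    Real.norm_of_nonneg hx0.le]
  simp only [e2]
  calc _ ≤ x * (1 * (C * V ^ (K + 1) * (3 * x) / Real.log x ^ K)) := by
        refine mul_le_mul_of_nonneg_left (mul_le_mul h3 (h2.trans ?_) (norm_nonneg _) one_pos.le)
          hx0.le
        have : 0 ≤ V := by linarith
        gcongr
    _ = _ := by ring

end

end Pool.Agent.Jac.Xb

/-! Removal of the smoothing. -/

namespace Pool.Agent.Jac.Xb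
open Finset MeasureTheory Complex

noncomputable section

theorem unsm_core {a : ℕ → ℂ} (ha : ∀ n : ℕ, ‖a n‖ ≤ 2 + Real.log n) {x h : ℝ} (hx : 1 ≤ x)
    (h0 : 0 < h) (h1 : h ≤ x) :
    ‖∑ n ∈ Icc 1 ⌊x⌋₊, a n‖ ≤ (‖∑ n ∈ Icc 1 ⌊x + h⌋₊, a n * (((x + h : ℝ) : ℂ) - n)‖ +
      ‖∑ n ∈ Icc 1 ⌊x⌋₊, a n * ((x : ℂ) - n)‖) / h + (h + 1) * (3 + Real.log x) := by
  have hI : ∀ m : ℕ, Icc 1 m = Ioc 0 m := fun m => rfl
  have hm : ⌊x⌋₊ ≤ ⌊x + h⌋₊ := Nat.floor_mono (by linarith)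
  have hL : 0 ≤ Real.log x := Real.log_nonneg hx
  have hB : ‖∑ n ∈ Ioc ⌊x⌋₊ ⌊x + h⌋₊, a n * (((x + h : ℝ) : ℂ) - n)‖ ≤
      (h + 1) * ((3 + Real.log x) * h) := by
    refine (norm_sum_le_of_le _ (n := fun _ => (3 + Real.log x) * h) fun n hn => ?_).trans ?_
    · obtain ⟨h2, h3⟩ := mem_Ioc.1 hn
      have h4 : x < n := Nat.lt_of_floor_lt h2
      have h5 : (n : ℝ) ≤ x + h := (Nat.le_floor_iff (by linarith)).1 h3
      have h6 : Real.log n ≤ 1 + Real.log x := by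
        have h7 : Real.log n ≤ Real.log (2 * x) := Real.log_le_log (by linarith) (by linarith)
        rw [Real.log_mul two_ne_zero (by linarith)] at h7
        linarith [Real.log_two_lt_d9]
      have h8 : ‖((x + h : ℝ) : ℂ) - n‖ ≤ h := by
        rw [← ofReal_natCast, ← ofReal_sub, norm_real, Real.norm_of_nonneg (by linarith)]
        linarith
      rw [norm_mul]
      exact mul_le_mul (by linarith [ha n]) h8 (norm_nonneg _) (by linarith)
    · rw [sum_const, Nat.card_Ioc, nsmul_eq_mul, Nat.cast_sub hm]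
      refine mul_le_mul_of_nonneg_right ?_ (by positivity)
      linarith [Nat.floor_le (show 0 ≤ x + h by linarith), Nat.lt_floor_add_one x]
  have e : (h : ℂ) * ∑ n ∈ Icc 1 ⌊x⌋₊, a n =
      ∑ n ∈ Icc 1 ⌊x + h⌋₊, a n * (((x + h : ℝ) : ℂ) - n) -
        ∑ n ∈ Icc 1 ⌊x⌋₊, a n * ((x : ℂ) - n) -
        ∑ n ∈ Ioc ⌊x⌋₊ ⌊x + h⌋₊, a n * (((x + h : ℝ) : ℂ) - n) := by
    rw [hI, hI, ← sum_Ioc_consecutive _ (Nat.zero_le _) hm, add_sub_right_comm,
      add_sub_cancel_right, ← sum_sub_distrib, mul_sum]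
    refine sum_congr rfl fun n _ => ?_
    push_cast
    ring
  have h2 := congrArg norm e
  rw [norm_mul, norm_real, Real.norm_of_nonneg h0.le] at h2
  have h3 := (h2.trans_le (norm_sub_le _ _)).trans (add_le_add (norm_sub_le _ _) hB)
  rw [div_add' _ _ _ h0.ne', le_div_iff₀ h0]
  linarith

theorem unsmooth (k : ℕ) : ∃ C : ℝ, 0 < C ∧ ∀ (a : ℕ → ℂ) (F : ℂ → ℂ) (V η : ℝ),
    (∀ n : ℕ, ‖a n‖ ≤ 2 + Real.log n) → (∀ s : ℂ, 1 < s.re → LSeries a s = F s) → Disc F V η →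
    1 ≤ V → 0 ≤ η → η * (4 * k + 4) ≤ 1 → ∀ x : ℝ, 2 ≤ x →
      ‖∑ n ∈ Icc 1 ⌊x⌋₊, a n‖ ≤ C * V ^ (2 * k + 2) * x / Real.log x ^ k := by
  obtain ⟨C₀, hC₀, h₀⟩ := riesz_le (2 * k + 1)
  obtain ⟨C₁, hC₁, h₁⟩ := log_pow_le (k + 1)
  refine ⟨5 * C₀ + 4 + 4 * C₁ + 5 * 2 ^ k, by positivity, fun a F V η ha hF hD hV h0 hη x hx => ?_⟩
  have hR := h₀ a F V η ha hF hD hV h0 (by push_cast; linarith)
  have hW : 1 ≤ V ^ (2 * k + 2) := one_le_pow₀ hV
  rw [show 2 * k + 1 + 1 = 2 * k + 2 from rfl] at hR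
  generalize V ^ (2 * k + 2) = W at hR hW ⊢
  have hL0 : 0 < Real.log x := Real.log_pos (by linarith)
  have hP : 0 < Real.log x ^ k := pow_pos hL0 k
  have h2k : (0 : ℝ) < 2 ^ k := by positivity
  rcases lt_or_ge x 3 with h3 | h3
  · have hf : ⌊x⌋₊ = 2 := (Nat.floor_eq_iff (by linarith)).2 ⟨by simpa using hx, by
      push_cast; linarith⟩
    have h4 : ‖∑ n ∈ Icc 1 ⌊x⌋₊, a n‖ ≤ 5 := by
      have h5 := ha 1
      have h6 := ha 2
      rw [hf, show Icc 1 2 = {1, 2} from rfl, sum_pair (by norm_num)]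
      simp only [Nat.cast_one, Real.log_one, Nat.cast_ofNat] at h5 h6
      linarith [norm_add_le (a 1) (a 2), Real.log_two_lt_d9]
    have h7 : Real.log x ^ k ≤ 2 ^ k :=
      pow_le_pow_left₀ hL0.le (by linarith [Real.log_le_sub_one_of_pos (show 0 < x by linarith)]) k
    refine h4.trans ?_
    rw [le_div_iff₀ hP, mul_assoc]
    have h8 : 1 ≤ W * x := by nlinarith
    nlinarith
  · have hL : 1 ≤ Real.log x := by
      rw [Real.le_log_iff_exp_le (by linarith)]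
      linarith [Real.exp_one_lt_d9]
    have hx0 : 0 < x := by linarith
    have hQ : 1 ≤ Real.log x ^ (k + 1) := one_le_pow₀ hL
    have hh0 : 0 < x / Real.log x ^ (k + 1) := by positivity
    have hh1 : x / Real.log x ^ (k + 1) ≤ x := div_le_self hx0.le hQ
    have h4 := unsm_core ha (by linarith) hh0 hh1
    have h5 := hR x h3
    have h6 := hR (x + x / Real.log x ^ (k + 1)) (by linarith)
    have h7 : C₀ * W * (x + x / Real.log x ^ (k + 1)) ^ 2 /
        Real.log (x + x / Real.log x ^ (k + 1)) ^ (2 * k + 1) ≤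
          C₀ * W * (2 * x) ^ 2 / Real.log x ^ (2 * k + 1) := by
      gcongr
      · linarith
      · linarith
    have h8 : Real.log x ^ (k + 1) ≤ C₁ * x := by
      refine (h₁ x (by linarith)).trans (mul_le_mul_of_nonneg_left ?_ (by linarith))
      rw [Real.sqrt_le_left hx0.le]
      nlinarith
    have h9 := h4.trans (add_le_add (div_le_div_of_nonneg_right (add_le_add (h6.trans h7) h5) hh0.le)
      (mul_le_mul_of_nonneg_left (show 3 + Real.log x ≤ 4 * Real.log x by linarith)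
        (by linarith)))
    refine h9.trans ?_
    have e : (C₀ * W * (2 * x) ^ 2 / Real.log x ^ (2 * k + 1) +
        C₀ * W * x ^ 2 / Real.log x ^ (2 * k + 1)) / (x / Real.log x ^ (k + 1)) +
        (x / Real.log x ^ (k + 1) + 1) * (4 * Real.log x) =
          (5 * C₀ * W * x + 4 * x + 4 * Real.log x ^ (k + 1)) / Real.log x ^ k := by
      field_simp
      ring
    rw [e]
    refine div_le_div_of_nonneg_right ?_ hP.le
    have h10 : x ≤ W * x := le_mul_of_one_le_left hx0.le hW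
    have h11 : C₁ * x ≤ C₁ * (W * x) := mul_le_mul_of_nonneg_left h10 (by linarith)
    have h12 : 0 ≤ 2 ^ k * (W * x) := by positivity
    nlinarith

end

end Pool.Agent.Jac.Xb

/-! Sums of the von Mangoldt function twisted by a character. -/

namespace Pool.Agent.Jac.Xb
open Finset MeasureTheory Complex

noncomputable section

theorem psi_char (k : ℕ) : ∃ C : ℝ, 0 < C ∧ ∀ (q : ℕ) [NeZero q] (χ : DirichletCharacter ℂ q),
    χ ≠ 1 → ∀ x : ℝ, 2 ≤ x →
      ‖∑ n ∈ Icc 1 ⌊x⌋₊, χ n * ((ArithmeticFunction.vonMangoldt n : ℝ) : ℂ)‖ ≤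
        C * q * x / Real.log x ^ k := by
  obtain ⟨η, hη⟩ : ∃ η : ℝ, η = 1 / (8 * k + 8) := ⟨_, rfl⟩
  have hk : (0 : ℝ) ≤ k := Nat.cast_nonneg k
  have h0 : 0 < η := by rw [hη]; positivity
  have hηk : η * (8 * k + 8) = 1 := by rw [hη]; field_simp
  have h1 : η ≤ 1 := by nlinarith
  obtain ⟨C, hC, hup⟩ := L_up h0 h1
  obtain ⟨c, hc, hlo⟩ := L_low h0 h1
  obtain ⟨C0, hC0, hun⟩ := unsmooth k
  refine ⟨C0 * (32 * C / (η * c)) ^ (2 * k + 2), by positivity, fun q _ χ hχ x hx => ?_⟩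
  have hq : (1 : ℝ) ≤ q := by exact_mod_cast Nat.one_le_iff_ne_zero.2 (NeZero.ne q)
  have hq0 : (0 : ℝ) < q := by linarith
  have hQ : 1 ≤ (q : ℝ) ^ η := Real.one_le_rpow hq h0.le
  have hA : 1 ≤ C * (q : ℝ) ^ η := one_le_mul_of_one_le_of_one_le hC hQ
  have ha : 0 < c * (q : ℝ) ^ (-η) := by positivity
  obtain ⟨hV, hD, -⟩ := disc_of_low (f := χ.LFunction) (R := η / 2) (by positivity)
    (by linarith) hA ha h0.le h1 (DirichletCharacter.differentiable_LFunction hχ).differentiableOn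
    (fun s h2 h3 => hup q χ hχ s h2.le h3) (fun σ t h2 h3 => hlo q χ hχ σ t h2 h3)
  have hL : ∀ s : ℂ, 1 < s.re →
      LSeries (fun n : ℕ => χ n * ((ArithmeticFunction.vonMangoldt n : ℝ) : ℂ)) s =
        -deriv χ.LFunction s / χ.LFunction s := by
    intro s hs
    rw [DirichletCharacter.deriv_LFunction_eq_deriv_LSeries χ hs,
      DirichletCharacter.LFunction_eq_LSeries χ hs]
    exact DirichletCharacter.LSeries_twist_vonMangoldt_eq χ hs
  have hb : ∀ n : ℕ, ‖χ n * ((ArithmeticFunction.vonMangoldt n : ℝ) : ℂ)‖ ≤ 2 + Real.log n := by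
    intro n
    rw [norm_mul, Complex.norm_real, Real.norm_of_nonneg ArithmeticFunction.vonMangoldt_nonneg]
    have h2 := χ.norm_le_one (n : ZMod q)
    have h3 : ArithmeticFunction.vonMangoldt n ≤ Real.log n := ArithmeticFunction.vonMangoldt_le_log
    have h4 : 0 ≤ ArithmeticFunction.vonMangoldt n := ArithmeticFunction.vonMangoldt_nonneg
    nlinarith [norm_nonneg (χ (n : ZMod q))]
  refine (hun _ _ _ _ hb hL hD hV (by positivity) (by linarith) x hx).trans ?_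
  have hx0 : 0 < Real.log x := Real.log_pos (by linarith)
  have e1 : 16 * (C * (q : ℝ) ^ η) / (η / 2 * (c * (q : ℝ) ^ (-η))) =
      32 * C / (η * c) * ((q : ℝ) ^ η) ^ 2 := by
    rw [Real.rpow_neg hq0.le]
    field_simp
    ring
  have e2 : (((q : ℝ) ^ η) ^ 2) ^ (2 * k + 2) ≤ q := by
    rw [← pow_mul, ← Real.rpow_natCast, ← Real.rpow_mul hq0.le]
    refine (Real.rpow_le_rpow_of_exponent_le hq (y := _) (z := 1) ?_).trans_eq (Real.rpow_one _)
    push_cast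
    nlinarith
  rw [e1, mul_pow, mul_assoc C0 _ (q : ℝ)]
  have hx1 : (0 : ℝ) ≤ x := by linarith
  gcongr

end

end Pool.Agent.Jac.Xb

/-! The prime number theorem with an error term. -/

namespace Pool.Agent.Jac.Xb
open Finset MeasureTheory Complex

noncomputable section

theorem LSeries_lam_sub {s : ℂ} (hs : 1 < s.re) :
    LSeries (fun n => ((ArithmeticFunction.vonMangoldt n : ℝ) : ℂ) - 1) s =
      -deriv zf s / zf s + (-1 / s - riemannZeta₀ s) := by
  have h0 : s ≠ 0 := fun e => by rw [e, zero_re] at hs; linarith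
  have h1 : s ≠ 1 := fun e => by rw [e, one_re] at hs; linarith
  have h1' : s - 1 ≠ 0 := sub_ne_zero.2 h1
  have e1 : (fun n : ℕ => ((ArithmeticFunction.vonMangoldt n : ℝ) : ℂ) - 1) =
      (fun n : ℕ => ((ArithmeticFunction.vonMangoldt n : ℝ) : ℂ)) - 1 := rfl
  have hz : riemannZeta s ≠ 0 := riemannZeta_ne_zero_of_one_lt_re hs
  have hzf : zf s ≠ 0 := fun e => hz (by rw [zeta_eq_zf h0 h1, e, mul_zero, zero_div])
  have hop : IsOpen {z : ℂ | 0 < z.re} := isOpen_lt continuous_const continuous_re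
  have hs0 : s ∈ {z : ℂ | 0 < z.re} := show 0 < s.re by linarith
  have hd : HasDerivAt zf (deriv zf s) s :=
    (zf_diff.differentiableAt (hop.mem_nhds hs0)).hasDerivAt
  have hq : HasDerivAt (fun z : ℂ => z * zf z / (z - 1))
      (((1 * zf s + s * deriv zf s) * (s - 1) - s * zf s * 1) / (s - 1) ^ 2) s :=
    ((hasDerivAt_id s).mul hd).div ((hasDerivAt_id s).sub_const 1) h1'
  have hev : riemannZeta =ᶠ[nhds s] fun z : ℂ => z * zf z / (z - 1) := by
    filter_upwards [compl_singleton_mem_nhds h0, compl_singleton_mem_nhds h1] with z hz0 hz1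
    exact zeta_eq_zf hz0 hz1
  have hder : deriv riemannZeta s =
      ((1 * zf s + s * deriv zf s) * (s - 1) - s * zf s * 1) / (s - 1) ^ 2 :=
    hev.deriv_eq.trans hq.deriv
  rw [e1, LSeries_sub (ArithmeticFunction.LSeriesSummable_vonMangoldt hs)
    (LSeriesSummable_one_iff.2 hs), ArithmeticFunction.LSeries_vonMangoldt_eq_deriv_riemannZeta_div hs,
    LSeries_one_eq_riemannZeta hs, hder]
  have e2 : -(((1 * zf s + s * deriv zf s) * (s - 1) - s * zf s * 1) / (s - 1) ^ 2) /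
      riemannZeta s = -deriv zf s / zf s - 1 / s + (s - 1)⁻¹ := by
    rw [zeta_eq_zf h0 h1]
    field_simp
    ring
  rw [e2, riemannZeta_eq_inv_sub_add h1]
  ring

theorem ja7b_coef (n : ℕ) :
    ‖((ArithmeticFunction.vonMangoldt n : ℝ) : ℂ) - 1‖ ≤ 2 + Real.log n := by
  refine (norm_sub_le _ _).trans ?_
  rw [norm_real, norm_one, Real.norm_of_nonneg ArithmeticFunction.vonMangoldt_nonneg]
  have := ArithmeticFunction.vonMangoldt_le_log (n := n)
  linarith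

theorem ja7b_sum (x : ℝ) :
    ∑ n ∈ Icc 1 ⌊x⌋₊, (((ArithmeticFunction.vonMangoldt n : ℝ) : ℂ) - 1) =
      ((Chebyshev.psi x - ⌊x⌋₊ : ℝ) : ℂ) := by
  have e : Icc 1 ⌊x⌋₊ = Ioc 0 ⌊x⌋₊ := by
    ext n
    simp only [mem_Icc, mem_Ioc]
    omega
  rw [sum_sub_distrib, e, Chebyshev.psi]
  simp

theorem ja7b_disc {η : ℝ} (h0 : 0 < η) (h1 : η ≤ 1) : ∃ V : ℝ, 1 ≤ V ∧
    Disc (fun s => -deriv zf s / zf s + (-1 / s - riemannZeta₀ s)) V (2 * η) := by
  obtain ⟨A, hA, hup⟩ := zf_up h0 h1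
  obtain ⟨a, ha, hlo⟩ := zf_low h0 h1
  obtain ⟨C, hC, hup0⟩ := zeta0_up h0 h1
  have hR : 0 < η / 2 := by positivity
  have hR1 : η / 2 ≤ 1 := by linarith
  have hsub : {s : ℂ | 1 - η / 2 < s.re} ⊆ {s : ℂ | 0 < s.re} := fun s hs => by
    have : 1 - η / 2 < s.re := hs
    show 0 < s.re
    linarith
  obtain ⟨hV, hD, -⟩ := disc_of_low hR hR1 hA ha h0.le h1 (zf_diff.mono hsub)
    (fun s hs hs' => hup s hs.le hs') hlo
  have hD2 : Disc (fun s : ℂ => -1 / s - riemannZeta₀ s) (2 * (2 + C) / (η / 2)) η := by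
    refine disc_of_up hR hR1 (by linarith) h0.le h1 (fun s hs => ?_) fun s hs hs' => ?_
    · have h : s ≠ 0 := fun e => by
        have := hsub hs
        rw [e] at this
        exact lt_irrefl _ (show (0 : ℝ) < 0 from this)
      exact (((differentiableAt_const _).div differentiableAt_id h).sub
        (differentiable_riemannZeta₀ s)).differentiableWithinAt
    · have hP : 1 ≤ (|s.im| + 2) ^ η :=
        Real.one_le_rpow (by linarith [abs_nonneg s.im]) h0.le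
      have hn : 1 / 2 ≤ ‖s‖ := by
        have := re_le_norm s
        linarith
      have hi : ‖-1 / s‖ ≤ 2 := by
        rw [norm_div, norm_neg, norm_one, div_le_iff₀ (by linarith)]
        linarith
      have := hup0 s hs.le hs'
      refine (norm_sub_le _ _).trans ?_
      nlinarith
  have hV2 : 0 < 2 * (2 + C) / (η / 2) := by positivity
  refine ⟨2 * max (16 * A / (η / 2 * a)) (2 * (2 + C) / (η / 2)), ?_, ?_⟩
  · have := le_max_left (16 * A / (η / 2 * a)) (2 * (2 + C) / (η / 2))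
    linarith
  · exact disc_add (disc_mono hD (by linarith) (le_max_left _ _) le_rfl)
      (disc_mono hD2 hV2 (le_max_right _ _) (by linarith)) (lt_max_of_lt_right hV2)

theorem psi_one (k : ℕ) : ∃ C : ℝ, 0 < C ∧ ∀ x : ℝ, 2 ≤ x →
    |Chebyshev.psi x - x| ≤ C * x / Real.log x ^ k := by
  have hk : (0 : ℝ) ≤ k := Nat.cast_nonneg k
  have h0 : (0 : ℝ) < 1 / (8 * k + 8) := by positivity
  have h1 : (1 : ℝ) / (8 * k + 8) ≤ 1 := by
    rw [div_le_one (by positivity)]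
    linarith
  obtain ⟨V, hV, hD⟩ := ja7b_disc h0 h1
  obtain ⟨C, hC, hun⟩ := unsmooth k
  obtain ⟨C1, hC1, hlog⟩ := log_pow_le k
  refine ⟨C * V ^ (2 * k + 2) + C1, by positivity, fun x hx => ?_⟩
  have h2 := hun _ _ V _ ja7b_coef (fun s hs => LSeries_lam_sub hs) hD hV (by positivity)
    (le_of_eq (by field_simp; ring)) x hx
  rw [ja7b_sum, norm_real, Real.norm_eq_abs] at h2
  have hL : 0 < Real.log x ^ k := pow_pos (Real.log_pos (by linarith)) k
  have h3 : 1 ≤ C1 * x / Real.log x ^ k := by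
    rw [le_div_iff₀ hL, one_mul]
    refine (hlog x (by linarith)).trans (mul_le_mul_of_nonneg_left ?_ (by linarith))
    exact Real.sqrt_le_iff.2 ⟨by linarith, by nlinarith⟩
  have h4 : |(⌊x⌋₊ : ℝ) - x| ≤ 1 := by
    have := Nat.floor_le (show (0 : ℝ) ≤ x by linarith)
    have := Nat.lt_floor_add_one x
    rw [abs_le]
    constructor <;> linarith
  have h5 := abs_sub_le (Chebyshev.psi x) (⌊x⌋₊ : ℝ) x
  rw [add_mul, add_div]
  linarith

end

end Pool.Agent.Jac.Xb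

/-! Orthogonality of characters. -/

namespace Pool.Agent.Jac.Xb
open Finset MeasureTheory Complex

noncomputable section

def psA (t : ℝ) (μ c : ℕ) : ℝ :=
  ∑ n ∈ (Icc 1 ⌊t⌋₊).filter (fun n => n ≡ c [MOD μ]), ArithmeticFunction.vonMangoldt n

def ps0 (t : ℝ) (μ : ℕ) : ℝ :=
  ∑ n ∈ (Icc 1 ⌊t⌋₊).filter (fun n => n.Coprime μ), ArithmeticFunction.vonMangoldt n

theorem orth_le {t E : ℝ} {μ c : ℕ} [NeZero μ] (hE : 0 ≤ E) (hc : c.Coprime μ)
    (h : ∀ χ : DirichletCharacter ℂ μ, χ ≠ 1 →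
      ‖∑ n ∈ Icc 1 ⌊t⌋₊, χ n * ((ArithmeticFunction.vonMangoldt n : ℝ) : ℂ)‖ ≤ E) :
    |psA t μ c - ps0 t μ / Nat.totient μ| ≤ E := by
  classical
  have hu : IsUnit (c : ZMod μ) := (ZMod.isUnit_iff_coprime c μ).2 hc
  have hφ : (0 : ℝ) < Nat.totient μ := by exact_mod_cast Nat.totient_pos.2 (NeZero.pos μ)
  have h1 : ((Nat.totient μ * psA t μ c : ℝ) : ℂ) = ∑ χ : DirichletCharacter ℂ μ,
      χ (c : ZMod μ)⁻¹ * ∑ n ∈ Icc 1 ⌊t⌋₊, χ n * ((ArithmeticFunction.vonMangoldt n : ℝ) : ℂ) := by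
    simp only [mul_sum, ← mul_assoc]
    rw [sum_comm]
    simp only [← sum_mul, DirichletCharacter.sum_char_inv_mul_char_eq ℂ hu]
    rw [psA, sum_filter]
    push_cast
    rw [mul_sum]
    refine sum_congr rfl fun n _ => ?_
    by_cases hn : n ≡ c [MOD μ]
    · rw [if_pos hn, if_pos ((ZMod.natCast_eq_natCast_iff _ _ _).2 hn.symm)]
    · rw [if_neg hn, if_neg fun h2 => hn ((ZMod.natCast_eq_natCast_iff _ _ _).1 h2).symm]
      simp
  have hi : IsUnit (c : ZMod μ)⁻¹ := IsUnit.of_mul_eq_one _ (ZMod.inv_mul_of_unit _ hu)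
  have h2 : (1 : DirichletCharacter ℂ μ) (c : ZMod μ)⁻¹ * ∑ n ∈ Icc 1 ⌊t⌋₊,
      (1 : DirichletCharacter ℂ μ) n * ((ArithmeticFunction.vonMangoldt n : ℝ) : ℂ)
      = ((ps0 t μ : ℝ) : ℂ) := by
    rw [MulChar.one_apply hi, one_mul, ps0, sum_filter]
    push_cast
    refine sum_congr rfl fun n _ => ?_
    by_cases hn : n.Coprime μ
    · rw [if_pos hn, MulChar.one_apply ((ZMod.isUnit_iff_coprime n μ).2 hn), one_mul]
    · rw [if_neg hn, MulChar.map_nonunit _ fun h3 => hn ((ZMod.isUnit_iff_coprime n μ).1 h3)]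
      simp
  rw [← add_sum_erase _ _ (mem_univ (1 : DirichletCharacter ℂ μ)), h2] at h1
  have h3 : |Nat.totient μ * psA t μ c - ps0 t μ| ≤ Nat.totient μ * E := by
    rw [← Real.norm_eq_abs, ← Complex.norm_real, ofReal_sub, h1, add_sub_cancel_left]
    refine (norm_sum_le _ _).trans ((sum_le_card_nsmul _ _ E fun χ hχ => ?_).trans ?_)
    · rw [norm_mul]
      exact (mul_le_of_le_one_left (norm_nonneg _) (χ.norm_le_one _)).trans
        (h χ (ne_of_mem_erase hχ))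
    · rw [nsmul_eq_mul]
      refine mul_le_mul_of_nonneg_right ?_ hE
      have h4 := card_erase_le (s := (univ : Finset (DirichletCharacter ℂ μ))) (a := 1)
      rw [card_univ, ← Nat.card_eq_fintype_card,
        DirichletCharacter.card_eq_totient_of_hasEnoughRootsOfUnity] at h4
      exact_mod_cast h4
  rw [show psA t μ c - ps0 t μ / Nat.totient μ
    = (Nat.totient μ * psA t μ c - ps0 t μ) / Nat.totient μ by field_simp, abs_div,
    abs_of_pos hφ, div_le_iff₀' hφ]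
  exact h3

end

end Pool.Agent.Jac.Xb

/-! From prime powers to primes. -/

namespace Pool.Agent.Jac.Xb
open Finset MeasureTheory Complex

noncomputable section

theorem ja8b_Icc (N : ℕ) : Icc 1 N = Ioc 0 N := by
  ext n; simp [Nat.succ_le_iff]

theorem psA_thA (t : ℝ) (μ c : ℕ) :
    0 ≤ psA t μ c - thA t μ c ∧ psA t μ c - thA t μ c ≤ Chebyshev.psi t - Chebyshev.theta t := by
  have e : psA t μ c - thA t μ c = ∑ n ∈ ((Ioc 0 ⌊t⌋₊).filter (fun n => n ≡ c [MOD μ])).filter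
      (fun n => ¬n.Prime), ArithmeticFunction.vonMangoldt n := by
    rw [psA, thA, ja8b_Icc, ← sum_filter_add_sum_filter_not _ (fun n : ℕ => n.Prime),
      filter_filter, sub_eq_iff_eq_add']
    congr 1
    refine sum_congr (filter_congr fun n _ => and_comm) fun n hn => ?_
    exact ArithmeticFunction.vonMangoldt_apply_prime (mem_filter.1 hn).2.1
  rw [e, Chebyshev.psi_sub_theta_eq_sum_not_prime]
  exact ⟨sum_nonneg fun _ _ => ArithmeticFunction.vonMangoldt_nonneg,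
    sum_le_sum_of_subset_of_nonneg (filter_subset_filter _ (filter_subset _ _))
      fun _ _ _ => ArithmeticFunction.vonMangoldt_nonneg⟩

theorem ps0_psi (t : ℝ) {μ : ℕ} (hμ : μ ≠ 0) : 0 ≤ Chebyshev.psi t - ps0 t μ ∧
    Chebyshev.psi t - ps0 t μ ≤ Chebyshev.psi t - Chebyshev.theta t + Real.log μ := by
  have e : Chebyshev.psi t - ps0 t μ = ∑ n ∈ (Ioc 0 ⌊t⌋₊).filter (fun n => ¬n.Coprime μ),
      ArithmeticFunction.vonMangoldt n := by
    rw [ps0, Chebyshev.psi, ja8b_Icc, ← sum_filter_add_sum_filter_not _ (fun n : ℕ => n.Coprime μ),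
      add_sub_cancel_left]
  rw [e, Chebyshev.psi_sub_theta_eq_sum_not_prime]
  refine ⟨sum_nonneg fun _ _ => ArithmeticFunction.vonMangoldt_nonneg, ?_⟩
  rw [← sum_filter_add_sum_filter_not _ (fun n : ℕ => n.Prime), add_comm]
  refine add_le_add (sum_le_sum_of_subset_of_nonneg (filter_subset_filter _ (filter_subset _ _))
    fun _ _ _ => ArithmeticFunction.vonMangoldt_nonneg) ?_
  refine le_trans ?_ (Pool.Agent.Lib.Sieve.sum_log_primeFactors_le hμ)
  rw [sum_congr rfl fun n hn => ArithmeticFunction.vonMangoldt_apply_prime (mem_filter.1 hn).2]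
  refine sum_le_sum_of_subset_of_nonneg (fun n hn => ?_)
    fun _ _ _ => Real.log_natCast_nonneg _
  obtain ⟨h1, h2⟩ := mem_filter.1 hn
  exact Nat.mem_primeFactors.2 ⟨h2, not_not.1 fun h =>
    (mem_filter.1 h1).2 (h2.coprime_iff_not_dvd.2 h), hμ⟩

theorem thA_le {t E : ℝ} {μ c : ℕ} [NeZero μ] (hE : 0 ≤ E) (hc : c.Coprime μ)
    (h : ∀ χ : DirichletCharacter ℂ μ, χ ≠ 1 →
      ‖∑ n ∈ Icc 1 ⌊t⌋₊, χ n * ((ArithmeticFunction.vonMangoldt n : ℝ) : ℂ)‖ ≤ E) :
    |thA t μ c - t / Nat.totient μ| ≤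
      E + |Chebyshev.psi t - t| + 2 * (Chebyshev.psi t - Chebyshev.theta t) + Real.log μ := by
  have h1 := orth_le hE hc h
  obtain ⟨h2, h3⟩ := psA_thA t μ c
  obtain ⟨h4, h5⟩ := ps0_psi t (NeZero.ne μ)
  have hφ : (1 : ℝ) ≤ Nat.totient μ := by
    exact_mod_cast Nat.totient_pos.2 (Nat.pos_of_ne_zero (NeZero.ne μ))
  have h6 : |ps0 t μ - t| ≤
      |Chebyshev.psi t - t| + (Chebyshev.psi t - Chebyshev.theta t + Real.log μ) := by
    have := le_abs_self (Chebyshev.psi t - t)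
    have := neg_abs_le (Chebyshev.psi t - t)
    exact abs_le.2 ⟨by linarith, by linarith⟩
  have h7 : |ps0 t μ / Nat.totient μ - t / Nat.totient μ| ≤ |ps0 t μ - t| := by
    rw [← sub_div, abs_div, abs_of_pos (zero_lt_one.trans_le hφ)]
    exact div_le_self (abs_nonneg _) hφ
  obtain ⟨a1, a2⟩ := abs_le.1 h1
  obtain ⟨b1, b2⟩ := abs_le.1 (h7.trans h6)
  exact abs_le.2 ⟨by linarith, by linarith⟩

end

end Pool.Agent.Jac.Xb

/-! The theorem of Siegel and Walfisz. -/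

namespace Pool.Agent.Jac.Xb
open Finset MeasureTheory Complex

noncomputable section

theorem siegel_walfisz (B : ℕ) : ∃ C : ℝ, 0 < C ∧ ∀ (t : ℝ) (μ c : ℕ), 2 ≤ t → 1 ≤ μ →
    (μ : ℝ) ≤ Real.log t ^ B → c.Coprime μ →
      |thA t μ c - t / Nat.totient μ| ≤ C * t / Real.log t ^ B := by
  obtain ⟨C1, hC1, h1⟩ := psi_char (2 * B)
  obtain ⟨C2, hC2, h2⟩ := psi_one B
  obtain ⟨C3, h3⟩ := Chebyshev.psi_sub_theta_le_mul_sqrt
  obtain ⟨C4, hC4, h4⟩ := log_pow_le B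
  refine ⟨C1 + C2 + 2 * (|C3| * C4) + C4 * C4, by positivity, fun t μ c ht hμ hle hc => ?_⟩
  have : NeZero μ := ⟨by omega⟩
  have ht0 : 0 < t := by linarith
  have hL : 0 < Real.log t := Real.log_pos (by linarith)
  have hW : 0 < Real.log t ^ B := pow_pos hL B
  have hμ0 : (0 : ℝ) < μ := by exact_mod_cast hμ
  have hs : 0 < √t := Real.sqrt_pos.2 ht0
  have h5 := h4 t (by linarith)
  have h6 : √t ≤ C4 * (t / Real.log t ^ B) := by
    rw [← mul_div_assoc, le_div_iff₀ hW]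
    calc √t * Real.log t ^ B ≤ √t * (C4 * √t) := mul_le_mul_of_nonneg_left h5 hs.le
      _ = C4 * (√t * √t) := by ring
      _ = C4 * t := by rw [Real.mul_self_sqrt ht0.le]
  have h7 := thA_le (t := t) (E := C1 * (t / Real.log t ^ B)) (by positivity) hc fun χ hχ => by
    refine (h1 μ χ hχ t ht).trans ?_
    rw [two_mul, pow_add, div_le_iff₀ (mul_pos hW hW)]
    calc C1 * μ * t ≤ C1 * Real.log t ^ B * t := by gcongr
      _ = C1 * (t / Real.log t ^ B) * (Real.log t ^ B * Real.log t ^ B) := by field_simp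
  have h8 := h2 t ht
  have h9 : Chebyshev.psi t - Chebyshev.theta t ≤ |C3| * C4 * (t / Real.log t ^ B) := by
    calc Chebyshev.psi t - Chebyshev.theta t ≤ C3 * √t := h3 t
      _ ≤ |C3| * √t := mul_le_mul_of_nonneg_right (le_abs_self _) hs.le
      _ ≤ |C3| * (C4 * (t / Real.log t ^ B)) := mul_le_mul_of_nonneg_left h6 (abs_nonneg _)
      _ = _ := by ring
  have h10 : Real.log μ ≤ C4 * C4 * (t / Real.log t ^ B) := by
    calc Real.log μ ≤ μ := (Real.log_le_sub_one_of_pos hμ0).trans (by linarith)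
      _ ≤ C4 * √t := hle.trans h5
      _ ≤ C4 * (C4 * (t / Real.log t ^ B)) := mul_le_mul_of_nonneg_left h6 (by linarith)
      _ = _ := by ring
  rw [mul_div_assoc] at h8 ⊢
  linarith

end

end Pool.Agent.Jac.Xb
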