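import Pool.Agent.P.MP_78d079_nt.XbCount

/-! One dyadic scale. -/

namespace Pool.Agent.P.MP_78d079_nt.Xb
open Finset Real Pool.Agent.Lib.Sieve

theorem two_pow_half (j : ℕ) : (2 : ℝ) ^ (j / 2) ≤ (3 / 2) ^ j := by
  calc (2 : ℝ) ^ (j / 2) ≤ ((3 / 2) ^ 2) ^ (j / 2) := by gcongr; norm_num
    _ = (3 / 2) ^ (2 * (j / 2)) := by rw [pow_mul]
    _ ≤ _ := pow_le_pow_right₀ (by norm_num) (Nat.mul_div_le j 2)

theorem scale {ε : ℝ} (hε : 0 < ε) (hε1 : ε ≤ 1) : ∃ (j0 b : ℕ) (K : ℝ), 1 ≤ b ∧ 0 < K ∧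
    ∀ (j n M : ℕ) (S : Finset ℕ), j0 ≤ j → M ≤ 2 ^ (j / 4) →
    (2 * log ((S.card : ℝ) + 1)) ^ b ≤ j → n ≠ 0 →
    (∀ r, r ∉ S → (∑ d ∈ n.divisors, d).factorization r ≤ M) →
    ((n.primeFactors.filter (fun p => Nat.log 2 p = j ∧
      ((n.factorization p + 1).minFac : ℝ) ≤ log p ^ (1 - ε))).card : ℝ) ≤
      2 ^ j * (K * ((j + 1 : ℕ) : ℝ) ^ (-(1 + ε / 2)) + 3 * (((j + 1 : ℕ) : ℝ) * (3 / 4) ^ j)) := by
  classical
  obtain ⟨b, hb⟩ := exists_nat_ge (2 / ε)
  have hb2 : (2 : ℝ) ≤ b := le_trans (by rw [le_div_iff₀ hε]; linarith) hb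
  have hb0 : b ≠ 0 := by rintro rfl; norm_num at hb2
  have hbε : (b : ℝ)⁻¹ ≤ ε / 2 := by
    rw [inv_le_comm₀ (by linarith) (by positivity), inv_div]; exact hb
  obtain ⟨u, K, hu, hK, hc⟩ := count_d b
  refine ⟨(100 * u) ^ 2 + (2 ^ (b + 2) * (b + 1).factorial + 4) ^ b, b, K * 6 * (32 * u) ^ 2,
    Nat.one_le_iff_ne_zero.2 hb0, by positivity, fun j n M S hj hM hS hn hfac => ?_⟩
  set x : ℝ := ((j + 1 : ℕ) : ℝ) with hx
  have hxj : x = j + 1 := by rw [hx]; push_cast; ring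
  have hx0 : 0 < x := by positivity
  have hx1 : 1 ≤ x := by rw [hxj]; linarith [Nat.cast_nonneg (α := ℝ) j]
  set z : ℝ := x ^ (b : ℝ)⁻¹ with hz
  have hz0 : 0 ≤ z := by positivity
  have hzb : z ^ b = x := rpow_inv_natCast_pow hx0.le hb0
  have hroot : ∀ t : ℝ, t ^ b ≤ j → t ≤ z := fun t ht =>
    le_of_not_gt fun h => by
      have := pow_lt_pow_left₀ h hz0 hb0
      linarith
  have hu' : (1 : ℝ) ≤ u := by exact_mod_cast hu
  have hzF : (2 : ℝ) ^ (b + 2) * (b + 1).factorial + 4 ≤ z := hroot _ (by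
    have : (2 ^ (b + 2) * (b + 1).factorial + 4) ^ b ≤ j := le_trans (Nat.le_add_left _ _) hj
    exact_mod_cast this)
  have hF0 : (0 : ℝ) < (b + 1).factorial := by positivity
  have hz4 : 4 ≤ z := by
    have : (0 : ℝ) ≤ 2 ^ (b + 2) * (b + 1).factorial := by positivity
    linarith
  have hxe : 2 * x ≤ exp (z / 2) := by
    refine le_trans ?_ (pow_div_factorial_le_exp (z / 2) (by positivity) (b + 1))
    rw [le_div_iff₀ hF0, div_pow, le_div_iff₀ (by positivity), pow_succ z, hzb]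
    calc _ = x * (2 ^ (b + 2) * (b + 1).factorial) := by ring
      _ ≤ _ := mul_le_mul_of_nonneg_left (by linarith) hx0.le
  have hSe : (S.card : ℝ) + 1 ≤ exp (z / 2) := by
    rw [← log_le_iff_le_exp (by positivity)]
    have := hroot _ hS
    linarith
  have hee : exp z = exp (z / 2) * exp (z / 2) := by rw [← exp_add]; congr 1; ring
  have he1 : 1 ≤ exp (z / 2) := one_le_exp (by positivity)
  set w := ⌈exp z⌉₊ with hw
  have hw1 : exp z ≤ w := Nat.le_ceil _
  have hw2 : (w : ℝ) < exp z + 1 := Nat.ceil_lt_add_one (exp_pos _).le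
  have hez : z + 1 ≤ exp z := add_one_le_exp z
  have hw3 : 3 ≤ w := by exact_mod_cast (by linarith : (3 : ℝ) ≤ w)
  have hlw : z ≤ log w := by rw [le_log_iff_exp_le (by linarith)]; exact hw1
  have hlw1 : log ((w + 1 : ℕ) : ℝ) ≤ 3 * z := by
    rw [log_le_iff_le_exp (by positivity)]
    have h1 : exp (3 * z) = exp z * exp (2 * z) := by rw [← exp_add]; congr 1; ring
    have h2 := add_one_le_exp (2 * z)
    have h3 : exp z * 9 ≤ exp z * exp (2 * z) :=
      mul_le_mul_of_nonneg_left (by linarith) (exp_pos _).le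
    push_cast
    linarith
  have hsq : z ≤ √x := by
    rw [sqrt_eq_rpow]
    refine rpow_le_rpow_of_exponent_le hx1 ?_
    rw [inv_le_comm₀ (by linarith) (by norm_num)]
    linarith
  have hsu : 100 * (u : ℝ) ≤ √x := by
    apply le_sqrt_of_sq_le
    have : (100 * u) ^ 2 ≤ j := le_trans (Nat.le_add_right _ _) hj
    have : ((100 * u : ℝ)) ^ 2 ≤ j := by exact_mod_cast this
    linarith
  have hss : √x * √x = x := mul_self_sqrt hx0.le
  set i := j / (8 * u) with hi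
  have hi1 : (j : ℝ) < 8 * u * (i + 1) := by
    have : j < 8 * u * (i + 1) := Nat.lt_mul_div_succ j (by omega)
    exact_mod_cast this
  have hi2 : x ≤ 16 * u * i := by
    have : 100 * (u : ℝ) * 100 ≤ √x * √x :=
      mul_le_mul hsu (by linarith) (by norm_num) (sqrt_nonneg _)
    linarith
  set y := 2 ^ i with hy
  have hl2 := log_two_gt_d9
  have hl2' := log_two_lt_d9
  have hi0 : (0 : ℝ) ≤ i := by positivity
  have hly : x / (32 * u) ≤ log y := by
    rw [hy, div_le_iff₀ (by positivity)]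
    push_cast
    rw [log_pow]
    have h1 : (i : ℝ) * (1 / 2) ≤ i * log 2 := mul_le_mul_of_nonneg_left (by linarith) hi0
    have h2 := mul_le_mul_of_nonneg_right h1 (show (0 : ℝ) ≤ 32 * u by positivity)
    linarith
  have hy0 : (0 : ℝ) < y := by positivity
  have hwy : w ≤ y := by
    refine Nat.ceil_le.2 ?_
    rw [← le_log_iff_exp_le hy0]
    refine le_trans ?_ hly
    rw [le_div_iff₀ (by positivity)]
    exact (mul_le_mul hsq (by linarith) (by positivity) (sqrt_nonneg _)).trans hss.le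
  have hij : i < j := by
    refine Nat.div_lt_self ?_ (by omega)
    have : 0 < (100 * u) ^ 2 := by positivity
    omega
  have hy4 : (y : ℝ) ^ (4 * u) ≤ (3 / 2) ^ j := by
    refine le_trans ?_ (two_pow_half j)
    rw [hy]; push_cast
    rw [← pow_mul]
    refine pow_le_pow_right₀ (by norm_num) ?_
    have : 8 * u * i ≤ j := Nat.mul_div_le j _
    rw [Nat.le_div_iff_mul_le (by norm_num)]
    exact le_of_eq_of_le (by ring) this
  have hyM : (y : ℝ) * M ≤ (3 / 2) ^ j := by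
    refine le_trans ?_ (two_pow_half j)
    have h1 : i ≤ j / 8 := Nat.div_le_div_left (by omega) (by norm_num)
    have h2 : y * M ≤ 2 ^ (j / 2) := by
      calc y * M ≤ 2 ^ i * 2 ^ (j / 4) := Nat.mul_le_mul_left _ hM
        _ = 2 ^ (i + j / 4) := by rw [pow_add]
        _ ≤ _ := Nat.pow_le_pow_right (by norm_num) (by omega)
    exact_mod_cast h2
  set L := ⌊x ^ (1 - ε)⌋₊ with hL
  have hL1 : (L : ℝ) ≤ x ^ (1 - ε) := Nat.floor_le (by positivity)
  have hL2 : x ^ (1 - ε) ≤ x := by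
    conv_rhs => rw [← rpow_one x]
    exact rpow_le_rpow_of_exponent_le hx1 (by linarith)
  have hsub : n.primeFactors.filter (fun p => Nat.log 2 p = j ∧
      ((n.factorization p + 1).minFac : ℝ) ≤ log p ^ (1 - ε)) ⊆ (Icc 2 L).biUnion (fun d =>
        n.primeFactors.filter (fun p => (y < p ∧ p < 2 ^ (j + 1)) ∧ d ∣ n.factorization p + 1)) := by
    intro p hp
    obtain ⟨hp1, hp2, hp3⟩ := mem_filter.1 hp
    have hpp := Nat.prime_of_mem_primeFactors hp1
    have h1 : 2 ^ j ≤ p := hp2 ▸ Nat.pow_log_le_self 2 hpp.ne_zero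
    have h2 : p < 2 ^ (j + 1) := hp2 ▸ Nat.lt_pow_succ_log_self (by norm_num) p
    have h3 : 0 < n.factorization p := hpp.factorization_pos_of_dvd hn
      (Nat.dvd_of_mem_primeFactors hp1)
    refine mem_biUnion.2 ⟨(n.factorization p + 1).minFac, mem_Icc.2
      ⟨(Nat.minFac_prime (by omega)).two_le, Nat.le_floor (hp3.trans ?_)⟩, mem_filter.2
      ⟨hp1, ⟨lt_of_lt_of_le (Nat.pow_lt_pow_right (by norm_num) hij) h1, h2⟩, Nat.minFac_dvd _⟩⟩
    refine rpow_le_rpow (log_natCast_nonneg p) ?_ (by linarith)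
    have h4 : (p : ℝ) ≤ 2 ^ (j + 1) := by exact_mod_cast h2.le
    refine (log_le_log (by exact_mod_cast hpp.pos) h4).trans ?_
    rw [log_pow]
    exact mul_le_of_le_one_right hx0.le (by linarith)
  set Q : ℝ := K * 6 * (32 * u) ^ 2 * 2 ^ j * (z / x ^ 2) + 3 * (3 / 2) ^ j with hQ
  have hone : ∀ d ∈ Icc 2 L, ((n.primeFactors.filter
      (fun p => (y < p ∧ p < 2 ^ (j + 1)) ∧ d ∣ n.factorization p + 1)).card : ℝ) ≤ Q := by
    intro d hd
    have hdx : (d : ℝ) ≤ x := le_trans (by exact_mod_cast (mem_Icc.1 hd).2) (hL1.trans hL2)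
    have h1 := hc d w y (2 ^ (j + 1)) n M S (mem_Icc.1 hd).1 hw3 hwy
      (hdx.trans (hzb ▸ pow_le_pow_left₀ hz0 hlw b))
      (by
        have : exp (z / 2) ≤ exp z := exp_le_exp.2 (by linarith)
        exact_mod_cast (by linarith : 2 * (d : ℝ) ≤ w))
      (by
        have : (S.card : ℝ) * d ≤ exp (z / 2) * exp (z / 2) :=
          mul_le_mul (by linarith) (by linarith) (by positivity) (by positivity)
        exact_mod_cast (by linarith : (S.card : ℝ) * d ≤ w)) hn hfac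
    have h2 : K * ((2 ^ (j + 1) : ℕ) : ℝ) * log ((w + 1 : ℕ) : ℝ) / log y ^ 2 ≤
        K * 6 * (32 * u) ^ 2 * 2 ^ j * (z / x ^ 2) := by
      calc _ ≤ K * ((2 ^ (j + 1) : ℕ) : ℝ) * (3 * z) / (x / (32 * u)) ^ 2 := by gcongr
        _ = _ := by push_cast; field_simp; ring
    linarith
  have hQ0 : 0 ≤ Q := by positivity
  have hcard : ((Icc 2 L).card : ℝ) ≤ L := by
    rw [Nat.card_Icc]; exact_mod_cast (by omega : L + 1 - 2 ≤ L)
  have hpow : x ^ (1 - ε) * (z / x ^ 2) ≤ x ^ (-(1 + ε / 2)) := by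
    rw [hz, ← rpow_two, ← rpow_sub hx0, ← rpow_add hx0]
    exact rpow_le_rpow_of_exponent_le hx1 (by linarith)
  calc _ ≤ (((Icc 2 L).biUnion (fun d => n.primeFactors.filter
        (fun p => (y < p ∧ p < 2 ^ (j + 1)) ∧ d ∣ n.factorization p + 1))).card : ℝ) := by
        exact_mod_cast card_le_card hsub
    _ ≤ ∑ d ∈ Icc 2 L, ((n.primeFactors.filter
        (fun p => (y < p ∧ p < 2 ^ (j + 1)) ∧ d ∣ n.factorization p + 1)).card : ℝ) := by
        exact_mod_cast card_biUnion_le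
    _ ≤ (Icc 2 L).card * Q := by
        rw [← nsmul_eq_mul]; exact sum_le_card_nsmul _ _ _ hone
    _ ≤ x ^ (1 - ε) * Q := mul_le_mul_of_nonneg_right (hcard.trans hL1) hQ0
    _ = K * 6 * (32 * u) ^ 2 * 2 ^ j * (x ^ (1 - ε) * (z / x ^ 2)) +
        x ^ (1 - ε) * (3 * (3 / 2) ^ j) := by rw [hQ]; ring
    _ ≤ K * 6 * (32 * u) ^ 2 * 2 ^ j * x ^ (-(1 + ε / 2)) + x * (3 * (3 / 2) ^ j) := by gcongr
    _ = _ := by
        rw [show (3 / 2 : ℝ) ^ j = 2 ^ j * (3 / 4) ^ j by rw [← mul_pow]; norm_num]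
        ring

end Pool.Agent.P.MP_78d079_nt.Xb
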