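import Pool.Agent.Lib.Sieve.Upper

/-! Upper bound sieve with many residue classes for each prime. -/

namespace Pool.Agent.P.MP_78d079_nt.Xb
open Finset Real Pool.Agent.Lib.Sieve

theorem bigG_ge' (Ω : ℕ → Finset ℕ) (P : Finset ℕ) {y u : ℕ} {A : ℝ} (hy : 2 ≤ y)
    (hP : ∀ p ∈ P, p.Prime ∧ p ≤ y) (h2 : ∀ p ∈ P, 2 * (Ω p).card ≤ p)
    (hA : ∑ p ∈ P, ((Ω p).card : ℝ) * (log p / p) ≤ A * log y) (hu : 2 * A + 1 ≤ u) :
    exp (∑ p ∈ P, ((Ω p).card : ℝ) / p) / 2 ≤ bigG Ω P (y ^ u) := by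
  classical
  have hy1 : (1 : ℝ) < y := by exact_mod_cast hy
  have hl0 : 0 < log y := log_pos hy1
  have hy0 : (0 : ℝ) < y := by positivity
  set κ := 1 / log y with hκ
  have hκ0 : 0 < κ := by positivity
  let w : ℕ → ℝ := fun p => hw p (Ω p).card
  have hw0 : ∀ p ∈ P, 0 ≤ w p := fun p hp => hw_nonneg (h2 p hp)
  have hsplit : ∏ p ∈ P, (1 + w p) = bigG Ω P (y ^ u) +
      ∑ S ∈ P.powerset.filter (fun S => ¬ ∏ p ∈ S, p ≤ y ^ u), ∏ p ∈ S, w p := by
    rw [prod_one_add, bigG, sum_filter_add_sum_filter_not]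
  have htail : ∑ S ∈ P.powerset.filter (fun S => ¬ ∏ p ∈ S, p ≤ y ^ u), ∏ p ∈ S, w p ≤
      exp (-(u : ℝ)) * ∏ p ∈ P, (1 + w p * (p : ℝ) ^ κ) := by
    rw [prod_one_add, mul_sum]
    refine le_trans (sum_le_sum fun S hS => ?_) (sum_le_sum_of_subset_of_nonneg
      (filter_subset (fun S => ¬ ∏ p ∈ S, p ≤ y ^ u) _) fun S hS _ => ?_)
    · have hS' := mem_powerset.1 (mem_filter.1 hS).1
      have hS2 : y ^ u ≤ ∏ p ∈ S, p := (not_le.1 (mem_filter.1 hS).2).le
      rw [prod_mul_distrib, Real.finsetProd_rpow _ _ (fun p _ => by positivity), ← Nat.cast_prod]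
      have h3 : exp u ≤ ((∏ p ∈ S, p : ℕ) : ℝ) ^ κ := by
        calc exp u = ((y ^ u : ℕ) : ℝ) ^ κ := by
              rw [rpow_def_of_pos (by positivity)]
              push_cast
              rw [log_pow, hκ]
              congr 1
              field_simp
          _ ≤ _ := rpow_le_rpow (by positivity) (by exact_mod_cast hS2) hκ0.le
      have h4 : 0 ≤ ∏ p ∈ S, w p := prod_nonneg fun p hp => hw0 p (hS' hp)
      calc ∏ p ∈ S, w p = exp (-(u : ℝ)) * ((∏ p ∈ S, w p) * exp u) := by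
            rw [exp_neg]; field_simp
        _ ≤ _ := by gcongr
    · have hS' := mem_powerset.1 hS
      exact mul_nonneg (exp_pos _).le
        (prod_nonneg fun p hp => mul_nonneg (hw0 p (hS' hp)) (by positivity))
  have hne : ∀ p ∈ P, (0 : ℝ) < p ∧ ((Ω p).card : ℝ) < p := by
    intro p hp
    have h3 := (hP p hp).1.pos
    have h4 := h2 p hp
    exact ⟨by exact_mod_cast h3, by exact_mod_cast (by omega : (Ω p).card < p)⟩
  have hfac : ∀ p ∈ P, 1 + w p * (p : ℝ) ^ κ ≤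
      (1 + w p) * exp (2 * κ * (((Ω p).card : ℝ) * (log p / p))) := by
    intro p hp
    obtain ⟨hp0, hr⟩ := hne p hp
    have hlp : 0 ≤ log p := log_natCast_nonneg p
    have hu : log p * κ ≤ 1 := by
      rw [hκ, mul_one_div, div_le_one hl0]
      exact log_le_log hp0 (by exact_mod_cast (hP p hp).2)
    have hu0 : 0 ≤ log p * κ := by positivity
    have h3 : (p : ℝ) ^ κ - 1 ≤ 2 * (log p * κ) := by
      rw [rpow_def_of_pos hp0]
      have := Real.abs_exp_sub_one_le (x := log p * κ) (by rwa [abs_of_nonneg hu0])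
      rw [abs_of_nonneg hu0] at this
      exact (le_abs_self _).trans this
    have h4 : (1 + w p) * (((Ω p).card : ℝ) / p) = w p := by
      simp only [w, hw]
      have : (p : ℝ) - (Ω p).card ≠ 0 := by linarith
      field_simp
      ring
    have h5 := add_one_le_exp (2 * κ * (((Ω p).card : ℝ) * (log p / p)))
    have h6 : ((Ω p).card : ℝ) / p * (2 * (log p * κ)) =
        2 * κ * (((Ω p).card : ℝ) * (log p / p)) := by ring
    have hw := hw0 p hp
    calc 1 + w p * (p : ℝ) ^ κ = (1 + w p) + w p * ((p : ℝ) ^ κ - 1) := by ring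
      _ ≤ (1 + w p) + w p * (2 * (log p * κ)) := by gcongr
      _ = (1 + w p) * (1 + ((Ω p).card : ℝ) / p * (2 * (log p * κ))) := by
          linear_combination (-(2 * (log p * κ))) * h4
      _ ≤ _ := by
          apply mul_le_mul_of_nonneg_left _ (by linarith)
          linarith
  have hsum : 2 * κ * ∑ p ∈ P, ((Ω p).card : ℝ) * (log p / p) ≤ u - 1 := by
    calc _ ≤ 2 * κ * (A * log y) := by gcongr
      _ = 2 * A := by rw [hκ]; field_simp
      _ ≤ _ := by linarith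
  have hpos : 0 ≤ ∏ p ∈ P, (1 + w p) := prod_nonneg fun p hp => by have := hw0 p hp; positivity
  have hprod : ∏ p ∈ P, (1 + w p * (p : ℝ) ^ κ) ≤ (∏ p ∈ P, (1 + w p)) * exp (u - 1) := by
    calc ∏ p ∈ P, (1 + w p * (p : ℝ) ^ κ)
        ≤ ∏ p ∈ P, ((1 + w p) * exp (2 * κ * (((Ω p).card : ℝ) * (log p / p)))) :=
          prod_le_prod (fun p hp => by have := hw0 p hp; positivity) hfac
      _ = (∏ p ∈ P, (1 + w p)) * exp (2 * κ * ∑ p ∈ P, ((Ω p).card : ℝ) * (log p / p)) := by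
          rw [prod_mul_distrib, mul_sum, exp_sum]
      _ ≤ _ := mul_le_mul_of_nonneg_left (exp_le_exp.2 hsum) hpos
  have he : exp (-(u : ℝ)) * exp (u - 1) ≤ 1 / 2 := by
    rw [← exp_add]
    have : exp (-(u : ℝ) + (u - 1)) = (exp 1)⁻¹ := by rw [← exp_neg]; congr 1; ring
    rw [this]
    have h3 : 2 ≤ exp 1 := by have := add_one_le_exp 1; linarith
    rw [inv_eq_one_div]
    exact one_div_le_one_div_of_le (by norm_num) h3
  have hlow : exp (∑ p ∈ P, ((Ω p).card : ℝ) / p) ≤ ∏ p ∈ P, (1 + w p) := by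
    rw [exp_sum]
    refine prod_le_prod (fun p _ => (exp_pos _).le) fun p hp => ?_
    obtain ⟨hp0, hr⟩ := hne p hp
    have h4 : 1 + w p = (1 - ((Ω p).card : ℝ) / p)⁻¹ := by
      simp only [w, hw]
      have : (p : ℝ) - (Ω p).card ≠ 0 := by linarith
      field_simp
      ring
    have h5 : 0 < 1 - ((Ω p).card : ℝ) / p := by
      rw [sub_pos, div_lt_one hp0]; exact hr
    rw [h4, le_inv_comm₀ (exp_pos _) h5, ← exp_neg]
    have := add_one_le_exp (-(((Ω p).card : ℝ) / p))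
    linarith
  have : exp (-(u : ℝ)) * ∏ p ∈ P, (1 + w p * (p : ℝ) ^ κ) ≤ (∏ p ∈ P, (1 + w p)) / 2 := by
    calc _ ≤ exp (-(u : ℝ)) * ((∏ p ∈ P, (1 + w p)) * exp (u - 1)) := by gcongr
      _ = (∏ p ∈ P, (1 + w p)) * (exp (-(u : ℝ)) * exp (u - 1)) := by ring
      _ ≤ (∏ p ∈ P, (1 + w p)) * (1 / 2) := by gcongr
      _ = _ := by ring
  linarith

theorem sieve_many (Ω : ℕ → Finset ℕ) (P : Finset ℕ) {y u : ℕ} {A : ℝ} (hy : 2 ≤ y)
    (hP : ∀ p ∈ P, p.Prime ∧ p ≤ y) (hΩ : ∀ p ∈ P, Ω p ⊆ range p)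
    (h2 : ∀ p ∈ P, 2 * (Ω p).card ≤ p)
    (hA : ∑ p ∈ P, ((Ω p).card : ℝ) * (log p / p) ≤ A * log y) (hu : 2 * A + 1 ≤ u) (N : ℕ) :
    (((range N).filter (fun n => ∀ p ∈ P, n % p ∉ Ω p)).card : ℝ) ≤
      2 * N * exp (-∑ p ∈ P, ((Ω p).card : ℝ) / p) + 2 * (y : ℝ) ^ (4 * u) := by
  have h1 := selberg_sieve Ω P (fun p hp => (hP p hp).1) hΩ h2 (D := y ^ u)
    (Nat.one_le_pow _ _ (by omega)) N
  have h3 := bigG_ge' Ω P hy hP h2 hA hu
  refine h1.trans (add_le_add ?_ (le_of_eq ?_))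
  · calc (N : ℝ) / bigG Ω P (y ^ u) ≤ N / (exp (∑ p ∈ P, ((Ω p).card : ℝ) / p) / 2) := by
          gcongr
      _ = _ := by rw [exp_neg]; field_simp
  · push_cast; ring

end Pool.Agent.P.MP_78d079_nt.Xb
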